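import Pool.Agent.Helper37.SD.Frame

/-!
# Homogeneous generators of a cone and finiteness of colengths
-/

set_option autoImplicit false

namespace Pool.Agent.Helper37.SD

open Module

variable {K : Type} [Field K] [Algebra ℂ K] {R : Subalgebra ℂ K} {ξ : Derivation ℂ K K}

/-- A cone is generated by finitely many homogeneous elements of positive degree. -/
theorem IsCone.exists_gens (h : IsCone R ξ) : ∃ (T : Finset K) (δ : ℝ), 0 < δ ∧
    (∀ t ∈ T, t ∈ R ∧ t ≠ 0 ∧ ∃ c : ℝ, δ ≤ c ∧ ξ t = (c : ℂ) • t) ∧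
      Algebra.adjoin ℂ (T : Set K) = R := by
  classical
  obtain ⟨S, hS⟩ := h.fg
  have hSR : ∀ s ∈ S, s ∈ R := by
    intro s hs
    rw [← hS]
    exact Algebra.subset_adjoin hs
  have hdec : ∀ s : K, ∃ f : ℝ →₀ K, s ∈ S → IsDec (ξ : K →ₗ[ℂ] K) (RS R) (fun c => 0 ≤ c) f s := by
    intro s
    by_cases hs : s ∈ S
    · obtain ⟨f, hf⟩ := exists_dec (h.span s (hSR s hs))
      exact ⟨f, fun _ => hf⟩
    · exact ⟨0, fun h => absurd h hs⟩
  choose f hf using hdec
  -- all pairs (degree, component)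
  let Q : Finset (ℝ × K) := S.biUnion fun s => (f s).support.image fun c => (c, f s c)
  let Q' := Q.filter fun q => 0 < q.1
  have hQ : ∀ q ∈ Q', q.2 ∈ R ∧ q.2 ≠ 0 ∧ 0 < q.1 ∧ ξ q.2 = ((q.1 : ℝ) : ℂ) • q.2 := by
    intro q hq
    obtain ⟨hq1, hq2⟩ := Finset.mem_filter.mp hq
    obtain ⟨s, hs, hq3⟩ := Finset.mem_biUnion.mp hq1
    obtain ⟨c, hc, rfl⟩ := Finset.mem_image.mp hq3
    exact ⟨(hf s hs).mem c, Finsupp.mem_support_iff.mp hc, hq2, (hf s hs).eig c⟩
  obtain ⟨δ, hδ0, hδ⟩ : ∃ δ : ℝ, 0 < δ ∧ ∀ q ∈ Q', δ ≤ q.1 := by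
    by_cases hne : (Q'.image fun q => q.1).Nonempty
    · refine ⟨(Q'.image fun q => q.1).min' hne, ?_, fun q hq => ?_⟩
      · obtain ⟨q, hq, he⟩ := Finset.mem_image.mp ((Q'.image fun q => q.1).min'_mem hne)
        rw [← he]
        exact (hQ q hq).2.2.1
      · exact Finset.min'_le _ _ (Finset.mem_image_of_mem _ hq)
    · refine ⟨1, one_pos, fun q hq => ?_⟩
      exact absurd ⟨q.1, Finset.mem_image_of_mem _ hq⟩ hne
  refine ⟨Q'.image fun q => q.2, δ, hδ0, fun t ht => ?_, le_antisymm ?_ ?_⟩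
  · obtain ⟨q, hq, rfl⟩ := Finset.mem_image.mp ht
    obtain ⟨h1, h2, _, h4⟩ := hQ q hq
    exact ⟨h1, h2, q.1, hδ q hq, h4⟩
  · refine Algebra.adjoin_le fun t ht => ?_
    obtain ⟨q, hq, rfl⟩ := Finset.mem_image.mp (Finset.mem_coe.mp ht)
    exact (hQ q hq).1
  · have h1 : Algebra.adjoin ℂ (S : Set K) ≤
        Algebra.adjoin ℂ ((Q'.image fun q => q.2 : Finset K) : Set K) := by
      refine Algebra.adjoin_le fun s hs => ?_
      have hs : s ∈ S := hs
      have h2 := (hf s hs).sum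
      rw [SetLike.mem_coe, ← h2, Finsupp.sum]
      refine Subalgebra.sum_mem _ fun c hc => ?_
      have hc0 := Finsupp.mem_support_iff.mp hc
      rcases lt_or_eq_of_le ((hf s hs).prop c hc0) with hpos | hzero
      · refine Algebra.subset_adjoin (Finset.mem_coe.mpr (Finset.mem_image.mpr
          ⟨(c, f s c), Finset.mem_filter.mpr ⟨Finset.mem_biUnion.mpr ⟨s, hs,
            Finset.mem_image.mpr ⟨c, hc, rfl⟩⟩, hpos⟩, rfl⟩))
      · have h3 := (hf s hs).eig c
        rw [← hzero] at h3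
        have h4 : ξ (f s 0) = 0 := by
          have h5 : ξ (f s 0) = ((0 : ℝ) : ℂ) • f s 0 := h3
          rw [h5]
          simp
        obtain ⟨z, hz⟩ := h.const (f s 0) ((hf s hs).mem 0) h4
        rw [← hzero, hz]
        exact Subalgebra.algebraMap_mem _ z
    rwa [hS] at h1

/-- the elements of value at least `c` -/
def geSub (w : RVal K) (c : ℝ) : Submodule ℂ K where
  carrier := {x | w.Ge c x}
  add_mem' := fun hx hy => w.ge_add hx hy
  zero_mem' := Or.inl rfl
  smul_mem' := fun z _ hx => w.ge_smul z hx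

theorem closure_or {w : RVal K} {δ : ℝ} {T : Finset K} (hδ : 0 < δ)
    (hT : ∀ t ∈ T, t ≠ 0 ∧ δ ≤ w.val t) (k : ℕ) : ∃ F : Finset K,
      ∀ p ∈ Submonoid.closure (T : Set K), p ∈ F ∨ (p ≠ 0 ∧ k * δ ≤ w.val p) := by
  classical
  induction k with
  | zero =>
    refine ⟨∅, fun p hp => Or.inr ?_⟩
    induction hp using Submonoid.closure_induction with
    | mem x hx =>
      refine ⟨(hT x hx).1, ?_⟩
      have := (hT x hx).2
      push_cast
      linarith
    | one => exact ⟨one_ne_zero, by rw [w.val_one]; simp⟩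
    | mul x y _ _ hx hy =>
      refine ⟨mul_ne_zero hx.1 hy.1, ?_⟩
      rw [w.map_mul x y hx.1 hy.1]
      have h1 := hx.2
      have h2 := hy.2
      push_cast at h1 h2 ⊢
      linarith
  | succ k ih =>
    obtain ⟨F, hF⟩ := ih
    refine ⟨insert 1 ((T ×ˢ F).image fun q => q.1 * q.2), fun p hp => ?_⟩
    induction hp using Submonoid.closure_induction_left with
    | one => exact Or.inl (Finset.mem_insert_self _ _)
    | mul_left x hx y hy _ =>
      have hx : x ∈ T := hx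
      rcases hF y hy with h1 | h1
      · exact Or.inl (Finset.mem_insert_of_mem (Finset.mem_image.mpr
          ⟨(x, y), Finset.mem_product.mpr ⟨hx, h1⟩, rfl⟩))
      · refine Or.inr ⟨mul_ne_zero (hT x hx).1 h1.1, ?_⟩
        rw [w.map_mul x y (hT x hx).1 h1.1]
        have h2 := (hT x hx).2
        have h3 := h1.2
        push_cast
        linarith

/-- Colengths are finite. -/
theorem finite_quot {w : RVal K} {δ : ℝ} {T : Finset K} (hδ : 0 < δ)
    (hT : ∀ t ∈ T, t ≠ 0 ∧ δ ≤ w.val t) (hR : Algebra.adjoin ℂ (T : Set K) = R) (c : ℝ) :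
    Module.Finite ℂ (R ⧸ idl R w c) := by
  classical
  obtain ⟨k, hk⟩ := exists_nat_ge (c / δ)
  obtain ⟨F, hF⟩ := closure_or hδ hT k
  have hle : RS R ≤ Submodule.span ℂ (F : Set K) ⊔ geSub w c := by
    rw [RS, ← hR, Algebra.adjoin_eq_span]
    refine Submodule.span_le.mpr fun p hp => ?_
    rcases hF p hp with h1 | h1
    · exact Submodule.mem_sup_left (Submodule.subset_span h1)
    · refine Submodule.mem_sup_right (Or.inr ?_)
      rw [div_le_iff₀ hδ] at hk
      exact hk.trans h1.2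
  let f : R →ₗ[ℂ] K ⧸ geSub w c := (geSub w c).mkQ.comp R.val.toLinearMap
  have hker : LinearMap.ker f = idl R w c := by
    ext x
    rw [LinearMap.mem_ker]
    show (geSub w c).mkQ (x : K) = 0 ↔ _
    rw [Submodule.mkQ_apply, Submodule.Quotient.mk_eq_zero]
    rfl
  have hrange : LinearMap.range f ≤ (Submodule.span ℂ (F : Set K)).map (geSub w c).mkQ := by
    rintro _ ⟨x, rfl⟩
    have h1 := hle x.2
    obtain ⟨a, ha, b, hb, hab⟩ := Submodule.mem_sup.mp h1
    refine ⟨a, ha, ?_⟩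
    show (geSub w c).mkQ a = (geSub w c).mkQ (x : K)
    rw [← hab, map_add]
    have h2 : (geSub w c).mkQ b = 0 := by
      rw [Submodule.mkQ_apply, Submodule.Quotient.mk_eq_zero]
      exact hb
    rw [h2, add_zero]
  have h1 : Module.Finite ℂ (Submodule.span ℂ (F : Set K)) :=
    Module.Finite.iff_fg.mpr (Submodule.fg_span F.finite_toSet)
  have h2 : Module.Finite ℂ ((Submodule.span ℂ (F : Set K)).map (geSub w c).mkQ) :=
    Module.Finite.iff_fg.mpr ((Submodule.fg_span F.finite_toSet).map _)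
  have h3 : Module.Finite ℂ (LinearMap.range f) :=
    Submodule.finiteDimensional_of_le hrange
  rw [← hker]
  exact Module.Finite.equiv f.quotKerEquivRange.symm

theorem IsWt.finite_quot (h : IsCone R ξ) {v : RVal K} (hv : IsWt R ξ v) (c : ℝ) :
    Module.Finite ℂ (R ⧸ idl R v c) := by
  obtain ⟨T, δ, hδ, hT, hR⟩ := h.exists_gens
  refine Pool.Agent.Helper37.SD.finite_quot hδ (fun t ht => ?_) hR c
  obtain ⟨_, h1, b, hb, he⟩ := hT t ht
  refine ⟨h1, ?_⟩
  rw [hv.val_eig h h1 he]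
  exact hb

/-- The homogeneous elements of `R` of degree `c`. -/
def eigR (R : Subalgebra ℂ K) (ξ : Derivation ℂ K K) (c : ℝ) : Submodule ℂ K where
  carrier := {x | x ∈ R ∧ ξ x = (c : ℂ) • x}
  add_mem' := fun {x y} hx hy => ⟨R.add_mem hx.1 hy.1, by rw [map_add, hx.2, hy.2, smul_add]⟩
  zero_mem' := ⟨R.zero_mem, by rw [map_zero, smul_zero]⟩
  smul_mem' := fun z x hx => ⟨R.smul_mem hx.1 z, by rw [Derivation.map_smul, hx.2, smul_comm]⟩

theorem IsCone.finite_eigR (h : IsCone R ξ) (c : ℝ) : Module.Finite ℂ (eigR R ξ c) := by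
  obtain ⟨v, hv⟩ := h.exists_wt
  have h1 := hv.finite_quot h (c + 1)
  let f : eigR R ξ c →ₗ[ℂ] R ⧸ idl R v (c + 1) :=
    (idl R v (c + 1)).mkQ.comp (LinearMap.codRestrict (Subalgebra.toSubmodule R)
      (eigR R ξ c).subtype (fun x => x.2.1))
  refine Module.Finite.of_injective f ?_
  rw [injective_iff_map_eq_zero]
  intro x hx
  by_contra hx0
  have hx1 : (x : K) ≠ 0 := fun h => hx0 (Subtype.ext h)
  have h2 : (⟨(x : K), x.2.1⟩ : R) ∈ idl R v (c + 1) := by
    rw [← Submodule.Quotient.mk_eq_zero]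
    exact hx
  have h3 : v.Ge (c + 1) (x : K) := h2
  have h4 := h3.resolve_left hx1
  rw [hv.val_eig h hx1 x.2.2] at h4
  linarith

end Pool.Agent.Helper37.SD
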