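import Pool.Agent.Helper37.SD.Wt

/-!
# Frames of derivations and log discrepancies
-/

set_option autoImplicit false

namespace Pool.Agent.Helper37.SD

open Module

variable {K : Type} [Field K] [Algebra ℂ K]

theorem der_div (D : Derivation ℂ K K) (a b : K) (hb : b ≠ 0) :
    D (a / b) = (b * D a - a * D b) / (b * b) := by
  have h1 : a = (a / b) * b := by rw [div_mul_cancel₀ _ hb]
  have h2 : D a = (a / b) * D b + b * D (a / b) := by
    have := D.leibniz (a / b) b
    rw [div_mul_cancel₀ _ hb] at this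
    simpa [smul_eq_mul] using this
  rw [h2]
  field_simp
  ring

/-- A derivation of `K` vanishing on `R` is zero. -/
theorem der_eq_zero {R : Subalgebra ℂ K} (hR : IsFrac R) {D : Derivation ℂ K K}
    (h : ∀ x ∈ R, D x = 0) : D = 0 := by
  ext x
  obtain ⟨a, ha, b, hb, hb0, e⟩ := hR x
  rw [e, der_div D a b hb0, h a ha, h b hb]
  simp

/-- `g` and `D` form a frame: `D i (g j) = δ g j`, and every derivation is a combination. -/
structure IsFrame {d : ℕ} (D : Fin d → Derivation ℂ K K) (g : Fin d → K) : Prop where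
  ne : ∀ i, g i ≠ 0
  apply : ∀ i j, D i (g j) = if i = j then g j else 0
  complete : ∀ E : Derivation ℂ K K, E = ∑ i, (E (g i) / g i) • D i

/-- evaluation at `x` -/
noncomputable def evd (x : K) : Module.Dual K (Derivation ℂ K K) where
  toFun D := D x
  map_add' _ _ := rfl
  map_smul' _ _ := rfl

theorem der_sum_apply {ι : Type} (s : Finset ι) (f : ι → Derivation ℂ K K) (x : K) :
    (∑ i ∈ s, f i) x = ∑ i ∈ s, f i x := map_sum (evd x) f s

theorem exists_frame {d : ℕ} (hd : finrank K (Derivation ℂ K K) = d)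
    (hfin : Module.Finite K (Derivation ℂ K K)) (S : Set K) (hS0 : ∀ x ∈ S, x ≠ 0)
    (hS : ∀ D : Derivation ℂ K K, (∀ x ∈ S, D x = 0) → D = 0) :
    ∃ (D : Fin d → Derivation ℂ K K) (g : Fin d → K), (∀ i, g i ∈ S) ∧ IsFrame D g := by
  classical
  have hspan : Submodule.span K (evd '' S) = ⊤ := by
    have h1 : (Submodule.span K (evd '' S)).dualCoannihilator = ⊥ := by
      rw [eq_bot_iff]
      intro D hD
      rw [Submodule.mem_dualCoannihilator] at hD
      rw [Submodule.mem_bot]
      exact hS D fun x hx => hD (evd x) (Submodule.subset_span ⟨x, hx, rfl⟩)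
    have h2 := Subspace.dualCoannihilator_dualAnnihilator_eq (W := Submodule.span K (evd '' S))
    rw [h1, Submodule.dualAnnihilator_bot] at h2
    exact h2.symm
  obtain ⟨b, hbS, hbspan, hbli⟩ := exists_linearIndependent K (evd '' S : Set (Module.Dual K (Derivation ℂ K K)))
  rw [hspan] at hbspan
  let β : Basis b K (Module.Dual K (Derivation ℂ K K)) := Basis.mk hbli (by
    rw [Subtype.range_coe_subtype, Set.ofPred_mem_eq, hbspan])
  have : Finite b := Module.Finite.finite_basis β
  have : Fintype b := Fintype.ofFinite b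
  have hcard : Fintype.card b = d := by
    rw [← hd, ← Subspace.dual_finrank_eq, finrank_eq_card_basis β]
  let e : b ≃ Fin d := Fintype.equivFinOfCardEq hcard
  let γ := β.reindex e
  have hγ : ∀ i, ∃ x ∈ S, evd x = γ i := by
    intro i
    have h1 : γ i = ((e.symm i : b) : Module.Dual K (Derivation ℂ K K)) := by
      rw [Basis.reindex_apply, Basis.mk_apply]
    rw [h1]
    exact hbS (e.symm i).2
  choose g hgS hg using hγ
  let D' : Fin d → Derivation ℂ K K := fun i => (Module.evalEquiv K (Derivation ℂ K K)).symm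
    (γ.dualBasis i)
  have hD' : ∀ i j, D' i (g j) = if i = j then 1 else 0 := by
    intro i j
    have h1 : D' i (g j) = (Module.evalEquiv K (Derivation ℂ K K) (D' i)) (evd (g j)) := rfl
    rw [h1, hg j, LinearEquiv.apply_symm_apply, Basis.dualBasis_apply, Basis.repr_self]
    by_cases hij : i = j
    · subst hij
      simp
    · rw [if_neg hij, Finsupp.single_eq_of_ne hij]
  refine ⟨fun i => g i • D' i, g, hgS, ⟨fun i => hS0 _ (hgS i), fun i j => ?_, fun E => ?_⟩⟩
  · rw [Derivation.smul_apply, hD', smul_eq_mul]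
    by_cases hij : i = j
    · subst hij
      simp
    · simp [hij]
  · have h1 : ∀ j, (E - ∑ i, (E (g i) / g i) • (g i • D' i)) (g j) = 0 := by
      intro j
      rw [Derivation.sub_apply, sub_eq_zero]
      have h2 : (∑ i, (E (g i) / g i) • (g i • D' i)) (g j) =
          ∑ i, ((E (g i) / g i) • (g i • D' i)) (g j) := der_sum_apply _ _ _
      rw [h2, Finset.sum_eq_single j]
      · rw [Derivation.smul_apply, Derivation.smul_apply, hD', if_pos rfl, smul_eq_mul, smul_eq_mul,
          mul_one, div_mul_cancel₀ _ (hS0 _ (hgS j))]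
      · intro i _ hij
        rw [Derivation.smul_apply, Derivation.smul_apply, hD', if_neg hij, smul_zero, smul_zero]
      · intro h
        exact absurd (Finset.mem_univ j) h
    have h3 : ∀ φ : Module.Dual K (Derivation ℂ K K),
        φ (E - ∑ i, (E (g i) / g i) • (g i • D' i)) = 0 := by
      intro φ
      rw [← γ.sum_repr φ, LinearMap.sum_apply]
      refine Finset.sum_eq_zero fun j _ => ?_
      rw [LinearMap.smul_apply, ← hg j]
      show _ • (E - ∑ i, (E (g i) / g i) • (g i • D' i)) (g j) = 0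
      rw [h1 j, smul_zero]
    exact sub_eq_zero.mp ((Module.forall_dual_apply_eq_zero_iff K _).mp h3)

namespace IsFrame

variable {d : ℕ} {D : Fin d → Derivation ℂ K K} {g : Fin d → K}

theorem ext (h : IsFrame D g) {E F : Derivation ℂ K K} (hEF : ∀ i, E (g i) = F (g i)) : E = F := by
  rw [h.complete E, h.complete F]
  exact Finset.sum_congr rfl fun i _ => by rw [hEF i]

theorem linInd (h : IsFrame D g) {c : Fin d → K} (hc : ∑ i, c i • D i = 0) (j : Fin d) :
    c j = 0 := by
  have h1 : (∑ i, c i • D i) (g j) = 0 := by rw [hc]; rfl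
  have h2 : (∑ i, c i • D i) (g j) = ∑ i, (c i • D i) (g j) := der_sum_apply _ _ _
  rw [h2, Finset.sum_eq_single j] at h1
  · rw [Derivation.smul_apply, h.apply, if_pos rfl, smul_eq_mul] at h1
    exact (mul_eq_zero.mp h1).resolve_right (h.ne j)
  · intro i _ hij
    rw [Derivation.smul_apply, h.apply, if_neg hij, smul_zero]
  · intro h
    exact absurd (Finset.mem_univ j) h

/-- A frame consisting of elements homogeneous for `ξ` commutes with `ξ`. -/
theorem comm (h : IsFrame D g) {ξ : Derivation ℂ K K} {c : Fin d → ℂ}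
    (hg : ∀ i, ξ (g i) = c i • g i) (i : Fin d) : ⁅ξ, D i⁆ = 0 := by
  refine h.ext fun j => ?_
  rw [Derivation.commutator_apply, hg j, Derivation.map_smul, h.apply]
  by_cases hij : i = j
  · rw [if_pos hij, hg j, sub_self]
    rfl
  · rw [if_neg hij, map_zero, smul_zero, sub_zero]
    rfl

end IsFrame

section Comm

variable {R : Subalgebra ℂ K} {ξ : Derivation ℂ K K} {v : RVal K}

theorem eig_comm {D : Derivation ℂ K K} (h : ⁅ξ, D⁆ = 0) {x : K} {c : ℂ} (hx : ξ x = c • x) :
    ξ (D x) = c • D x := by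
  have h1 : ⁅ξ, D⁆ x = 0 := by rw [h]; rfl
  rw [Derivation.commutator_apply, hx, Derivation.map_smul] at h1
  exact sub_eq_zero.mp h1

theorem hsp_comm {D : Derivation ℂ K K} (h : ⁅ξ, D⁆ = 0) {P : ℝ → Prop} {x : K}
    (hx : x ∈ Hsp (ξ : K →ₗ[ℂ] K) ⊤ P) : D x ∈ Hsp (ξ : K →ₗ[ℂ] K) ⊤ P := by
  induction hx using Submodule.span_induction with
  | mem y hy =>
    obtain ⟨_, c, hc, hy⟩ := hy
    exact mem_hsp Submodule.mem_top hc (eig_comm h hy)
  | zero => rw [map_zero]; exact Submodule.zero_mem _
  | add x y _ _ hx hy => rw [map_add]; exact Submodule.add_mem _ hx hy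
  | smul z x _ hx => rw [Derivation.map_smul]; exact Submodule.smul_mem _ z hx

theorem RVal.ge_div (v : RVal K) {b : ℝ} {x y : K} (hx : v.Ge b x) (hy : y ≠ 0) :
    v.Ge (b - v.val y) (x / y) := by
  by_cases h1 : x = 0
  · exact Or.inl (by rw [h1, zero_div])
  · refine Or.inr ?_
    rw [v.val_div h1 hy]
    have := hx.resolve_left h1
    linarith

/-- A derivation satisfying `v (D x) ≥ v x` on `R` satisfies it on the fraction field. -/
theorem logDer_of_ring (hR : IsFrac R) {D : Derivation ℂ K K}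
    (h : ∀ x ∈ R, x ≠ 0 → v.Ge (v.val x) (D x)) : LogDer v D := by
  intro x hx
  obtain ⟨a, ha, b, hb, hb0, e⟩ := hR x
  have ha0 : a ≠ 0 := by
    rintro rfl
    exact hx (by rw [e, zero_div])
  rw [e, der_div D a b hb0, v.val_div ha0 hb0]
  have h1 : v.Ge (v.val a + v.val b) (b * D a - a * D b) := by
    refine v.ge_sub ?_ (v.ge_mul v.ge_self (h b hb hb0))
    rw [add_comm]
    exact v.ge_mul v.ge_self (h a ha ha0)
  have h2 := v.ge_div h1 (mul_ne_zero hb0 hb0)
  rw [v.map_mul b b hb0 hb0] at h2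
  have e3 : v.val a + v.val b - (v.val b + v.val b) = v.val a - v.val b := by ring
  rwa [e3] at h2

theorem IsWt.logDer_of_comm (h : IsCone R ξ) (hv : IsWt R ξ v) {D : Derivation ℂ K K}
    (hD : ⁅ξ, D⁆ = 0) : LogDer v D := by
  refine logDer_of_ring h.frac fun x hx hx0 => ?_
  exact hv.ge_of_hsp h (hsp_comm hD (rh_le_top ((hv x hx hx0 _).mp le_rfl)))

end Comm

section Gram

variable {n : ℕ} {ω : Form K} {D : Fin (2 * n) → Derivation ℂ K K} {g : Fin (2 * n) → K}

theorem gram_change (h : IsFrame D g) (E : Fin (2 * n) → Derivation ℂ K K) :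
    gram ω E = (Matrix.of fun i j => E i (g j) / g j) * gram ω D *
      (Matrix.of fun i j => E i (g j) / g j).transpose := by
  ext i j
  have h1 : ω (E i) (E j) = ∑ k, ∑ l, (E i (g k) / g k) * ((E j (g l) / g l) * ω (D k) (D l)) := by
    have hA : ∀ F, ω (E i) F = ∑ k, (E i (g k) / g k) * ω (D k) F := by
      intro F
      conv_lhs => rw [h.complete (E i)]
      rw [map_sum ω, LinearMap.sum_apply]
      refine Finset.sum_congr rfl fun k _ => ?_
      rw [map_smul ω, LinearMap.smul_apply, smul_eq_mul]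
    rw [hA]
    refine Finset.sum_congr rfl fun k _ => ?_
    conv_lhs => rw [h.complete (E j)]
    rw [map_sum (ω (D k)), Finset.mul_sum]
    refine Finset.sum_congr rfl fun l _ => ?_
    rw [map_smul (ω (D k)), smul_eq_mul]
  show ω (E i) (E j) = _
  rw [h1, Matrix.mul_apply]
  simp only [Matrix.mul_apply, Matrix.of_apply, Matrix.transpose_apply, gram]
  rw [Finset.sum_comm]
  refine Finset.sum_congr rfl fun l _ => ?_
  rw [Finset.sum_mul]
  refine Finset.sum_congr rfl fun k _ => ?_
  ring

theorem gram_det_change (h : IsFrame D g) (E : Fin (2 * n) → Derivation ℂ K K) :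
    (gram ω E).det = (Matrix.of fun i j => E i (g j) / g j).det ^ 2 * (gram ω D).det := by
  rw [gram_change h E, Matrix.det_mul, Matrix.det_mul, Matrix.det_transpose]
  ring

theorem RVal.ge_prod (v : RVal K) {ι : Type} (s : Finset ι) (c : ι → ℝ) (x : ι → K)
    (h : ∀ i ∈ s, v.Ge (c i) (x i)) : v.Ge (∑ i ∈ s, c i) (∏ i ∈ s, x i) := by
  classical
  induction s using Finset.induction_on with
  | empty =>
    rw [Finset.sum_empty, Finset.prod_empty]
    exact Or.inr (by rw [v.val_one])
  | insert a s ha ih =>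
    rw [Finset.sum_insert ha, Finset.prod_insert ha]
    exact v.ge_mul (h a (Finset.mem_insert_self a s))
      (ih fun i hi => h i (Finset.mem_insert_of_mem hi))

theorem RVal.ge_det (v : RVal K) {m : ℕ} {c : ℝ} {M : Matrix (Fin m) (Fin m) K}
    (h : ∀ i j, v.Ge c (M i j)) : v.Ge (m * c) M.det := by
  rw [Matrix.det_apply]
  refine v.ge_sum _ _ fun σ _ => ?_
  have h1 : v.Ge (m * c) (∏ i, M (σ i) i) := by
    have := v.ge_prod Finset.univ (fun _ => c) (fun i => M (σ i) i) (fun i _ => h _ _)
    simpa using this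
  rcases Int.units_eq_one_or (Equiv.Perm.sign σ) with hs | hs
  · rw [hs, one_smul]
    exact h1
  · rw [hs]
    have e : ((-1 : ℤˣ) • ∏ i, M (σ i) i) = -∏ i, M (σ i) i := by
      rw [Units.smul_def]
      simp
    rw [e]
    exact v.ge_neg h1

/-- The log discrepancy is computed by a frame of derivations satisfying `v (D x) ≥ v x`. -/
theorem hasLogDisc_of_frame (h : IsFrame D g) {v : RVal K} (hD : ∀ i, LogDer v (D i))
    (hdet : (gram ω D).det ≠ 0) : HasLogDisc n ω v (v.val (gram ω D).det / 2) := by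
  refine IsLeast.isGLB ⟨⟨D, hD, hdet, by ring⟩, ?_⟩
  rintro r ⟨E, hE, hEdet, hr⟩
  have h1 : v.Ge 0 (Matrix.of fun i j => E i (g j) / g j).det := by
    have := v.ge_det (c := 0) (M := Matrix.of fun i j => E i (g j) / g j) (fun i j => by
      have h2 := v.ge_div (hE i (g j) (h.ne j)) (h.ne j)
      rw [sub_self] at h2
      exact h2)
    rwa [mul_zero] at this
  have h3 := gram_det_change (ω := ω) h E
  have h4 : (Matrix.of fun i j => E i (g j) / g j).det ≠ 0 := by
    intro h0
    rw [h0] at h3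
    apply hEdet
    rw [h3]
    ring
  have h5 : v.val (gram ω E).det = 2 * v.val (Matrix.of fun i j => E i (g j) / g j).det +
      v.val (gram ω D).det := by
    rw [h3, v.map_mul _ _ (pow_ne_zero 2 h4) hdet, v.val_pow h4]
    push_cast
    ring
  have h6 := h1.resolve_left h4
  rw [h5] at hr
  linarith

theorem alt_neg {ω : Form K} (ha : ∀ D, ω D D = 0) (D E : Derivation ℂ K K) :
    ω D E = -ω E D := by
  have := ha (D + E)
  rw [map_add ω, LinearMap.add_apply, map_add (ω D), map_add (ω E), ha D, ha E, zero_add,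
    add_zero] at this
  exact eq_neg_of_add_eq_zero_left this

theorem gram_det_ne_zero (h : IsFrame D g) (ha : ∀ D, ω D D = 0)
    (hinj : ∀ D, (∀ E, ω D E = 0) → D = 0) : (gram ω D).det ≠ 0 := by
  intro hdet
  obtain ⟨c, hc0, hc⟩ := Matrix.exists_mulVec_eq_zero_iff.mpr hdet
  apply hc0
  have h1 : ∑ j, c j • D j = 0 := by
    refine hinj _ fun E => ?_
    rw [alt_neg ha, h.complete E, map_sum ω, LinearMap.sum_apply, neg_eq_zero]
    refine Finset.sum_eq_zero fun i _ => ?_
    rw [map_smul ω, LinearMap.smul_apply]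
    have h2 : ω (D i) (∑ j, c j • D j) = 0 := by
      rw [map_sum]
      have h3 := congrFun hc i
      rw [Matrix.mulVec, dotProduct] at h3
      simp only [Pi.zero_apply] at h3
      rw [← h3]
      refine Finset.sum_congr rfl fun j _ => ?_
      rw [map_smul, smul_eq_mul, mul_comm]
      rfl
    rw [h2, smul_zero]
  funext j
  exact h.linInd h1 j

end Gram

section HomDet

variable {ξ : Derivation ℂ K K}

theorem eig_prod {ι : Type} (s : Finset ι) (c : ι → ℝ) (x : ι → K)
    (h : ∀ i ∈ s, ξ (x i) = ((c i : ℝ) : ℂ) • x i) :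
    ξ (∏ i ∈ s, x i) = ((∑ i ∈ s, c i : ℝ) : ℂ) • ∏ i ∈ s, x i := by
  classical
  induction s using Finset.induction_on with
  | empty =>
    rw [Finset.prod_empty, Finset.sum_empty]
    exact eig_one
  | insert a s ha ih =>
    rw [Finset.prod_insert ha, Finset.sum_insert ha]
    exact eig_mul (h a (Finset.mem_insert_self a s))
      (ih fun i hi => h i (Finset.mem_insert_of_mem hi))

theorem eig_det {m : ℕ} (c : ℝ) {M : Matrix (Fin m) (Fin m) K}
    (h : ∀ i j, ξ (M i j) = (c : ℂ) • M i j) : ξ M.det = ((m * c : ℝ) : ℂ) • M.det := by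
  rw [Matrix.det_apply, map_sum, Finset.smul_sum]
  refine Finset.sum_congr rfl fun σ _ => ?_
  have h1 := eig_prod (ξ := ξ) Finset.univ (fun _ => c) (fun i => M (σ i) i) (fun i _ => h _ _)
  rw [Finset.sum_const, Finset.card_univ, Fintype.card_fin, nsmul_eq_mul] at h1
  rcases Int.units_eq_one_or (Equiv.Perm.sign σ) with hs | hs
  · rw [hs, one_smul, h1]
  · rw [hs]
    have e : ((-1 : ℤˣ) • ∏ i, M (σ i) i) = -∏ i, M (σ i) i := by
      rw [Units.smul_def]
      simp
    rw [e, map_neg, h1, smul_neg]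

theorem homForm_eig {ω : Form K} {ℓ : ℝ} (hω : HomForm ξ ℓ ω) {D E : Derivation ℂ K K}
    (hD : ⁅ξ, D⁆ = 0) (hE : ⁅ξ, E⁆ = 0) : ξ (ω D E) = (ℓ : ℂ) • ω D E := by
  have := hω D E
  rw [hD, hE, map_zero, LinearMap.zero_apply, map_zero, sub_zero, sub_zero] at this
  exact this

end HomDet

end Pool.Agent.Helper37.SD
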