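import Pool.Agent.Helper37.SD.Defs

/-!
# Real valuations, and the valuation of a cone
-/

set_option autoImplicit false

namespace Pool.Agent.Helper37.SD

open Module

variable {K : Type} [Field K] [Algebra ℂ K]

section RV

variable (v : RVal K)

theorem RVal.val_one : v.val 1 = 0 := by
  have := v.map_mul 1 1 one_ne_zero one_ne_zero
  rw [one_mul] at this
  linarith

theorem RVal.val_neg (x : K) : v.val (-x) = v.val x := by
  by_cases h : x = 0
  · rw [h, neg_zero]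
  · have h1 : (-x) = algebraMap ℂ K (-1) * x := by rw [map_neg, map_one, neg_one_mul]
    rw [h1, v.map_mul _ _ ((map_ne_zero _).mpr (by norm_num)) h, v.map_const _ (by norm_num),
      zero_add]

theorem RVal.val_inv {x : K} (h : x ≠ 0) : v.val x⁻¹ = -v.val x := by
  have := v.map_mul x x⁻¹ h (inv_ne_zero h)
  rw [mul_inv_cancel₀ h, v.val_one] at this
  linarith

theorem RVal.val_div {x y : K} (hx : x ≠ 0) (hy : y ≠ 0) : v.val (x / y) = v.val x - v.val y := by
  rw [div_eq_mul_inv, v.map_mul _ _ hx (inv_ne_zero hy), v.val_inv hy, sub_eq_add_neg]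

theorem RVal.val_smul {x : K} {z : ℂ} (hz : z ≠ 0) (hx : x ≠ 0) : v.val (z • x) = v.val x := by
  rw [Algebra.smul_def, v.map_mul _ _ ((map_ne_zero _).mpr hz) hx, v.map_const z hz, zero_add]

theorem RVal.val_pow {x : K} (hx : x ≠ 0) (n : ℕ) : v.val (x ^ n) = n * v.val x := by
  induction n with
  | zero => rw [pow_zero, v.val_one]; simp
  | succ n ih =>
    rw [pow_succ, v.map_mul _ _ (pow_ne_zero n hx) hx, ih]
    push_cast
    ring

theorem RVal.ge_mono {b c : ℝ} (h : b ≤ c) {x : K} (hx : v.Ge c x) : v.Ge b x :=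
  hx.imp id fun h' => h.trans h'

theorem RVal.ge_mul {b c : ℝ} {x y : K} (hx : v.Ge b x) (hy : v.Ge c y) :
    v.Ge (b + c) (x * y) := by
  by_cases h1 : x = 0
  · exact Or.inl (by rw [h1, zero_mul])
  · by_cases h2 : y = 0
    · exact Or.inl (by rw [h2, mul_zero])
    · refine Or.inr ?_
      rw [v.map_mul x y h1 h2]
      exact add_le_add (hx.resolve_left h1) (hy.resolve_left h2)

theorem RVal.ge_neg {c : ℝ} {x : K} (hx : v.Ge c x) : v.Ge c (-x) := by
  rcases hx with hx | hx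
  · exact Or.inl (by rw [hx, neg_zero])
  · exact Or.inr (by rwa [v.val_neg])

theorem RVal.ge_sub {c : ℝ} {x y : K} (hx : v.Ge c x) (hy : v.Ge c y) : v.Ge c (x - y) := by
  rw [sub_eq_add_neg]
  exact v.ge_add hx (v.ge_neg hy)

theorem RVal.ge_sum {ι : Type} {c : ℝ} (s : Finset ι) (x : ι → K) (h : ∀ i ∈ s, v.Ge c (x i)) :
    v.Ge c (∑ i ∈ s, x i) := by
  classical
  induction s using Finset.induction_on with
  | empty => exact Or.inl rfl
  | insert a s ha ih =>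
    rw [Finset.sum_insert ha]
    exact v.ge_add (h a (Finset.mem_insert_self a s))
      (ih fun i hi => h i (Finset.mem_insert_of_mem hi))

theorem RVal.ge_self {x : K} : v.Ge (v.val x) x := Or.inr le_rfl

/-- `x = 0` or `v x > c` -/
def RVal.Gt (c : ℝ) (x : K) : Prop := x = 0 ∨ c < v.val x

theorem RVal.gt_add {c : ℝ} {x y : K} (hx : v.Gt c x) (hy : v.Gt c y) : v.Gt c (x + y) := by
  by_cases h : x + y = 0
  · exact Or.inl h
  · by_cases hx0 : x = 0
    · subst hx0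
      rwa [zero_add]
    · by_cases hy0 : y = 0
      · subst hy0
        rwa [add_zero]
      · exact Or.inr (lt_of_lt_of_le (lt_min (hx.resolve_left hx0) (hy.resolve_left hy0))
          (v.map_add x y hx0 hy0 h))

theorem RVal.gt_smul {c : ℝ} {x : K} (z : ℂ) (hx : v.Gt c x) : v.Gt c (z • x) := by
  by_cases hz : z = 0
  · exact Or.inl (by rw [hz, zero_smul])
  · by_cases hx0 : x = 0
    · exact Or.inl (by rw [hx0, smul_zero])
    · exact Or.inr (by rw [v.val_smul hz hx0]; exact hx.resolve_left hx0)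

/-- ultrametric equality -/
theorem RVal.val_add_eq {x y : K} (hx : x ≠ 0) (hy : v.Gt (v.val x) y) :
    x + y ≠ 0 ∧ v.val (x + y) = v.val x := by
  by_cases hy0 : y = 0
  · rw [hy0, add_zero]
    exact ⟨hx, rfl⟩
  · have hlt := hy.resolve_left hy0
    have h0 : x + y ≠ 0 := by
      intro h
      have h1 : y = -x := by rw [← add_eq_zero_iff_neg_eq.mp h]
      rw [h1, v.val_neg] at hlt
      exact lt_irrefl _ hlt
    refine ⟨h0, le_antisymm ?_ ?_⟩
    · by_contra hcon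
      have hcon := lt_of_not_ge hcon
      have h1 : x = (x + y) + (-y) := by ring
      have h2 : v.Gt (v.val x) x := by
        rw [h1]
        refine v.gt_add (Or.inr ?_) (Or.inr ?_)
        · rw [← h1]
          exact hcon
        · rw [v.val_neg, ← h1]
          exact hlt
      exact lt_irrefl _ (h2.resolve_left hx)
    · have := v.map_add x y hx hy0 h0
      rwa [min_eq_left hlt.le] at this

end RV

theorem hfrac_exists {R : Subalgebra ℂ K} (hR : IsFrac R) (x : K) :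
    ∃ p : K × K, p.1 ∈ R ∧ p.2 ∈ R ∧ p.2 ≠ 0 ∧ x = p.1 / p.2 := by
  obtain ⟨a, ha, b, hb, hb0, h⟩ := hR x
  exact ⟨(a, b), ha, hb, hb0, h⟩

/-- Extension of a valuation from a ring to its fraction field. -/
theorem exists_extend {R : Subalgebra ℂ K} (hR : IsFrac R) (V : K → ℝ)
    (h1 : ∀ x ∈ R, ∀ y ∈ R, x ≠ 0 → y ≠ 0 → V (x * y) = V x + V y)
    (h2 : ∀ x ∈ R, ∀ y ∈ R, x ≠ 0 → y ≠ 0 → x + y ≠ 0 → min (V x) (V y) ≤ V (x + y))
    (h3 : ∀ z : ℂ, z ≠ 0 → V (algebraMap ℂ K z) = 0) :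
    ∃ v : RVal K, ∀ x ∈ R, x ≠ 0 → v.val x = V x := by
  classical
  choose p hp1 hp2 hp3 hp4 using hfrac_exists hR
  have hp5 : ∀ x, x ≠ 0 → (p x).1 ≠ 0 := by
    intro x hx h
    apply hx
    rw [hp4 x, h, zero_div]
  have key : ∀ a ∈ R, ∀ b ∈ R, a ≠ 0 → b ≠ 0 → V (p (a / b)).1 - V (p (a / b)).2 = V a - V b := by
    intro a ha b hb ha0 hb0
    have h0 : a / b ≠ 0 := div_ne_zero ha0 hb0
    have e1 : a * (p (a / b)).2 = (p (a / b)).1 * b := by
      have e2 := hp4 (a / b)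
      rw [div_eq_div_iff hb0 (hp3 _)] at e2
      exact e2
    have e3 := h1 a ha _ (hp2 (a / b)) ha0 (hp3 _)
    have e4 := h1 _ (hp1 (a / b)) b hb (hp5 _ h0) hb0
    rw [e1, e4] at e3
    linarith
  refine ⟨⟨fun x => V (p x).1 - V (p x).2, ?_, ?_, ?_⟩, ?_⟩
  · intro x y hx hy
    have e1 : x * y = ((p x).1 * (p y).1) / ((p x).2 * (p y).2) := by
      rw [← div_mul_div_comm, ← hp4 x, ← hp4 y]
    have e2 := key _ (R.mul_mem (hp1 x) (hp1 y)) _ (R.mul_mem (hp2 x) (hp2 y))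
      (mul_ne_zero (hp5 x hx) (hp5 y hy)) (mul_ne_zero (hp3 x) (hp3 y))
    rw [← e1, h1 _ (hp1 x) _ (hp1 y) (hp5 x hx) (hp5 y hy),
      h1 _ (hp2 x) _ (hp2 y) (hp3 x) (hp3 y)] at e2
    show V (p (x * y)).1 - V (p (x * y)).2 = V (p x).1 - V (p x).2 + (V (p y).1 - V (p y).2)
    linarith
  · intro x y hx hy hxy
    have e0 : x + y = ((p x).1 * (p y).2 + (p y).1 * (p x).2) / ((p x).2 * (p y).2) := by
      rw [eq_div_iff (mul_ne_zero (hp3 x) (hp3 y))]
      have e1 : x * (p x).2 = (p x).1 := by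
        rw [eq_comm, ← div_eq_iff (hp3 x)]
        exact (hp4 x).symm
      have e2 : y * (p y).2 = (p y).1 := by
        rw [eq_comm, ← div_eq_iff (hp3 y)]
        exact (hp4 y).symm
      rw [← e1, ← e2]
      ring
    have hn : (p x).1 * (p y).2 + (p y).1 * (p x).2 ≠ 0 := by
      intro h
      apply hxy
      rw [e0, h, zero_div]
    have e2 := key _ (R.add_mem (R.mul_mem (hp1 x) (hp2 y)) (R.mul_mem (hp1 y) (hp2 x))) _
      (R.mul_mem (hp2 x) (hp2 y)) hn (mul_ne_zero (hp3 x) (hp3 y))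
    rw [← e0, h1 _ (hp2 x) _ (hp2 y) (hp3 x) (hp3 y)] at e2
    have e3 := h2 _ (R.mul_mem (hp1 x) (hp2 y)) _ (R.mul_mem (hp1 y) (hp2 x))
      (mul_ne_zero (hp5 x hx) (hp3 y)) (mul_ne_zero (hp5 y hy) (hp3 x)) hn
    rw [h1 _ (hp1 x) _ (hp2 y) (hp5 x hx) (hp3 y), h1 _ (hp1 y) _ (hp2 x) (hp5 y hy) (hp3 x)] at e3
    show min (V (p x).1 - V (p x).2) (V (p y).1 - V (p y).2) ≤ V (p (x + y)).1 - V (p (x + y)).2
    rw [e2]
    rcases min_le_iff.mp e3 with h | h
    · exact (min_le_left _ _).trans (by linarith)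
    · exact (min_le_right _ _).trans (by linarith)
  · intro z hz
    have h0 : algebraMap ℂ K z ≠ 0 := (map_ne_zero _).mpr hz
    have e1 := key _ (R.algebraMap_mem z) _ R.one_mem h0 one_ne_zero
    rw [div_one, h3 z hz] at e1
    have e2 : V 1 = 0 := by
      have := h3 1 one_ne_zero
      rwa [map_one] at this
    rw [e2, sub_zero] at e1
    exact e1
  · intro x hx hx0
    have e1 := key _ hx _ R.one_mem hx0 one_ne_zero
    rw [div_one] at e1
    have e2 : V 1 = 0 := by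
      have := h3 1 one_ne_zero
      rwa [map_one] at this
    rw [e2, sub_zero] at e1
    exact e1

section Der

variable {ξ : Derivation ℂ K K}

theorem eig_mul {a b : ℝ} {x y : K} (hx : ξ x = (a : ℂ) • x) (hy : ξ y = (b : ℂ) • y) :
    ξ (x * y) = ((a + b : ℝ) : ℂ) • (x * y) := by
  rw [Derivation.leibniz, hx, hy]
  push_cast
  rw [smul_eq_mul, smul_eq_mul, mul_smul_comm, mul_smul_comm, mul_comm y x, add_smul, add_comm]

theorem eig_one : ξ 1 = ((0 : ℝ) : ℂ) • (1 : K) := by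
  rw [Derivation.map_one_eq_zero]
  simp

theorem hsp_mul {W : Subalgebra ℂ K} {P Q S : ℝ → Prop} (hS : ∀ a b, P a → Q b → S (a + b))
    {x y : K} (hx : x ∈ Hsp (ξ : K →ₗ[ℂ] K) (RS W) P) (hy : y ∈ Hsp (ξ : K →ₗ[ℂ] K) (RS W) Q) :
    x * y ∈ Hsp (ξ : K →ₗ[ℂ] K) (RS W) S := by
  induction hx using Submodule.span_induction with
  | mem x hx =>
    obtain ⟨hxW, a, ha, hxa⟩ := hx
    induction hy using Submodule.span_induction with
    | mem y hy =>
      obtain ⟨hyW, b, hb, hyb⟩ := hy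
      exact mem_hsp (W.mul_mem hxW hyW) (hS a b ha hb) (eig_mul hxa hyb)
    | zero => rw [mul_zero]; exact Submodule.zero_mem _
    | add y y' _ _ h h' => rw [mul_add]; exact Submodule.add_mem _ h h'
    | smul z y _ h => rw [mul_smul_comm]; exact Submodule.smul_mem _ z h
  | zero => rw [zero_mul]; exact Submodule.zero_mem _
  | add x x' _ _ h h' => rw [add_mul]; exact Submodule.add_mem _ h h'
  | smul z x _ h => rw [smul_mul_assoc]; exact Submodule.smul_mem _ z h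

theorem hsp_mul_top {P Q S : ℝ → Prop} (hS : ∀ a b, P a → Q b → S (a + b))
    {x y : K} (hx : x ∈ Hsp (ξ : K →ₗ[ℂ] K) ⊤ P) (hy : y ∈ Hsp (ξ : K →ₗ[ℂ] K) ⊤ Q) :
    x * y ∈ Hsp (ξ : K →ₗ[ℂ] K) ⊤ S := by
  have h : (⊤ : Submodule ℂ K) = RS (⊤ : Subalgebra ℂ K) := by
    ext z
    simp
  rw [h] at hx hy ⊢
  exact hsp_mul hS hx hy

theorem rh_le_top {R : Subalgebra ℂ K} {P : ℝ → Prop} :
    RH R ξ P ≤ Hsp (ξ : K →ₗ[ℂ] K) ⊤ P := hsp_mono le_top fun _ h => h

end Der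

section Cone

variable {R : Subalgebra ℂ K} {ξ : Derivation ℂ K K}

/-- Leading component of an element of a cone. -/
theorem IsCone.lead (h : IsCone R ξ) {x : K} (hx : x ∈ R) (hx0 : x ≠ 0) :
    ∃ (a : ℝ) (y : K), 0 ≤ a ∧ y ∈ R ∧ y ≠ 0 ∧ ξ y = (a : ℂ) • y ∧
      x - y ∈ RH R ξ (fun c => a < c) := by
  obtain ⟨a, y, h1, h2, h3, h4, h5⟩ := exists_lead hx0 (h.span x hx)
  exact ⟨a, y, h1, h2, h3, h4, hsp_mono le_rfl (fun c hc => hc.2) h5⟩

/-- The valuation `wt ξ` exists. -/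
theorem IsCone.exists_wt (h : IsCone R ξ) : ∃ v : RVal K, IsWt R ξ v := by
  classical
  have hl : ∀ x : K, ∃ a : ℝ, x ∈ R → x ≠ 0 → ∃ y, y ∈ R ∧ y ≠ 0 ∧ ξ y = (a : ℂ) • y ∧
      x - y ∈ RH R ξ (fun c => a < c) := by
    intro x
    by_cases hx : x ∈ R ∧ x ≠ 0
    · obtain ⟨a, y, _, h2, h3, h4, h5⟩ := h.lead hx.1 hx.2
      exact ⟨a, fun _ _ => ⟨y, h2, h3, h4, h5⟩⟩
    · exact ⟨0, fun h1 h2 => absurd ⟨h1, h2⟩ hx⟩
  choose V hV using hl
  have huniq : ∀ x ∈ R, x ≠ 0 → ∀ (a : ℝ) (y : K), y ≠ 0 → ξ y = (a : ℂ) • y →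
      x - y ∈ RH R ξ (fun c => a < c) → V x = a := by
    intro x hx hx0 a y hy hya hxy
    obtain ⟨y', _, h2, h3, h4⟩ := hV x hx hx0
    exact lead_unique h2 hy h3 hya (rh_le_top h4) (rh_le_top hxy)
  have hge : ∀ x ∈ R, x ≠ 0 → ∀ c : ℝ, (c ≤ V x ↔ x ∈ RH R ξ (fun b => c ≤ b)) := by
    intro x hx hx0 c
    obtain ⟨y, h1, h2, h3, h4⟩ := hV x hx hx0
    constructor
    · intro hc
      have e : x = y + (x - y) := by ring
      rw [e]
      exact Submodule.add_mem _ (mem_hsp h1 hc h3)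
        (hsp_mono le_rfl (fun b hb => hc.trans hb.le) h4)
    · intro hm
      obtain ⟨a, y', ha, _, h2', h3', h4'⟩ := exists_lead hx0 hm
      have : V x = a := huniq x hx hx0 a y' h2' h3' (hsp_mono le_rfl (fun b hb => hb.2) h4')
      rw [this]
      exact ha
  obtain ⟨v, hv⟩ := exists_extend h.frac V (by
    intro x hx y hy hx0 hy0
    obtain ⟨x', h1, h2, h3, h4⟩ := hV x hx hx0
    obtain ⟨y', k1, k2, k3, k4⟩ := hV y hy hy0
    refine huniq (x * y) (R.mul_mem hx hy) (mul_ne_zero hx0 hy0) _ (x' * y') (mul_ne_zero h2 k2)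
      (eig_mul h3 k3) ?_
    have e : x * y - x' * y' = (x - x') * y + x' * (y - y') := by ring
    rw [e]
    refine Submodule.add_mem _ ?_ ?_
    · exact hsp_mul (P := fun c => V x < c) (Q := fun c => V y ≤ c) (fun a b ha hb => by linarith)
        h4 ((hge y hy hy0 _).mp le_rfl)
    · exact hsp_mul (P := fun c => V x ≤ c) (Q := fun c => V y < c) (fun a b ha hb => by linarith)
        (mem_hsp h1 le_rfl h3) k4) (by
    intro x hx y hy hx0 hy0 hxy
    rw [hge (x + y) (R.add_mem hx hy) hxy]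
    exact Submodule.add_mem _ ((hge x hx hx0 _).mp (min_le_left _ _))
      ((hge y hy hy0 _).mp (min_le_right _ _))) (by
    intro z hz
    refine huniq _ (R.algebraMap_mem z) ((map_ne_zero _).mpr hz) 0 (algebraMap ℂ K z)
      ((map_ne_zero _).mpr hz) ?_ ?_
    · rw [Derivation.map_algebraMap]
      simp
    · rw [sub_self]
      exact Submodule.zero_mem _)
  refine ⟨v, fun x hx hx0 c => ?_⟩
  rw [hv x hx hx0]
  exact hge x hx hx0 c

variable {v : RVal K}

/-- Leading component with respect to `wt ξ`. -/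
theorem IsWt.lead (h : IsCone R ξ) (hv : IsWt R ξ v) {x : K} (hx : x ∈ R) (hx0 : x ≠ 0) :
    ∃ y : K, y ∈ R ∧ y ≠ 0 ∧ ξ y = ((v.val x : ℝ) : ℂ) • y ∧
      x - y ∈ RH R ξ (fun c => v.val x < c) := by
  obtain ⟨a, y, h1, h2, h3, h4, h5⟩ := h.lead hx hx0
  have e : x = y + (x - y) := by ring
  have hle : a ≤ v.val x := by
    rw [hv x hx hx0, e]
    exact Submodule.add_mem _ (mem_hsp h2 le_rfl h4) (hsp_mono le_rfl (fun b hb => hb.le) h5)
  have hge : v.val x ≤ a := by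
    by_contra hcon
    have hcon := lt_of_not_ge hcon
    have h6 : x ∈ RH R ξ (fun c => a < c) :=
      hsp_mono le_rfl (fun b hb => hcon.trans_le hb) ((hv x hx hx0 _).mp le_rfl)
    have h7 : y ∈ RH R ξ (fun c => a < c) := by
      have e2 : y = x - (x - y) := by ring
      rw [e2]
      exact Submodule.sub_mem _ h6 h5
    exact lt_irrefl a (prop_of_mem_hsp h3 h4 h7)
  have he : v.val x = a := le_antisymm hge hle
  rw [he]
  exact ⟨y, h2, h3, h4, h5⟩

/-- An eigenvector of `ξ` in `K` with eigenvalue `c` has valuation `c`. -/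
theorem IsWt.val_eig (h : IsCone R ξ) (hv : IsWt R ξ v) {z : K} (hz : z ≠ 0) {c : ℝ}
    (hc : ξ z = (c : ℂ) • z) : v.val z = c := by
  obtain ⟨p, hp, q, hq, hq0, e⟩ := h.frac z
  have hp0 : p ≠ 0 := by
    rintro rfl
    exact hz (by rw [e, zero_div])
  have e1 : p = z * q := by rw [e, div_mul_cancel₀ _ hq0]
  obtain ⟨p', _, hp'0, hp'e, hp's⟩ := hv.lead h hp hp0
  obtain ⟨q', _, hq'0, hq'e, hq's⟩ := hv.lead h hq hq0
  have h1 : v.val p = c + v.val q := by
    refine lead_unique (A := (ξ : K →ₗ[ℂ] K)) (x := p) hp'0 (mul_ne_zero hz hq'0) hp'e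
      (eig_mul hc hq'e) (rh_le_top hp's) ?_
    have e2 : p - z * q' = z * (q - q') := by rw [e1]; ring
    rw [e2]
    exact hsp_mul_top (P := fun b => b = c) (Q := fun b => v.val q < b)
      (fun a b ha hb => by rw [ha]; linarith) (mem_hsp Submodule.mem_top rfl hc) (rh_le_top hq's)
  rw [e, v.val_div hp0 hq0, h1]
  ring

theorem IsWt.ge_of_hsp (h : IsCone R ξ) (hv : IsWt R ξ v) {a : ℝ} {z : K}
    (hz : z ∈ Hsp (ξ : K →ₗ[ℂ] K) ⊤ (fun c => a ≤ c)) : v.Ge a z := by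
  induction hz using Submodule.span_induction with
  | mem y hy =>
    obtain ⟨_, c, hc, hy⟩ := hy
    by_cases h0 : y = 0
    · exact Or.inl h0
    · refine Or.inr ?_
      rw [hv.val_eig h h0 hy]
      exact hc
  | zero => exact Or.inl rfl
  | add x y _ _ hx hy => exact v.ge_add hx hy
  | smul z x _ hx => exact v.ge_smul z hx

theorem IsWt.gt_of_hsp (h : IsCone R ξ) (hv : IsWt R ξ v) {a : ℝ} {z : K}
    (hz : z ∈ Hsp (ξ : K →ₗ[ℂ] K) ⊤ (fun c => a < c)) : v.Gt a z := by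
  induction hz using Submodule.span_induction with
  | mem y hy =>
    obtain ⟨_, c, hc, hy⟩ := hy
    by_cases h0 : y = 0
    · exact Or.inl h0
    · refine Or.inr ?_
      rw [hv.val_eig h h0 hy]
      exact hc
  | zero => exact Or.inl rfl
  | add x y _ _ hx hy => exact v.gt_add hx hy
  | smul z x _ hx => exact v.gt_smul z hx

/-- The value is the degree of the leading component. -/
theorem IsWt.val_of_lead (h : IsCone R ξ) (hv : IsWt R ξ v) {z y : K} {b : ℝ} (hy : y ≠ 0)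
    (hyb : ξ y = (b : ℂ) • y) (hz : z - y ∈ Hsp (ξ : K →ₗ[ℂ] K) ⊤ (fun c => b < c)) :
    z ≠ 0 ∧ v.val z = b := by
  have h1 := hv.val_eig h hy hyb
  have h2 := hv.gt_of_hsp h hz
  rw [← h1] at h2
  have h3 := v.val_add_eq hy h2
  have e : z = y + (z - y) := by ring
  rw [← e] at h3
  exact ⟨h3.1, h3.2.trans h1⟩

theorem IsWt.lt_of_hsp (h : IsCone R ξ) (hv : IsWt R ξ v) {a : ℝ} {z : K} (hz0 : z ≠ 0)
    (hz : z ∈ Hsp (ξ : K →ₗ[ℂ] K) ⊤ (fun c => c < a)) : v.val z < a := by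
  obtain ⟨b, y, h1, _, h2, h3, h4⟩ := exists_lead hz0 hz
  have h5 := hv.val_of_lead h h2 h3 (hsp_mono le_rfl (fun c hc => hc.2) h4)
  rw [h5.2]
  exact h1

theorem IsWt.nonneg (h : IsCone R ξ) (hv : IsWt R ξ v) {x : K} (hx : x ∈ R) (hx0 : x ≠ 0) :
    0 ≤ v.val x := (hv x hx hx0 0).mpr (h.span x hx)

/-- An eigenvector in the ring of a cone has nonnegative degree. -/
theorem IsCone.eig_nonneg (h : IsCone R ξ) {x : K} (hx : x ∈ R) (hx0 : x ≠ 0) {c : ℝ}
    (hc : ξ x = (c : ℂ) • x) : 0 ≤ c := prop_of_mem_hsp hx0 hc (h.span x hx)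

end Cone

end Pool.Agent.Helper37.SD
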