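import Pool.Agent.Helper37.SD.Vol

/-!
# A derivation of negative degree with a slice
-/

set_option autoImplicit false

namespace Pool.Agent.Helper37.SD

open Module Filter Topology Polynomial

section Lin

variable {V : Type} [AddCommGroup V] [Module ℂ V]

/-- Refinement of a spanning set of eigenvectors. -/
theorem span_refine (A : V →ₗ[ℂ] V) (S : Set V) (hS : ∀ y ∈ S, ∃ c : ℝ, A y = (c : ℂ) • y)
    {P : ℝ → Prop} {x : V} (hx : x ∈ Submodule.span ℂ S) (hP : x ∈ Hsp A ⊤ P) :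
    x ∈ Submodule.span ℂ {y | y ∈ S ∧ ∃ c : ℝ, P c ∧ A y = (c : ℂ) • y} := by
  classical
  have h1 : ∃ f : ℝ →₀ V, IsDec A ⊤ (fun _ => True) f x ∧
      ∀ c : ℝ, f c ∈ Submodule.span ℂ {y | y ∈ S ∧ A y = (c : ℂ) • y} := by
    clear hP
    induction hx using Submodule.span_induction with
    | mem y hy =>
      obtain ⟨c, hc⟩ := hS y hy
      refine ⟨Finsupp.single c y, ?_, fun b => ?_⟩
      · have := isDec_single hc
        exact ⟨this.eig, this.mem, fun _ _ => trivial, this.sum⟩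
      · by_cases hb : c = b
        · subst hb
          rw [Finsupp.single_eq_same]
          exact Submodule.subset_span ⟨hy, hc⟩
        · rw [Finsupp.single_eq_of_ne (Ne.symm hb)]
          exact Submodule.zero_mem _
    | zero => exact ⟨0, ⟨fun b => by simp, fun b => Submodule.mem_top, fun b h => trivial,
        by simp⟩, fun b => Submodule.zero_mem _⟩
    | add x y _ _ hx hy =>
      obtain ⟨f, hf, hf'⟩ := hx
      obtain ⟨g, hg, hg'⟩ := hy
      refine ⟨f + g, ⟨fun b => ?_, fun b => Submodule.mem_top, fun b _ => trivial, ?_⟩,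
        fun b => Submodule.add_mem _ (hf' b) (hg' b)⟩
      · rw [Finsupp.add_apply, map_add, hf.eig, hg.eig, smul_add]
      · rw [Finsupp.sum_add_index' (fun _ => rfl) (fun _ _ _ => rfl), hf.sum, hg.sum]
    | smul z x _ hx =>
      obtain ⟨f, hf, hf'⟩ := hx
      refine ⟨z • f, ⟨fun b => ?_, fun b => Submodule.mem_top, fun b _ => trivial, ?_⟩,
        fun b => Submodule.smul_mem _ z (hf' b)⟩
      · rw [Finsupp.smul_apply, map_smul, hf.eig, smul_comm]
      · rw [Finsupp.sum_smul_index' (fun _ => rfl), ← Finsupp.smul_sum, hf.sum]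
  obtain ⟨f, hf, hf'⟩ := h1
  obtain ⟨g, hg⟩ := exists_dec hP
  have hfg := hf.unique hg
  subst hfg
  rw [← hf.sum]
  refine Submodule.sum_mem _ fun c hc => ?_
  have hPc := hg.prop c (Finsupp.mem_support_iff.mp hc)
  refine Submodule.span_mono ?_ (hf' c)
  rintro y ⟨h1, h2⟩
  exact ⟨h1, c, hPc, h2⟩

theorem eig_unique {A : V →ₗ[ℂ] V} {y : V} {a b : ℝ} (hy : y ≠ 0) (ha : A y = (a : ℂ) • y)
    (hb : A y = (b : ℂ) • y) : a = b := by
  have h1 : ((a : ℂ) - b) • y = 0 := by rw [sub_smul, ← ha, ← hb, sub_self]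
  rcases smul_eq_zero.mp h1 with h2 | h2
  · exact_mod_cast sub_eq_zero.mp h2
  · exact absurd h2 hy

end Lin

variable {K : Type} [Field K] [Algebra ℂ K] {R : Subalgebra ℂ K} {ξ : Derivation ℂ K K}

/-- bihomogeneous elements -/
def Bi (R : Subalgebra ℂ K) (ξ G : Derivation ℂ K K) (P : ℝ → ℕ → Prop) : Set K :=
  {y | y ∈ R ∧ ∃ (c : ℝ) (j : ℕ), P c j ∧ ξ y = (c : ℂ) • y ∧ G y = ((j : ℝ) : ℂ) • y}

section Slice

variable {Y : Derivation ℂ K K} {f : K} {s : ℝ}

theorem slice_G (hf : Y f = 1) : (f • Y) f = f := by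
  rw [Derivation.smul_apply, hf, smul_eq_mul, mul_one]

theorem slice_G_pow (hf : Y f = 1) (N : ℕ) : (f • Y) (f ^ N) = (N : ℂ) • f ^ N := by
  induction N with
  | zero => simp
  | succ N ih =>
    rw [pow_succ, Derivation.leibniz, ih, slice_G hf, smul_eq_mul, smul_eq_mul, mul_smul_comm]
    push_cast
    rw [add_smul, one_smul, mul_comm f (f ^ N), add_comm]

theorem slice_falling (hf : Y f = 1) (N : ℕ) (x : K) :
    (aeval ((f • Y : Derivation ℂ K K) : K →ₗ[ℂ] K)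
      (∏ k ∈ Finset.range N, (X - C (((k : ℝ)) : ℂ)))) x = f ^ N * Y^[N] x := by
  induction N with
  | zero => simp
  | succ N ih =>
    rw [Finset.prod_range_succ, mul_comm, map_mul]
    show (aeval ((f • Y : Derivation ℂ K K) : K →ₗ[ℂ] K) (X - C (((N : ℝ)) : ℂ)))
      ((aeval ((f • Y : Derivation ℂ K K) : K →ₗ[ℂ] K)
        (∏ k ∈ Finset.range N, (X - C (((k : ℝ)) : ℂ)))) x) = _
    rw [ih, map_sub, aeval_X, aeval_C, LinearMap.sub_apply, Module.algebraMap_end_apply]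
    show (f • Y) (f ^ N * Y^[N] x) - _ = _
    rw [Derivation.leibniz, slice_G_pow hf, Function.iterate_succ_apply', smul_eq_mul, smul_eq_mul,
      Derivation.smul_apply, smul_eq_mul, mul_smul_comm, mul_comm (Y^[N] x) (f ^ N)]
    push_cast
    rw [add_sub_cancel_right]
    ring

theorem slice_comm (hY : ⁅ξ, Y⁆ = ((-s : ℝ) : ℂ) • Y) (hfs : ξ f = (s : ℂ) • f) :
    ⁅ξ, f • Y⁆ = 0 := by
  rw [hom_smul hY hfs]
  have e : s + -s = 0 := by ring
  rw [e]
  simp

/-- Decomposition of homogeneous elements into bihomogeneous elements. -/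
theorem rh_le_bi (h : IsCone R ξ) (hYR : Pres R Y) (hs : 0 < s)
    (hY : ⁅ξ, Y⁆ = ((-s : ℝ) : ℂ) • Y) (hfR : f ∈ R) (hfs : ξ f = (s : ℂ) • f) (hf : Y f = 1)
    (P : ℝ → Prop) : RH R ξ P ≤ Submodule.span ℂ (Bi R ξ (f • Y) (fun c _ => P c)) := by
  classical
  refine Submodule.span_le.mpr ?_
  rintro x ⟨hxR, c, hc, hxc⟩
  have hxc : ξ x = (c : ℂ) • x := hxc
  obtain ⟨N, hN⟩ := locNil_of_neg h hYR hs hY x hxR
  have hW : ∀ y ∈ eigR R ξ c, ((f • Y : Derivation ℂ K K) : K →ₗ[ℂ] K) y ∈ eigR R ξ c := by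
    rintro y ⟨hyR, hyc⟩
    refine ⟨?_, ?_⟩
    · show f * Y y ∈ R
      exact R.mul_mem hfR (hYR y hyR)
    · have h1 : ⁅ξ, f • Y⁆ = ((0 : ℝ) : ℂ) • (f • Y) := by
        rw [slice_comm hY hfs]
        simp
      have h2 := hom_apply h1 hyc
      rw [add_zero] at h2
      exact h2
  have h1 := dec_of_aeval ((f • Y : Derivation ℂ K K) : K →ₗ[ℂ] K) (eigR R ξ c) hW
    ((Finset.range N).image fun k : ℕ => (k : ℝ)) x ⟨hxR, hxc⟩ (by
      rw [Finset.prod_image (fun a _ b _ hab => by exact_mod_cast hab), slice_falling hf, hN,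
        mul_zero])
  refine Submodule.span_le.mpr ?_ h1
  rintro y ⟨hy, b, hb, hyb⟩
  obtain ⟨j, _, rfl⟩ := Finset.mem_image.mp hb
  exact Submodule.subset_span ⟨hy.1, c, j, hc, hy.2, hyb⟩

/-- degrees of bihomogeneous elements -/
theorem bi_deg (h : IsCone R ξ) (hYR : Pres R Y) (hY : ⁅ξ, Y⁆ = ((-s : ℝ) : ℂ) • Y)
    (hf : Y f = 1) {y : K} (hyR : y ∈ R) (hy0 : y ≠ 0) {c : ℝ} {j : ℕ} (hc : ξ y = (c : ℂ) • y)
    (hj : (f • Y) y = ((j : ℝ) : ℂ) • y) :
    ∃ z : ℂ, z ≠ 0 ∧ z • y = f ^ j * Y^[j] y ∧ Y^[j] y ≠ 0 ∧ Y (Y^[j] y) = 0 := by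
  have hev : ∀ p : ℂ[X], (aeval ((f • Y : Derivation ℂ K K) : K →ₗ[ℂ] K) p) y =
      (p.eval (((j : ℝ)) : ℂ)) • y := by
    intro p
    induction p using Polynomial.induction_on' with
    | add p q hp hq => rw [map_add, LinearMap.add_apply, hp, hq, eval_add, add_smul]
    | monomial n z =>
      rw [aeval_monomial, eval_monomial]
      show (algebraMap ℂ (Module.End ℂ K) z
        ((((f • Y : Derivation ℂ K K) : K →ₗ[ℂ] K) ^ n) y)) = _
      rw [Module.algebraMap_end_apply, mul_smul]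
      congr 1
      induction n with
      | zero => rw [pow_zero, pow_zero, one_smul]; rfl
      | succ n ihn =>
        rw [pow_succ']
        show (f • Y) ((((f • Y : Derivation ℂ K K) : K →ₗ[ℂ] K) ^ n) y) = _
        rw [ihn, Derivation.map_smul, hj, smul_smul, pow_succ]
  have h1 := hev (∏ k ∈ Finset.range j, (X - C (((k : ℝ)) : ℂ)))
  have h2 := hev (∏ k ∈ Finset.range (j + 1), (X - C (((k : ℝ)) : ℂ)))
  rw [slice_falling hf, eval_prod] at h1 h2
  have hz : (∏ k ∈ Finset.range j, eval (((j : ℝ)) : ℂ) (X - C (((k : ℝ)) : ℂ))) ≠ 0 := by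
    refine Finset.prod_ne_zero_iff.mpr fun k hk => ?_
    rw [eval_sub, eval_X, eval_C, sub_ne_zero]
    intro he
    have h3 : (j : ℝ) = k := by exact_mod_cast he
    have h4 : j = k := by exact_mod_cast h3
    have h5 := Finset.mem_range.mp hk
    omega
  rw [Finset.prod_range_succ] at h2
  have h3 : eval (((j : ℝ)) : ℂ) (X - C (((j : ℝ)) : ℂ)) = 0 := by
    rw [eval_sub, eval_X, eval_C, sub_self]
  rw [h3, mul_zero, zero_smul, Function.iterate_succ_apply'] at h2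
  have hf0 : f ≠ 0 := by
    rintro rfl
    rw [map_zero] at hf
    exact zero_ne_one hf
  have hne : Y^[j] y ≠ 0 := by
    intro h0
    rw [h0, mul_zero] at h1
    exact smul_ne_zero hz hy0 h1.symm
  exact ⟨_, hz, h1.symm, hne, (mul_eq_zero.mp h2).resolve_left (pow_ne_zero _ hf0)⟩

theorem bi_deg_le (h : IsCone R ξ) (hYR : Pres R Y) (hY : ⁅ξ, Y⁆ = ((-s : ℝ) : ℂ) • Y)
    (hf : Y f = 1) {y : K} (hyR : y ∈ R) (hy0 : y ≠ 0) {c : ℝ} {j : ℕ} (hc : ξ y = (c : ℂ) • y)
    (hj : (f • Y) y = ((j : ℝ) : ℂ) • y) : j * s ≤ c := by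
  obtain ⟨_, _, _, h1, _⟩ := bi_deg h hYR hY hf hyR hy0 hc hj
  have h2 := h.eig_nonneg (iter_mem hYR hyR j) h1 (iter_eig hY hc j)
  linarith

/-- the perturbed Reeb field -/
noncomputable def xiE (ξ G : Derivation ℂ K K) (ε : ℝ) : Derivation ℂ K K := ξ + (ε : ℂ) • G

theorem xiE_eig {G : Derivation ℂ K K} {ε : ℝ} {y : K} {c : ℝ} {j : ℕ} (hc : ξ y = (c : ℂ) • y)
    (hj : G y = ((j : ℝ) : ℂ) • y) : xiE ξ G ε y = ((c + ε * j : ℝ) : ℂ) • y := by
  show ξ y + (ε : ℂ) • G y = _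
  rw [hc, hj, smul_smul, ← add_smul]
  congr 1
  push_cast
  ring

theorem rhE_le_bi (h : IsCone R ξ) (hYR : Pres R Y) (hs : 0 < s)
    (hY : ⁅ξ, Y⁆ = ((-s : ℝ) : ℂ) • Y) (hfR : f ∈ R) (hfs : ξ f = (s : ℂ) • f) (hf : Y f = 1)
    {ε : ℝ} {P : ℝ → Prop} {x : K} (hxR : x ∈ R)
    (hx : x ∈ Hsp (xiE ξ (f • Y) ε : K →ₗ[ℂ] K) ⊤ P) :
    x ∈ Submodule.span ℂ (Bi R ξ (f • Y) (fun c j => P (c + ε * j))) := by
  have h1 := rh_le_bi h hYR hs hY hfR hfs hf _ (h.span x hxR)
  have h2 := span_refine (xiE ξ (f • Y) ε : K →ₗ[ℂ] K)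
    (Bi R ξ (f • Y) (fun c _ => 0 ≤ c)) (by
      rintro y ⟨_, c, j, _, hc, hj⟩
      exact ⟨_, xiE_eig hc hj⟩) h1 hx
  refine Submodule.span_le.mpr ?_ h2
  rintro y ⟨⟨hyR, c, j, _, hc, hj⟩, b, hb, hyb⟩
  by_cases hy0 : y = 0
  · rw [hy0]
    exact Submodule.zero_mem _
  · refine Submodule.subset_span ⟨hyR, c, j, ?_, hc, hj⟩
    have := eig_unique (A := (xiE ξ (f • Y) ε : K →ₗ[ℂ] K)) hy0 hyb (xiE_eig hc hj)
    show P (c + ε * j)
    rw [← this]
    exact hb

theorem cone_eps (h : IsCone R ξ) (hYR : Pres R Y) (hs : 0 < s)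
    (hY : ⁅ξ, Y⁆ = ((-s : ℝ) : ℂ) • Y) (hfR : f ∈ R) (hfs : ξ f = (s : ℂ) • f) (hf : Y f = 1)
    {ε : ℝ} (hε : -s < ε) : IsCone R (xiE ξ (f • Y) ε) := by
  have hpos : ∀ (c : ℝ) (j : ℕ), j * s ≤ c → (0 ≤ c + ε * j ∧ (c + ε * j = 0 → c = 0)) := by
    intro c j hcj
    have h1 : (0 : ℝ) ≤ (j : ℝ) * (s + ε) := by
      have : (0 : ℝ) ≤ s + ε := by linarith
      positivity
    refine ⟨by linarith, fun h2 => ?_⟩
    have h3 : (j : ℝ) * (s + ε) = 0 := by linarith
    rcases mul_eq_zero.mp h3 with h4 | h4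
    · rw [h4] at h2
      linarith
    · linarith
  refine ⟨h.frac, h.fg, fun x hx => ?_, fun x hx hx0 => ?_⟩
  · have h1 := rh_le_bi h hYR hs hY hfR hfs hf _ (h.span x hx)
    refine Submodule.span_le.mpr ?_ h1
    rintro y ⟨hyR, c, j, _, hc, hj⟩
    by_cases hy0 : y = 0
    · rw [hy0]
      exact Submodule.zero_mem _
    · exact mem_hsp hyR (hpos c j (bi_deg_le h hYR hY hf hyR hy0 hc hj)).1 (xiE_eig hc hj)
  · have h1 : x ∈ Hsp (xiE ξ (f • Y) ε : K →ₗ[ℂ] K) ⊤ (fun c => c = 0) :=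
      mem_hsp Submodule.mem_top rfl (by
        show xiE ξ (f • Y) ε x = _
        rw [hx0]
        simp)
    have h2 := rhE_le_bi h hYR hs hY hfR hfs hf hx h1
    refine h.const x hx ?_
    have h3 : Submodule.span ℂ (Bi R ξ (f • Y) (fun c j => c + ε * j = 0)) ≤
        LinearMap.ker (ξ : K →ₗ[ℂ] K) := by
      refine Submodule.span_le.mpr ?_
      rintro y ⟨hyR, c, j, hcj, hc, hj⟩
      by_cases hy0 : y = 0
      · rw [hy0]
        exact Submodule.zero_mem _
      · have h4 := (hpos c j (bi_deg_le h hYR hY hf hyR hy0 hc hj)).2 hcj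
        show ξ y = 0
        rw [hc, h4]
        simp
    exact h3 h2

/-- membership in the ideal generated by the slice -/
theorem bi_mem_range (hYR : Pres R Y) {F : R} {y : K} (hyR : y ∈ R) {j : ℕ} (hj0 : j ≠ 0)
    (hj : ((F : K) • Y) y = ((j : ℝ) : ℂ) • y) : (⟨y, hyR⟩ : R) ∈ LinearMap.range (mulR R F) := by
  refine ⟨((((j : ℝ)) : ℂ)⁻¹) • ⟨Y y, hYR y hyR⟩, ?_⟩
  rw [map_smul]
  apply Subtype.ext
  show ((((j : ℝ)) : ℂ)⁻¹) • ((F : K) * Y y) = y
  have h1 : (F : K) * Y y = ((j : ℝ) : ℂ) • y := hj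
  have h2 : (((j : ℝ)) : ℂ) ≠ 0 := by
    exact_mod_cast hj0
  rw [h1, smul_smul, inv_mul_cancel₀ h2, one_smul]

theorem span_lift {S : Set K} {W : Submodule ℂ R}
    (hS : ∀ y ∈ S, ∃ h : y ∈ R, (⟨y, h⟩ : R) ∈ W) {x : K} (hx : x ∈ Submodule.span ℂ S) :
    ∃ h : x ∈ R, (⟨x, h⟩ : R) ∈ W := by
  induction hx using Submodule.span_induction with
  | mem y hy => exact hS y hy
  | zero => exact ⟨R.zero_mem, W.zero_mem⟩
  | add x y _ _ hx hy =>
    obtain ⟨h1, h2⟩ := hx
    obtain ⟨h3, h4⟩ := hy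
    exact ⟨R.add_mem h1 h3, W.add_mem h2 h4⟩
  | smul z x _ hx =>
    obtain ⟨h1, h2⟩ := hx
    exact ⟨R.smul_mem h1 z, W.smul_mem z h2⟩

theorem sup_eps (h : IsCone R ξ) {v : RVal K} (hv : IsWt R ξ v) (hYR : Pres R Y) (hs : 0 < s)
    (hY : ⁅ξ, Y⁆ = ((-s : ℝ) : ℂ) • Y) {F : R} (hfs : ξ (F : K) = (s : ℂ) • (F : K))
    (hf : Y (F : K) = 1) {ε : ℝ} (hε : -s < ε) {u : RVal K}
    (hu : IsWt R (xiE ξ ((F : K) • Y) ε) u) (m : ℝ) :
    idl R v m ⊔ LinearMap.range (mulR R F) = idl R u m ⊔ LinearMap.range (mulR R F) := by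
  have hE := cone_eps h hYR hs hY F.2 hfs hf hε
  refine le_antisymm (sup_le ?_ le_sup_right) (sup_le ?_ le_sup_right)
  · intro x hx
    by_cases hx0 : (x : K) = 0
    · have : x = 0 := Subtype.ext hx0
      rw [this]
      exact Submodule.zero_mem _
    · have h1 := (hv x x.2 hx0 m).mp (Or.resolve_left hx hx0)
      have h2 := rh_le_bi h hYR hs hY F.2 hfs hf _ h1
      obtain ⟨_, h3⟩ := span_lift (W := idl R u m ⊔ LinearMap.range (mulR R F)) (by
        rintro y ⟨hyR, c, j, hcm, hc, hj⟩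
        refine ⟨hyR, ?_⟩
        by_cases hj0 : j = 0
        · refine Submodule.mem_sup_left ?_
          show u.Ge m y
          by_cases hy0 : y = 0
          · exact Or.inl hy0
          · refine Or.inr ?_
            rw [hu.val_eig hE hy0 (xiE_eig hc hj), hj0]
            simpa using hcm
        · exact Submodule.mem_sup_right (bi_mem_range hYR hyR hj0 hj)) h2
      exact h3
  · intro x hx
    by_cases hx0 : (x : K) = 0
    · have : x = 0 := Subtype.ext hx0
      rw [this]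
      exact Submodule.zero_mem _
    · have h1 := (hu x x.2 hx0 m).mp (Or.resolve_left hx hx0)
      have h2 := rhE_le_bi h hYR hs hY F.2 hfs hf x.2 (rh_le_top h1)
      obtain ⟨_, h3⟩ := span_lift (W := idl R v m ⊔ LinearMap.range (mulR R F)) (by
        rintro y ⟨hyR, c, j, hcm, hc, hj⟩
        refine ⟨hyR, ?_⟩
        by_cases hj0 : j = 0
        · refine Submodule.mem_sup_left ?_
          show v.Ge m y
          by_cases hy0 : y = 0
          · exact Or.inl hy0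
          · refine Or.inr ?_
            rw [hv.val_eig h hy0 hc]
            rw [hj0] at hcm
            simpa using hcm
        · exact Submodule.mem_sup_right (bi_mem_range hYR hyR hj0 hj)) h2
      exact h3

theorem centred_eps (h : IsCone R ξ) {v : RVal K} (hv : IsWt R ξ v) (hYR : Pres R Y) (hs : 0 < s)
    (hY : ⁅ξ, Y⁆ = ((-s : ℝ) : ℂ) • Y) (hfR : f ∈ R) (hfs : ξ f = (s : ℂ) • f) (hf : Y f = 1)
    {ε : ℝ} (hε : -s < ε) {u : RVal K} (hu : IsWt R (xiE ξ (f • Y) ε) u) : Centred R v u := by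
  have hE := cone_eps h hYR hs hY hfR hfs hf hε
  intro x hx hx0 hvx
  have h1 := (hv x hx hx0 _).mp le_rfl
  have h2 := rh_le_bi h hYR hs hY hfR hfs hf _ h1
  have h3 : x ∈ Hsp (xiE ξ (f • Y) ε : K →ₗ[ℂ] K) ⊤ (fun c => 0 < c) := by
    refine Submodule.span_le.mpr ?_ h2
    rintro y ⟨hyR, c, j, hcm, hc, hj⟩
    by_cases hy0 : y = 0
    · rw [hy0]
      exact Submodule.zero_mem _
    · refine mem_hsp Submodule.mem_top ?_ (xiE_eig hc hj)
      have h4 := bi_deg_le h hYR hY hf hyR hy0 hc hj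
      rcases Nat.eq_zero_or_pos j with h5 | h5
      · rw [h5]
        simp only [Nat.cast_zero, mul_zero, add_zero]
        linarith
      · have h6 : (0 : ℝ) < (j : ℝ) * (s + ε) := by
          have h7 : (0 : ℝ) < j := by exact_mod_cast h5
          have h8 : (0 : ℝ) < s + ε := by linarith
          positivity
        linarith
  exact (hu.gt_of_hsp hE h3).resolve_left hx0

/-- there is a nonconstant bihomogeneous element killed by `Y` -/
theorem exists_ker (h : IsCone R ξ) (hYR : Pres R Y) (hs : 0 < s)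
    (hY : ⁅ξ, Y⁆ = ((-s : ℝ) : ℂ) • Y) (hfR : f ∈ R) (hfs : ξ f = (s : ℂ) • f) (hf : Y f = 1)
    {n : ℕ} (hfin : Module.Finite K (Derivation ℂ K K))
    (hd : finrank K (Derivation ℂ K K) = 2 * n) :
    ∃ r ∈ R, r ≠ 0 ∧ Y r = 0 ∧ ∃ c : ℝ, 0 < c ∧ ξ r = (c : ℂ) • r := by
  by_contra hcon
  push Not at hcon
  -- every element killed by `Y`, homogeneous, is constant
  have hconst : ∀ r ∈ R, Y r = 0 → ∀ c : ℝ, ξ r = (c : ℂ) • r → ∃ z : ℂ, r = algebraMap ℂ K z := by
    intro r hr hYr c hc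
    by_cases hr0 : r = 0
    · exact ⟨0, by rw [hr0, map_zero]⟩
    · rcases lt_or_eq_of_le (h.eig_nonneg hr hr0 hc) with h1 | h1
      · exact absurd hc (hcon r hr hr0 hYr c h1)
      · refine h.const r hr ?_
        rw [hc, ← h1]
        simp
  have hinj : ∀ E : Derivation ℂ K K, E f = 0 → E = 0 := by
    intro E hE
    refine der_eq_zero h.frac fun x hx => ?_
    have h1 := rh_le_bi h hYR hs hY hfR hfs hf _ (h.span x hx)
    have h2 : Submodule.span ℂ (Bi R ξ (f • Y) (fun c _ => 0 ≤ c)) ≤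
        LinearMap.ker (E : K →ₗ[ℂ] K) := by
      refine Submodule.span_le.mpr ?_
      rintro y ⟨hyR, c, j, _, hc, hj⟩
      by_cases hy0 : y = 0
      · rw [hy0]
        exact Submodule.zero_mem _
      · obtain ⟨z, hz, h3, _, h5⟩ := bi_deg h hYR hY hf hyR hy0 hc hj
        obtain ⟨z', hz'⟩ := hconst _ (iter_mem hYR hyR j) h5 _ (iter_eig hY hc j)
        show E y = 0
        have h6 : z • E y = 0 := by
          rw [← Derivation.map_smul, h3, Derivation.leibniz, Derivation.leibniz_pow, hE, hz',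
            Derivation.map_algebraMap]
          simp
        exact (smul_eq_zero.mp h6).resolve_left hz
    exact h2 h1
  have h1 : finrank K (Derivation ℂ K K) ≤ finrank K K := by
    refine LinearMap.finrank_le_finrank_of_injective (f := (evd f : Derivation ℂ K K →ₗ[K] K)) ?_
    rw [injective_iff_map_eq_zero]
    intro E hE
    exact hinj E hE
  rw [Module.finrank_self, hd] at h1
  have h2 : finrank K (Derivation ℂ K K) = 0 := by omega
  have h3 : Subsingleton (Derivation ℂ K K) := Module.finrank_zero_iff.mp h2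
  have h4 : Y = 0 := Subsingleton.elim _ _
  rw [h4] at hf
  exact zero_ne_one hf

/-- frame of bihomogeneous elements -/
theorem exists_bi_frame (h : IsCone R ξ) (hYR : Pres R Y) (hs : 0 < s)
    (hY : ⁅ξ, Y⁆ = ((-s : ℝ) : ℂ) • Y) (hfR : f ∈ R) (hfs : ξ f = (s : ℂ) • f) (hf : Y f = 1)
    {d : ℕ} (hfin : Module.Finite K (Derivation ℂ K K))
    (hd : finrank K (Derivation ℂ K K) = d) :
    ∃ (D : Fin d → Derivation ℂ K K) (g : Fin d → K), IsFrame D g ∧ (∀ i, ⁅ξ, D i⁆ = 0) ∧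
      (∀ i, ⁅f • Y, D i⁆ = 0) := by
  obtain ⟨D, g, h1, h2⟩ := exists_frame hd hfin
    {x | x ≠ 0 ∧ x ∈ Bi R ξ (f • Y) (fun c _ => 0 ≤ c)} (fun x hx => hx.1) (by
      intro D hD
      refine der_eq_zero h.frac fun x hx => ?_
      have h1 : Submodule.span ℂ (Bi R ξ (f • Y) (fun c _ => 0 ≤ c)) ≤
          LinearMap.ker (D : K →ₗ[ℂ] K) := by
        refine Submodule.span_le.mpr ?_
        intro y hy
        by_cases hy0 : y = 0
        · rw [hy0]
          exact Submodule.zero_mem _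
        · exact hD y ⟨hy0, hy⟩
      exact h1 (rh_le_bi h hYR hs hY hfR hfs hf _ (h.span x hx)))
  have h3 : ∀ i, ∃ (c : ℝ) (j : ℕ), ξ (g i) = (c : ℂ) • g i ∧
      (f • Y) (g i) = ((j : ℝ) : ℂ) • g i := by
    intro i
    obtain ⟨_, _, c, j, _, hc, hj⟩ := h1 i
    exact ⟨c, j, hc, hj⟩
  choose c j hc hj using h3
  exact ⟨D, g, h2, fun i => h2.comm (c := fun i => ((c i : ℝ) : ℂ)) hc i,
    fun i => h2.comm (c := fun i => (((j i : ℝ) : ℝ) : ℂ)) hj i⟩

/-- The degree of a derivation of negative degree with a slice. -/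
theorem slice_deg (h : IsCone R ξ) {v : RVal K} (hv : IsWt R ξ v) {n : ℕ}
    (hfin : Module.Finite K (Derivation ℂ K K)) (hd : finrank K (Derivation ℂ K K) = 2 * n)
    {η : Form K} (hη : IsNondeg R η) {ℓ : ℝ} (hℓ : HomForm ξ ℓ η) {a V : ℝ}
    (hmin : UniqueMin n R η v a V) (hYR : Pres R Y) (hs : 0 < s)
    (hY : ⁅ξ, Y⁆ = ((-s : ℝ) : ℂ) • Y) (hfR : f ∈ R) (hfs : ξ f = (s : ℂ) • f) (hf : Y f = 1) :
    ℓ = 2 * s := by
  obtain ⟨ha, hV, hm⟩ := hmin
  have ha' : a = n * ℓ := ha.unique (logDisc_wt h hv hfin hd hη.alt hη.inj hℓ)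
  have hapos : 0 < a := (hm v a V (fun x _ _ hx => hx) ha hV).1
  have hf0 : f ≠ 0 := by
    rintro rfl
    rw [map_zero] at hf
    exact zero_ne_one hf
  obtain ⟨D, g, hD, hDξ, hDG⟩ := exists_bi_frame h hYR hs hY hfR hfs hf hfin hd
  have hdet := gram_det_ne_zero hD hη.alt hη.inj
  have hdetξ := eig_det ℓ fun i j => homForm_eig hℓ (hDξ i) (hDξ j)
  have hdetG := slice_det h hfin hη hℓ hYR hs hY hf hD hDξ hDG
  have key : ∀ ε : ℝ, ε ≠ 0 → -s < ε →
      0 < a + ε ∧ a ^ (2 * n) * V < (a + ε) ^ (2 * n) * (V * s / (s + ε)) := by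
    intro ε hε0 hε
    have hE := cone_eps h hYR hs hY hfR hfs hf hε
    obtain ⟨u, hu⟩ := hE.exists_wt
    have hDE : ∀ i, ⁅xiE ξ (f • Y) ε, D i⁆ = 0 := by
      intro i
      have : xiE ξ (f • Y) ε = ξ + (ε : ℂ) • (f • Y) := rfl
      rw [this, add_lie, hDξ i, smul_lie, hDG i, smul_zero, add_zero]
    have h1 := hasLogDisc_of_frame hD (fun i => hu.logDer_of_comm hE (hDE i)) hdet
    have h2 : u.val (gram η D).det = 2 * (a + ε) := by
      refine hu.val_eig hE hdet ?_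
      show ξ (gram η D).det + (ε : ℂ) • (f • Y) (gram η D).det = _
      have h3 : ξ (gram η D).det = (((2 * n : ℕ) * ℓ : ℝ) : ℂ) • (gram η D).det := hdetξ
      rw [h3, hdetG, ha', Algebra.smul_def, Algebra.smul_def, Algebra.smul_def]
      push_cast
      simp only [map_mul, map_add, map_natCast, map_ofNat]
      ring
    rw [h2] at h1
    have e : 2 * (a + ε) / 2 = a + ε := by ring
    rw [e] at h1
    have hfv : v.val f = s := hv.val_eig h hf0 hfs
    have hfu : u.val f = s + ε := by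
      refine hu.val_eig hE hf0 ?_
      show ξ f + (ε : ℂ) • (f • Y) f = _
      rw [hfs, slice_G hf, ← add_smul]
      push_cast
      rfl
    have h3 := vol_slice (v := v) (u := u) (f := (⟨f, hfR⟩ : R)) hf0 (hv.finite_quot h)
      (hu.finite_quot hE) (fun x hx => hv.nonneg h x.2 hx) (fun x hx => hu.nonneg hE x.2 hx)
      (by show 0 < v.val f; rw [hfv]; exact hs) (by show 0 < u.val f; rw [hfu]; linarith)
      (sup_eps h hv hYR hs hY (F := (⟨f, hfR⟩ : R)) hfs hf hε hu) hV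
    have h4 : HasVol n R u (V * s / (s + ε)) := by
      have h5 : HasVol n R u (V * v.val f / u.val f) := h3
      rwa [hfv, hfu] at h5
    obtain ⟨h5, h6⟩ := hm u _ _ (centred_eps h hv hYR hs hY hfR hfs hf hε hu) h1 h4
    refine ⟨h5, h6 ?_⟩
    rintro ⟨κ, hκ⟩
    obtain ⟨r, hrR, hr0, hYr, c, hc, hrc⟩ := exists_ker h hYR hs hY hfR hfs hf hfin hd
    have h7 := hκ r hr0
    have h8 := hκ f hf0
    rw [hfv, hfu] at h8
    have h9 : u.val r = c := by
      refine hu.val_eig hE hr0 ?_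
      show ξ r + (ε : ℂ) • (f * Y r) = _
      rw [hYr, mul_zero, smul_zero, add_zero, hrc]
    rw [h9, hv.val_eig h hr0 hrc] at h7
    have h10 : κ = 1 := by
      have : (κ - 1) * c = 0 := by linarith
      rcases mul_eq_zero.mp this with h11 | h11
      · linarith
      · exact absurd h11 hc.ne'
    rw [h10] at h8
    exact hε0 (by linarith)
  have hV0 : 0 ≤ V := ge_of_tendsto' hV fun m => by positivity
  have hVpos : 0 < V := by
    rcases lt_or_eq_of_le hV0 with h1 | h1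
    · exact h1
    · exfalso
      have h2 := (key (s / 2) (by positivity) (by linarith)).2
      rw [← h1] at h2
      simp at h2
  -- local minimum
  let ψ : ℝ → ℝ := fun ε => (a + ε) ^ (2 * n) * s - a ^ (2 * n) * (s + ε)
  have hψ0 : ψ 0 = 0 := by
    show (a + 0) ^ (2 * n) * s - a ^ (2 * n) * (s + 0) = 0
    rw [add_zero, add_zero, sub_self]
  have hmin : IsLocalMin ψ 0 := by
    have h1 : ∀ᶠ ε : ℝ in 𝓝 0, -s < ε := lt_mem_nhds (by linarith)
    filter_upwards [h1] with ε hε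
    rw [hψ0]
    by_cases h0 : ε = 0
    · rw [h0, hψ0]
    · have h2 := (key ε h0 hε).2
      have h3 : 0 < s + ε := by linarith
      have h4 : (a + ε) ^ (2 * n) * (V * s / (s + ε)) = V * ((a + ε) ^ (2 * n) * s) / (s + ε) := by
        ring
      rw [h4, lt_div_iff₀ h3] at h2
      have h5 : 0 < V * ψ ε := by
        have : V * ψ ε = V * ((a + ε) ^ (2 * n) * s) - a ^ (2 * n) * V * (s + ε) := by
          show V * ((a + ε) ^ (2 * n) * s - a ^ (2 * n) * (s + ε)) = _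
          ring
        rw [this]
        linarith
      exact ((mul_pos_iff_of_pos_left hVpos).mp h5).le
  have hder : HasDerivAt ψ (((2 * n : ℕ) : ℝ) * (a + 0) ^ (2 * n - 1) * 1 * s -
      a ^ (2 * n) * 1) 0 := by
    refine HasDerivAt.sub ?_ ?_
    · exact (((hasDerivAt_id (0 : ℝ)).const_add a).pow (2 * n)).mul_const s
    · exact ((hasDerivAt_id (0 : ℝ)).const_add s).const_mul _
  have h1 := hmin.hasDerivAt_eq_zero hder
  rw [add_zero, mul_one, mul_one] at h1
  have hn : n ≠ 0 := by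
    rintro rfl
    rw [ha'] at hapos
    simp at hapos
  have h2 : a ^ (2 * n) = a ^ (2 * n - 1) * a := by
    rw [← pow_succ]
    congr 1
    omega
  rw [h2] at h1
  have h3 : a ^ (2 * n - 1) * (((2 * n : ℕ) : ℝ) * s - a) = 0 := by linarith
  have h4 := (mul_eq_zero.mp h3).resolve_left (pow_ne_zero _ hapos.ne')
  rw [ha'] at h4
  push_cast at h4
  have hn' : (n : ℝ) ≠ 0 := by exact_mod_cast hn
  have h5 : (n : ℝ) * (2 * s - ℓ) = 0 := by linarith
  have h6 := (mul_eq_zero.mp h5).resolve_left hn'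
  linarith

end Slice

end Pool.Agent.Helper37.SD
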