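import Pool.Agent.Helper37.SD.Jac

/-!
# Colengths and a slice
-/

set_option autoImplicit false

namespace Pool.Agent.Helper37.SD

open Module Filter Topology MeasureTheory intervalIntegral

/-! ## Analysis -/

section Analysis

variable {N N' : ℝ → ℝ} {h : ℝ}

theorem mono_of_rec (hh : 0 < h) (hmono : Monotone N') (hneg : ∀ m ≤ 0, N m = 0)
    (hneg' : ∀ m ≤ 0, N' m = 0) (hrec : ∀ m, N m = N (m - h) + N' m) :
    ∀ m, 0 ≤ h * N m - ∫ t in (0 : ℝ)..m, N' t ∧
      h * N m - (∫ t in (0 : ℝ)..m, N' t) ≤ h * N' m := by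
  have hint : ∀ a b : ℝ, IntervalIntegrable N' volume a b := fun a b =>
    hmono.intervalIntegrable
  have key : ∀ (j : ℕ) (m : ℝ), m ≤ j * h → 0 ≤ h * N m - ∫ t in (0 : ℝ)..m, N' t ∧
      h * N m - (∫ t in (0 : ℝ)..m, N' t) ≤ h * N' m := by
    intro j
    induction j with
    | zero =>
      intro m hm
      have hm : m ≤ 0 := by simpa using hm
      have h1 : ∫ t in (0 : ℝ)..m, N' t = 0 := by
        rw [intervalIntegral.integral_symm, neg_eq_zero]
        have h2 : ∫ t in m..(0 : ℝ), N' t = ∫ t in m..(0 : ℝ), (0 : ℝ) := by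
          refine intervalIntegral.integral_congr fun t ht => ?_
          rw [Set.uIcc_of_le hm] at ht
          exact hneg' t ht.2
        rw [h2, intervalIntegral.integral_zero]
      rw [h1, hneg m hm, hneg' m hm]
      constructor <;> simp
    | succ j ih =>
      intro m hm
      have h1 := ih (m - h) (by push_cast at hm; linarith)
      have h2 : (∫ t in (0 : ℝ)..m, N' t) = (∫ t in (0 : ℝ)..(m - h), N' t) +
          ∫ t in (m - h)..m, N' t :=
        (intervalIntegral.integral_add_adjacent_intervals (hint _ _) (hint _ _)).symm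
      have hle : m - h ≤ m := by linarith
      have h3 : (∫ t in (m - h)..m, N' t) ≤ h * N' m := by
        have h4 : (∫ t in (m - h)..m, N' t) ≤ ∫ t in (m - h)..m, N' m :=
          intervalIntegral.integral_mono_on hle (hint _ _) _root_.intervalIntegrable_const
            fun t ht => hmono ht.2
        rw [intervalIntegral.integral_const, smul_eq_mul] at h4
        have e : m - (m - h) = h := by ring
        rwa [e] at h4
      have h5 : h * N' (m - h) ≤ ∫ t in (m - h)..m, N' t := by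
        have h4 : (∫ t in (m - h)..m, N' (m - h)) ≤ ∫ t in (m - h)..m, N' t :=
          intervalIntegral.integral_mono_on hle _root_.intervalIntegrable_const (hint _ _)
            fun t ht => hmono ht.1
        rw [intervalIntegral.integral_const, smul_eq_mul] at h4
        have e : m - (m - h) = h := by ring
        rwa [e] at h4
      rw [hrec m, h2]
      constructor
      · linarith [h1.1]
      · linarith [h1.2]
  intro m
  obtain ⟨j, hj⟩ := exists_nat_gt (m / h)
  rw [div_lt_iff₀ hh] at hj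
  exact key j m hj.le

/-- comparison of the growth of two functions with the same differences -/
theorem growth_compare {N₁ N₂ N' : ℝ → ℝ} {h₁ h₂ : ℝ} (hh₁ : 0 < h₁) (hh₂ : 0 < h₂)
    (hmono : Monotone N') (hmono₁ : Monotone N₁)
    (hneg₁ : ∀ m ≤ 0, N₁ m = 0) (hneg₂ : ∀ m ≤ 0, N₂ m = 0)
    (hneg' : ∀ m ≤ 0, N' m = 0) (hrec₁ : ∀ m, N₁ m = N₁ (m - h₁) + N' m)
    (hrec₂ : ∀ m, N₂ m = N₂ (m - h₂) + N' m) (d : ℕ) {V : ℝ}
    (hV : Tendsto (fun m : ℕ => N₁ m / (m : ℝ) ^ d) atTop (𝓝 V)) :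
    Tendsto (fun m : ℕ => N₂ m / (m : ℝ) ^ d) atTop (𝓝 (V * h₁ / h₂)) := by
  obtain ⟨p, hp⟩ := exists_nat_gt h₁
  have hN'0 : ∀ m, 0 ≤ N' m := by
    intro m
    have h1 := hneg' (min m 0) (min_le_right _ _)
    rw [← h1]
    exact hmono (min_le_left _ _)
  -- `N' m / m ^ d → 0`
  have hshift : Tendsto (fun m : ℕ => N₁ ((m : ℝ) - p) / (m : ℝ) ^ d) atTop (𝓝 V) := by
    rw [← tendsto_add_atTop_iff_nat p]
    have h1 : Tendsto (fun m : ℕ => (N₁ m / (m : ℝ) ^ d) *
        ((m : ℝ) / ((m : ℝ) + p)) ^ d) atTop (𝓝 (V * 1 ^ d)) := by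
      refine hV.mul (Tendsto.pow ?_ d)
      have h2 : Tendsto (fun m : ℕ => 1 - (p : ℝ) / ((m : ℝ) + p)) atTop (𝓝 (1 - 0)) := by
        refine tendsto_const_nhds.sub (Tendsto.div_atTop tendsto_const_nhds ?_)
        exact tendsto_atTop_add_const_right _ _ tendsto_natCast_atTop_atTop
      rw [sub_zero] at h2
      refine h2.congr' ?_
      filter_upwards [eventually_gt_atTop 0] with m hm
      have : (0 : ℝ) < m := by exact_mod_cast hm
      have h3 : (m : ℝ) + p ≠ 0 := by positivity
      field_simp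
      ring
    rw [one_pow, mul_one] at h1
    refine h1.congr' ?_
    filter_upwards [eventually_gt_atTop 0] with m hm
    have hm' : (0 : ℝ) < m := by exact_mod_cast hm
    have e : ((m + p : ℕ) : ℝ) - p = m := by push_cast; ring
    have e2 : ((m + p : ℕ) : ℝ) = m + p := by push_cast; ring
    rw [e, e2, div_pow]
    have h3 : ((m : ℝ) + p) ^ d ≠ 0 := by positivity
    have h4 : (m : ℝ) ^ d ≠ 0 := by positivity
    field_simp
  have hN' : Tendsto (fun m : ℕ => N' m / (m : ℝ) ^ d) atTop (𝓝 0) := by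
    have h1 := hV.sub hshift
    rw [sub_self] at h1
    refine squeeze_zero (fun m => ?_) (fun m => ?_) h1
    · exact div_nonneg (hN'0 _) (by positivity)
    · rw [← sub_div]
      refine div_le_div_of_nonneg_right ?_ (by positivity)
      have h2 := hrec₁ m
      have h3 : N₁ ((m : ℝ) - p) ≤ N₁ (m - h₁) := hmono₁ (by linarith)
      linarith
  have hdiff : Tendsto (fun m : ℕ => (h₂ * N₂ m - h₁ * N₁ m) / (m : ℝ) ^ d) atTop (𝓝 0) := by
    have h1 : Tendsto (fun m : ℕ => (h₁ + h₂) * (N' m / (m : ℝ) ^ d)) atTop (𝓝 0) := by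
      have := hN'.const_mul (h₁ + h₂)
      rwa [mul_zero] at this
    refine squeeze_zero_norm (fun m => ?_) h1
    have a := mono_of_rec hh₁ hmono hneg₁ hneg' hrec₁ m
    have b := mono_of_rec hh₂ hmono hneg₂ hneg' hrec₂ m
    rw [Real.norm_eq_abs, abs_div, abs_of_nonneg (by positivity : (0 : ℝ) ≤ (m : ℝ) ^ d),
      ← mul_div_assoc]
    refine div_le_div_of_nonneg_right ?_ (by positivity)
    have c1 := mul_nonneg hh₁.le (hN'0 m)
    have c2 := mul_nonneg hh₂.le (hN'0 m)
    rw [abs_le]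
    constructor <;> linarith [a.1, a.2, b.1, b.2]
  have h5 : Tendsto (fun m : ℕ => ((h₂ * N₂ m - h₁ * N₁ m) / (m : ℝ) ^ d +
      h₁ * (N₁ m / (m : ℝ) ^ d)) / h₂) atTop (𝓝 ((0 + h₁ * V) / h₂)) :=
    (hdiff.add (hV.const_mul h₁)).div_const h₂
  have e : (0 + h₁ * V) / h₂ = V * h₁ / h₂ := by ring
  rw [e] at h5
  refine h5.congr fun m => ?_
  have h6 : h₂ ≠ 0 := hh₂.ne'
  rw [sub_div, mul_div_assoc, mul_div_assoc, sub_add_cancel, mul_div_cancel_left₀ _ h6]

end Analysis

/-! ## Colengths -/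

variable {K : Type} [Field K] [Algebra ℂ K] {R : Subalgebra ℂ K} {ξ : Derivation ℂ K K}

/-- multiplication by `f` -/
noncomputable def mulR (R : Subalgebra ℂ K) (f : R) : R →ₗ[ℂ] R where
  toFun x := f * x
  map_add' x y := mul_add f x y
  map_smul' z x := mul_smul_comm z f x

theorem colen_rec {u : RVal K} {f : R} (hf0 : (f : K) ≠ 0) (m : ℝ)
    (hfin : Module.Finite ℂ (R ⧸ idl R u m)) :
    finrank ℂ (R ⧸ idl R u m) = finrank ℂ (R ⧸ idl R u (m - u.val (f : K))) +
      finrank ℂ (R ⧸ idl R u m ⊔ LinearMap.range (mulR R f)) := by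
  let φ : R →ₗ[ℂ] (R ⧸ idl R u m) := (idl R u m).mkQ.comp (mulR R f)
  have h1 : LinearMap.ker φ = idl R u (m - u.val (f : K)) := by
    ext x
    have h2 : x ∈ LinearMap.ker φ ↔ u.Ge m ((f : K) * (x : K)) := by
      rw [LinearMap.mem_ker]
      show (idl R u m).mkQ (mulR R f x) = 0 ↔ _
      rw [Submodule.mkQ_apply, Submodule.Quotient.mk_eq_zero]
      rfl
    rw [h2]
    show _ ↔ u.Ge (m - u.val (f : K)) (x : K)
    by_cases hx : (x : K) = 0
    · rw [hx, mul_zero]
      exact ⟨fun _ => Or.inl rfl, fun _ => Or.inl rfl⟩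
    · have h3 := u.map_mul (f : K) (x : K) hf0 hx
      constructor
      · rintro (h | h)
        · exact absurd h (mul_ne_zero hf0 hx)
        · exact Or.inr (by rw [h3] at h; linarith)
      · rintro (h | h)
        · exact absurd h hx
        · exact Or.inr (by rw [h3]; linarith)
  have h2 : LinearMap.range φ = (LinearMap.range (mulR R f)).map (idl R u m).mkQ :=
    LinearMap.range_comp _ _
  have h3 := (LinearMap.range φ).finrank_quotient_add_finrank
  have h4 : finrank ℂ (LinearMap.range φ) = finrank ℂ (R ⧸ idl R u (m - u.val (f : K))) := by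
    rw [← h1]
    exact (LinearMap.quotKerEquivRange φ).finrank_eq.symm
  have h5 : finrank ℂ ((R ⧸ idl R u m) ⧸ LinearMap.range φ) =
      finrank ℂ (R ⧸ idl R u m ⊔ LinearMap.range (mulR R f)) := by
    rw [h2]
    exact (Submodule.quotientQuotientEquivQuotientSup (idl R u m)
      (LinearMap.range (mulR R f))).finrank_eq
  rw [← h3, h4, h5, add_comm]

theorem finrank_anti {S T : Submodule ℂ R} (h : S ≤ T) (hfin : Module.Finite ℂ (R ⧸ S)) :
    finrank ℂ (R ⧸ T) ≤ finrank ℂ (R ⧸ S) :=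
  LinearMap.finrank_le_finrank_of_surjective (f := Submodule.factor h)
    (Submodule.factor_surjective h)

/-- comparison of volumes along a slice -/
theorem vol_slice {v u : RVal K} {f : R} (hf0 : (f : K) ≠ 0)
    (hfv : ∀ c, Module.Finite ℂ (R ⧸ idl R v c)) (hfu : ∀ c, Module.Finite ℂ (R ⧸ idl R u c))
    (hv0 : ∀ x : R, (x : K) ≠ 0 → 0 ≤ v.val (x : K))
    (hu0 : ∀ x : R, (x : K) ≠ 0 → 0 ≤ u.val (x : K))
    (hv : 0 < v.val (f : K)) (hu : 0 < u.val (f : K))
    (heq : ∀ m, idl R v m ⊔ LinearMap.range (mulR R f) = idl R u m ⊔ LinearMap.range (mulR R f))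
    {n : ℕ} {V : ℝ} (hV : HasVol n R v V) :
    HasVol n R u (V * v.val (f : K) / u.val (f : K)) := by
  have hmono : ∀ (w : RVal K), ∀ {a b : ℝ}, a ≤ b → idl R w b ≤ idl R w a := by
    intro w a b hab x hx
    rcases hx with hx | hx
    · exact Or.inl hx
    · exact Or.inr (hab.trans hx)
  have htop : ∀ (w : RVal K), (∀ x : R, (x : K) ≠ 0 → 0 ≤ w.val (x : K)) → ∀ m ≤ (0 : ℝ),
      idl R w m = ⊤ := by
    intro w hw m hm
    rw [eq_top_iff]
    intro x _
    by_cases hx : (x : K) = 0
    · exact Or.inl hx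
    · exact Or.inr (hm.trans (hw x hx))
  have hzero : ∀ S : Submodule ℂ R, S = ⊤ → finrank ℂ (R ⧸ S) = 0 := by
    intro S hS
    subst hS
    have : Subsingleton (R ⧸ (⊤ : Submodule ℂ R)) := Submodule.Quotient.subsingleton_iff.mpr rfl
    exact Module.finrank_zero_of_subsingleton
  set F : ℝ := ((2 * n).factorial : ℝ) with hF
  have hF0 : 0 < F := by
    rw [hF]
    exact_mod_cast Nat.factorial_pos _
  have hfJ : ∀ m, Module.Finite ℂ (R ⧸ idl R v m ⊔ LinearMap.range (mulR R f)) := by
    intro m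
    have := hfv m
    exact Module.Finite.of_surjective (Submodule.factor (le_sup_left (a := idl R v m)
      (b := LinearMap.range (mulR R f)))) (Submodule.factor_surjective _)
  have key := growth_compare (N₁ := fun m => F * (finrank ℂ (R ⧸ idl R v m) : ℝ))
    (N₂ := fun m => F * (finrank ℂ (R ⧸ idl R u m) : ℝ))
    (N' := fun m => F * (finrank ℂ (R ⧸ idl R v m ⊔ LinearMap.range (mulR R f)) : ℝ))
    hv hu ?_ ?_ ?_ ?_ ?_ ?_ ?_ (2 * n) hV
  · exact key
  · intro a b hab
    refine mul_le_mul_of_nonneg_left ?_ hF0.le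
    exact_mod_cast finrank_anti (sup_le_sup_right (hmono v hab) _) (hfJ b)
  · intro a b hab
    refine mul_le_mul_of_nonneg_left ?_ hF0.le
    exact_mod_cast finrank_anti (hmono v hab) (hfv b)
  · intro m hm
    show F * _ = 0
    rw [hzero _ (htop v hv0 m hm)]
    simp
  · intro m hm
    show F * _ = 0
    rw [hzero _ (htop u hu0 m hm)]
    simp
  · intro m hm
    show F * _ = 0
    rw [hzero _ (by rw [htop v hv0 m hm, top_sup_eq])]
    simp
  · intro m
    show F * _ = F * _ + F * _
    rw [colen_rec hf0 m (hfv m)]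
    push_cast
    ring
  · intro m
    show F * _ = F * _ + F * _
    rw [heq m, colen_rec hf0 m (hfu m)]
    push_cast
    ring

end Pool.Agent.Helper37.SD
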