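import Pool.Agent.Helper37.SD.Der

/-!
# Conjugation with unipotent automorphisms and the log discrepancy
-/

set_option autoImplicit false

namespace Pool.Agent.Helper37.SD

open Module

variable {K : Type} [Field K] [Algebra ℂ K] {R : Subalgebra ℂ K} {ξ : Derivation ℂ K K}

/-- the valuation `v ∘ φ` -/
def RVal.comap (v : RVal K) (φ : K ≃ₐ[ℂ] K) : RVal K where
  val x := v.val (φ x)
  map_mul x y hx hy := by
    rw [_root_.map_mul]
    exact v.map_mul _ _ ((map_ne_zero φ).mpr hx) ((map_ne_zero φ).mpr hy)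
  map_add x y hx hy hxy := by
    rw [_root_.map_add]
    refine v.map_add _ _ ((map_ne_zero φ).mpr hx) ((map_ne_zero φ).mpr hy) ?_
    rw [← _root_.map_add]
    exact (map_ne_zero φ).mpr hxy
  map_const z hz := by
    rw [AlgEquiv.commutes]
    exact v.map_const z hz

theorem RVal.comap_ge (v : RVal K) (φ : K ≃ₐ[ℂ] K) (c : ℝ) (x : K) :
    (v.comap φ).Ge c x ↔ v.Ge c (φ x) := by
  unfold RVal.Ge
  rw [map_eq_zero_iff φ φ.injective]
  rfl

/-- `φ⁻¹ E φ` -/
noncomputable def cj (φ : K ≃ₐ[ℂ] K) (E : Derivation ℂ K K) : Derivation ℂ K K :=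
  Derivation.mk' ((φ.symm.toLinearMap.comp (E : K →ₗ[ℂ] K)).comp φ.toLinearMap) (by
    intro a b
    show φ.symm (E (φ (a * b))) = a • φ.symm (E (φ b)) + b • φ.symm (E (φ a))
    rw [map_mul, Derivation.leibniz, map_add, smul_eq_mul, smul_eq_mul, map_mul, map_mul,
      AlgEquiv.symm_apply_apply, AlgEquiv.symm_apply_apply]
    rfl)

theorem cj_apply (φ : K ≃ₐ[ℂ] K) (E : Derivation ℂ K K) (x : K) :
    cj φ E x = φ.symm (E (φ x)) := rfl

theorem cj_smul (φ : K ≃ₐ[ℂ] K) (E : Derivation ℂ K K) (h : K) :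
    cj φ (h • E) = φ.symm h • cj φ E := by
  ext x
  show φ.symm (h * E (φ x)) = φ.symm h * φ.symm (E (φ x))
  rw [map_mul]

theorem cj_frame {d : ℕ} {D : Fin d → Derivation ℂ K K} {g : Fin d → K} (h : IsFrame D g)
    (φ : K ≃ₐ[ℂ] K) : IsFrame (fun i => cj φ (D i)) (fun i => φ.symm (g i)) where
  ne i := (map_ne_zero φ.symm).mpr (h.ne i)
  apply i j := by
    rw [cj_apply, AlgEquiv.apply_symm_apply, h.apply]
    by_cases hij : i = j
    · rw [if_pos hij, if_pos hij]
    · rw [if_neg hij, if_neg hij, map_zero]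
  complete E := by
    have h1 := h.complete (cj φ.symm E)
    ext x
    have h2 : (cj φ.symm E) (φ x) = (∑ i, ((cj φ.symm E) (g i) / g i) • D i) (φ x) := by
      rw [← h1]
    rw [der_sum_apply] at h2 ⊢
    have h3 : (cj φ.symm E) (φ x) = φ (E x) := by
      rw [cj_apply]
      show φ.symm.symm (E (φ.symm (φ x))) = φ (E x)
      rw [AlgEquiv.symm_apply_apply]
      rfl
    rw [h3] at h2
    have h4 := congrArg φ.symm h2
    rw [AlgEquiv.symm_apply_apply, map_sum] at h4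
    rw [h4]
    refine Finset.sum_congr rfl fun i _ => ?_
    show φ.symm (((cj φ.symm E) (g i) / g i) * D i (φ x)) =
      (E (φ.symm (g i)) / φ.symm (g i)) * cj φ (D i) x
    rw [map_mul, map_div₀, cj_apply, cj_apply]
    have h5 : φ.symm (φ.symm.symm (E (φ.symm (g i)))) = E (φ.symm (g i)) :=
      AlgEquiv.apply_symm_apply φ.symm _
    rw [h5]

theorem cj_logDer {v : RVal K} {D : Derivation ℂ K K} (h : LogDer v D) (φ : K ≃ₐ[ℂ] K) :
    LogDer (v.comap φ) (cj φ D) := by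
  intro x hx
  rw [RVal.comap_ge, cj_apply, AlgEquiv.apply_symm_apply]
  exact h (φ x) ((map_ne_zero φ).mpr hx)

/-- `ψ` is the identity modulo lower degree. -/
def Low (R : Subalgebra ℂ K) (ξ : Derivation ℂ K K) (ψ : K ≃ₐ[ℂ] K) : Prop :=
  ∀ x ∈ R, ∀ a : ℝ, ξ x = (a : ℂ) • x → ψ x - x ∈ RH R ξ (fun b => b < a)

theorem Low.map {ψ : K ≃ₐ[ℂ] K} (h : Low R ξ ψ) {a : ℝ} {x : K}
    (hx : x ∈ RH R ξ (fun b => b < a)) : ψ x ∈ RH R ξ (fun b => b < a) := by
  have h1 : RH R ξ (fun b => b < a) ≤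
      (RH R ξ (fun b => b < a)).comap (ψ.toLinearMap : K →ₗ[ℂ] K) := by
    refine Submodule.span_le.mpr ?_
    rintro y ⟨hyR, c, hc, hy⟩
    have hy : ξ y = (c : ℂ) • y := hy
    show ψ y ∈ RH R ξ (fun b => b < a)
    have e : ψ y = y + (ψ y - y) := by ring
    rw [e]
    exact Submodule.add_mem _ (mem_hsp hyR hc hy)
      (hsp_mono le_rfl (fun b hb => hb.trans hc) (h y hyR c hy))
  exact h1 hx

theorem Low.mem (hc : IsCone R ξ) {ψ : K ≃ₐ[ℂ] K} (h : Low R ξ ψ) {x : K}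
    (hx : x ∈ R) : ψ x ∈ R := by
  have h1 : RH R ξ (fun c => 0 ≤ c) ≤ (RS R).comap (ψ.toLinearMap : K →ₗ[ℂ] K) := by
    refine Submodule.span_le.mpr ?_
    rintro y ⟨hyR, c, _, hy⟩
    have hy : ξ y = (c : ℂ) • y := hy
    show ψ y ∈ R
    have e : ψ y = y + (ψ y - y) := by ring
    rw [e]
    exact R.add_mem hyR (rh_subset (h y hyR c hy))
  exact h1 (hc.span x hx)

/-- a homogeneous derivation shifts degrees -/
theorem hom_map_lt {E : Derivation ℂ K K} (hE : Pres R E) {e : ℝ} (hEe : ⁅ξ, E⁆ = (e : ℂ) • E)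
    {a : ℝ} {x : K} (hx : x ∈ RH R ξ (fun b => b < a)) :
    E x ∈ RH R ξ (fun b => b < a + e) := by
  have h1 : RH R ξ (fun b => b < a) ≤
      (RH R ξ (fun b => b < a + e)).comap (E : K →ₗ[ℂ] K) := by
    refine Submodule.span_le.mpr ?_
    rintro y ⟨hyR, c, hc, hy⟩
    exact mem_hsp (hE y hyR) (show c + e < a + e by linarith) (hom_apply hEe hy)
  exact h1 hx

theorem cj_sub_mem (h : IsCone R ξ) {φ : K ≃ₐ[ℂ] K} (h1 : Low R ξ φ) (h2 : Low R ξ φ.symm)
    {E : Derivation ℂ K K} (hE : Pres R E) {e : ℝ} (hEe : ⁅ξ, E⁆ = (e : ℂ) • E) :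
    cj φ E - E ∈ Hsp (adx ξ) (presSub R) (fun b => b < e) := by
  refine der_dec h h.pres _ ?_ ?_
  · intro x hx
    exact R.sub_mem (h2.mem h (hE _ (h1.mem h hx))) (hE x hx)
  · intro x hx a hxa
    show φ.symm (E (φ x)) - E x ∈ RH R ξ (fun b => b - a < e)
    have e0 : φ x = x + (φ x - x) := by ring
    have h3 : φ.symm (E (φ x)) - E x =
        (φ.symm (E x) - E x) + φ.symm (E (φ x - x)) := by
      conv_lhs => rw [e0]
      rw [map_add, map_add]
      ring
    rw [h3]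
    have hEx : ξ (E x) = ((a + e : ℝ) : ℂ) • E x := hom_apply hEe hxa
    refine Submodule.add_mem _ ?_ ?_
    · exact hsp_mono le_rfl (fun b hb => by linarith) (h2 (E x) (hE x hx) _ hEx)
    · exact hsp_mono le_rfl (fun b hb => by linarith) (h2.map (hom_map_lt hE hEe (h1 x hx a hxa)))

theorem form_smul_left (η : Form K) (z : ℂ) (D E : Derivation ℂ K K) :
    η (z • D) E = z • η D E := by
  rw [← algebraMap_smul K z D, map_smul, LinearMap.smul_apply, algebraMap_smul]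

theorem form_smul_right (η : Form K) (z : ℂ) (D E : Derivation ℂ K K) :
    η D (z • E) = z • η D E := by
  rw [← algebraMap_smul K z E, map_smul, algebraMap_smul]

/-- Values of a homogeneous regular form at homogeneous derivations. -/
theorem form_eig {η : Form K} {ℓ : ℝ} (hℓ : HomForm ξ ℓ η) {D E : Derivation ℂ K K} {b c : ℝ}
    (hD : ⁅ξ, D⁆ = (b : ℂ) • D) (hE : ⁅ξ, E⁆ = (c : ℂ) • E) :
    ξ (η D E) = ((b + c + ℓ : ℝ) : ℂ) • η D E := by
  have h1 := hℓ D E
  rw [hD, hE, form_smul_left, form_smul_right] at h1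
  have h2 : ξ (η D E) = (ℓ : ℂ) • η D E + (c : ℂ) • η D E + (b : ℂ) • η D E := by
    rw [← h1]
    ring
  rw [h2]
  push_cast
  rw [add_smul, add_smul]
  ring

theorem form_hsp {η : Form K} (hη : IsReg R η) {ℓ : ℝ} (hℓ : HomForm ξ ℓ η) {P Q S : ℝ → Prop}
    (hS : ∀ b c, P b → Q c → S (b + c + ℓ)) {D E : Derivation ℂ K K}
    (hD : D ∈ Hsp (adx ξ) (presSub R) P) (hE : E ∈ Hsp (adx ξ) (presSub R) Q) :
    η D E ∈ RH R ξ S := by
  induction hD using Submodule.span_induction with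
  | mem D hD =>
    obtain ⟨hDR, b, hb, hDb⟩ := hD
    induction hE using Submodule.span_induction with
    | mem E hE =>
      obtain ⟨hER, c, hc, hEc⟩ := hE
      exact mem_hsp (hη.reg D E hDR hER) (hS b c hb hc) (form_eig hℓ hDb hEc)
    | zero => rw [map_zero]; exact Submodule.zero_mem _
    | add E F _ _ hE hF => rw [map_add]; exact Submodule.add_mem _ hE hF
    | smul z E _ hE => rw [form_smul_right]; exact Submodule.smul_mem _ z hE
  | zero => rw [map_zero, LinearMap.zero_apply]; exact Submodule.zero_mem _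
  | add D F _ _ hD hF => rw [map_add, LinearMap.add_apply]; exact Submodule.add_mem _ hD hF
  | smul z D _ hD => rw [form_smul_left]; exact Submodule.smul_mem _ z hD

theorem low_prod {ι : Type} (s : Finset ι) (x y : ι → K) (m : ι → ℝ)
    (hy : ∀ i ∈ s, ξ (y i) = ((m i : ℝ) : ℂ) • y i)
    (hx : ∀ i ∈ s, x i - y i ∈ Hsp (ξ : K →ₗ[ℂ] K) ⊤ (fun c => c < m i)) :
    ∏ i ∈ s, x i - ∏ i ∈ s, y i ∈ Hsp (ξ : K →ₗ[ℂ] K) ⊤ (fun c => c < ∑ i ∈ s, m i) := by
  classical
  induction s using Finset.induction_on with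
  | empty => simp
  | insert a s ha ih =>
    have ih' := ih (fun i hi => hy i (Finset.mem_insert_of_mem hi))
      (fun i hi => hx i (Finset.mem_insert_of_mem hi))
    have hya := hy a (Finset.mem_insert_self a s)
    have hxa := hx a (Finset.mem_insert_self a s)
    have hY := eig_prod (ξ := ξ) s m y (fun i hi => hy i (Finset.mem_insert_of_mem hi))
    rw [Finset.prod_insert ha, Finset.prod_insert ha, Finset.sum_insert ha]
    have e : x a * ∏ i ∈ s, x i - y a * ∏ i ∈ s, y i =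
        (x a - y a) * (∏ i ∈ s, y i + (∏ i ∈ s, x i - ∏ i ∈ s, y i)) +
          y a * (∏ i ∈ s, x i - ∏ i ∈ s, y i) := by ring
    rw [e]
    refine Submodule.add_mem _ ?_ ?_
    · refine hsp_mul_top (P := fun c => c < m a) (Q := fun c => c ≤ ∑ i ∈ s, m i)
        (fun b c hb hc => by linarith) hxa ?_
      exact Submodule.add_mem _ (mem_hsp Submodule.mem_top le_rfl hY)
        (hsp_mono le_rfl (fun c hc => hc.le) ih')
    · exact hsp_mul_top (P := fun c => c = m a) (Q := fun c => c < ∑ i ∈ s, m i)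
        (fun b c hb hc => by rw [hb]; linarith) (mem_hsp Submodule.mem_top rfl hya) ih'

theorem low_det {m : ℕ} (b : Fin m → ℝ) (ℓ : ℝ) {M M' : Matrix (Fin m) (Fin m) K}
    (hM : ∀ i j, ξ (M i j) = ((b i + b j + ℓ : ℝ) : ℂ) • M i j)
    (hM' : ∀ i j, M' i j - M i j ∈ Hsp (ξ : K →ₗ[ℂ] K) ⊤ (fun c => c < b i + b j + ℓ)) :
    ξ M.det = ((2 * ∑ i, b i + m * ℓ : ℝ) : ℂ) • M.det ∧
      M'.det - M.det ∈ Hsp (ξ : K →ₗ[ℂ] K) ⊤ (fun c => c < 2 * ∑ i, b i + m * ℓ) := by
  have hN : ∀ σ : Equiv.Perm (Fin m), ∑ i, (b (σ i) + b i + ℓ) = 2 * ∑ i, b i + m * ℓ := by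
    intro σ
    rw [Finset.sum_add_distrib, Finset.sum_add_distrib, Equiv.sum_comp σ b, Finset.sum_const,
      Finset.card_univ, Fintype.card_fin, nsmul_eq_mul]
    ring
  have hs : ∀ (σ : Equiv.Perm (Fin m)) (y : K), (Equiv.Perm.sign σ • y = y) ∨
      (Equiv.Perm.sign σ • y = -y) := by
    intro σ y
    rcases Int.units_eq_one_or (Equiv.Perm.sign σ) with hs | hs
    · left; rw [hs, one_smul]
    · right
      rw [hs, Units.smul_def]
      simp
  constructor
  · rw [Matrix.det_apply, map_sum, Finset.smul_sum]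
    refine Finset.sum_congr rfl fun σ _ => ?_
    have h1 := eig_prod (ξ := ξ) Finset.univ (fun i => b (σ i) + b i + ℓ)
      (fun i => M (σ i) i) (fun i _ => hM _ _)
    rw [hN σ] at h1
    rcases hs σ (∏ i, M (σ i) i) with h2 | h2
    · rw [h2, h1]
    · rw [h2, map_neg, h1, smul_neg]
  · rw [Matrix.det_apply, Matrix.det_apply, ← Finset.sum_sub_distrib]
    refine Submodule.sum_mem _ fun σ _ => ?_
    have h1 := low_prod (ξ := ξ) Finset.univ (fun i => M' (σ i) i) (fun i => M (σ i) i)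
      (fun i => b (σ i) + b i + ℓ) (fun i _ => hM _ _) (fun i _ => hM' _ _)
    rw [hN σ] at h1
    rw [← smul_sub]
    rcases hs σ (∏ i, M' (σ i) i - ∏ i, M (σ i) i) with h2 | h2
    · rw [h2]; exact h1
    · rw [h2]; exact Submodule.neg_mem _ h1

theorem IsWt.val_le (h : IsCone R ξ) {v : RVal K} (hv : IsWt R ξ v) {x y : K} {N : ℝ}
    (hy : y ≠ 0) (hyN : ξ y = (N : ℂ) • y)
    (hx : x - y ∈ Hsp (ξ : K →ₗ[ℂ] K) ⊤ (fun c => c < N)) : x ≠ 0 ∧ v.val x ≤ N := by
  have e : x = y + (x - y) := by ring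
  by_cases hz : x - y = 0
  · rw [sub_eq_zero.mp hz]
    exact ⟨hy, (hv.val_eig h hy hyN).le⟩
  · have h1 := hv.lt_of_hsp h hz hx
    have h2 := v.val_add_eq (x := x - y) (y := y) hz (Or.inr (by rw [hv.val_eig h hy hyN]; exact h1))
    rw [sub_add_cancel] at h2
    exact ⟨h2.1, by rw [h2.2]; exact h1.le⟩

omit [Algebra ℂ K] in
theorem det_scale {m : ℕ} (a : Fin m → K) (M : Matrix (Fin m) (Fin m) K) :
    (Matrix.of fun i j => a i * a j * M i j).det = (∏ i, a i) ^ 2 * M.det := by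
  have h1 : (Matrix.of fun i j => a i * a j * M i j) =
      Matrix.diagonal a * M * Matrix.diagonal a := by
    ext i j
    rw [Matrix.mul_diagonal, Matrix.diagonal_mul, Matrix.of_apply]
    ring
  rw [h1, Matrix.det_mul, Matrix.det_mul, Matrix.det_diagonal]
  ring

/-- The log discrepancy does not grow under a unipotent automorphism. -/
theorem conj_det_le (h : IsCone R ξ) {v : RVal K} (hv : IsWt R ξ v) {n : ℕ} {η : Form K}
    (hη : IsNondeg R η) {ℓ : ℝ} (hℓ : HomForm ξ ℓ η) {φ : K ≃ₐ[ℂ] K} (h1 : Low R ξ φ)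
    (h2 : Low R ξ φ.symm) {D : Fin (2 * n) → Derivation ℂ K K} {g : Fin (2 * n) → K}
    (hD : IsFrame D g) (hDξ : ∀ i, ⁅ξ, D i⁆ = 0) :
    (v.comap φ).val (gram η (fun i => cj φ (D i))).det ≤ 2 * n * ℓ := by
  have hden : ∀ i, ∃ (q : K) (b : ℝ), q ∈ R ∧ q ≠ 0 ∧ ξ q = (b : ℂ) • q ∧
      Pres R (q • D i) := by
    intro i
    refine h.der_den (c := 0) ?_
    rw [hDξ i]
    simp
  choose q b hq1 hq2 hq3 hq4 using hden
  set E : Fin (2 * n) → Derivation ℂ K K := fun i => q i • D i with hE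
  have hEb : ∀ i, ⁅ξ, E i⁆ = ((b i : ℝ) : ℂ) • E i := by
    intro i
    have h3 := hom_smul (D := D i) (c := 0) (ξ := ξ) (by rw [hDξ i]; simp) (hq3 i)
    rw [add_zero] at h3
    exact h3
  have hZ : ∀ i, cj φ (E i) - E i ∈ Hsp (adx ξ) (presSub R) (fun c => c < b i) :=
    fun i => cj_sub_mem h h1 h2 (hq4 i) (hEb i)
  have hEmem : ∀ i, E i ∈ Hsp (adx ξ) (presSub R) (fun c => c = b i) :=
    fun i => mem_hsp (hq4 i) rfl (hEb i)
  set M : Matrix (Fin (2 * n)) (Fin (2 * n)) K := gram η E with hM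
  set M' : Matrix (Fin (2 * n)) (Fin (2 * n)) K :=
    fun i j => φ (η (cj φ (E i)) (cj φ (E j))) with hM'
  have hMb : ∀ i j, ξ (M i j) = ((b i + b j + ℓ : ℝ) : ℂ) • M i j :=
    fun i j => form_eig hℓ (hEb i) (hEb j)
  have hdiff : ∀ i j, η (cj φ (E i)) (cj φ (E j)) - η (E i) (E j) ∈
      RH R ξ (fun c => c < b i + b j + ℓ) := by
    intro i j
    have e : η (cj φ (E i)) (cj φ (E j)) - η (E i) (E j) =
        η (E i) (cj φ (E j) - E j) + η (cj φ (E i) - E i) (E j) +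
          η (cj φ (E i) - E i) (cj φ (E j) - E j) := by
      rw [map_sub, map_sub, map_sub, LinearMap.sub_apply, LinearMap.sub_apply]
      ring
    rw [e]
    refine Submodule.add_mem _ (Submodule.add_mem _ ?_ ?_) ?_
    · exact form_hsp hη.toIsReg hℓ (fun x y hx hy => by rw [hx]; linarith) (hEmem i) (hZ j)
    · exact form_hsp hη.toIsReg hℓ (fun x y hx hy => by rw [hy]; linarith) (hZ i) (hEmem j)
    · exact form_hsp hη.toIsReg hℓ (fun x y hx hy => by linarith) (hZ i) (hZ j)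
  have hMM' : ∀ i j, M' i j - M i j ∈ Hsp (ξ : K →ₗ[ℂ] K) ⊤ (fun c => c < b i + b j + ℓ) := by
    intro i j
    refine rh_le_top (R := R) ?_
    have e0 : η (cj φ (E i)) (cj φ (E j)) =
        η (E i) (E j) + (η (cj φ (E i)) (cj φ (E j)) - η (E i) (E j)) := by ring
    have e : M' i j - M i j = (φ (η (E i) (E j)) - η (E i) (E j)) +
        φ (η (cj φ (E i)) (cj φ (E j)) - η (E i) (E j)) := by
      show φ (η (cj φ (E i)) (cj φ (E j))) - η (E i) (E j) = _
      conv_lhs => rw [e0]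
      rw [map_add]
      ring
    rw [e]
    exact Submodule.add_mem _ (h1 _ (hη.reg _ _ (hq4 i) (hq4 j)) _ (hMb i j)) (h1.map (hdiff i j))
  obtain ⟨hdet1, hdet2⟩ := low_det b ℓ hMb hMM'
  -- the matrices with the factors `q`
  have hq0 : (∏ i, q i) ≠ 0 := Finset.prod_ne_zero_iff.mpr fun i _ => hq2 i
  have hMdet : M.det = (∏ i, q i) ^ 2 * (gram η D).det := by
    rw [← det_scale q (gram η D)]
    congr 1
    ext i j
    show η (q i • D i) (q j • D j) = q i * q j * η (D i) (D j)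
    rw [map_smul, map_smul, LinearMap.smul_apply, smul_eq_mul, smul_eq_mul]
    ring
  have hMdet0 : M.det ≠ 0 := by
    rw [hMdet]
    exact mul_ne_zero (pow_ne_zero 2 hq0) (gram_det_ne_zero hD hη.alt hη.inj)
  have hM'det : M'.det = (∏ i, q i) ^ 2 * φ (gram η (fun i => cj φ (D i))).det := by
    have e1 : M' = φ.toRingEquiv.toRingHom.mapMatrix (gram η (fun i => cj φ (E i))) := by
      ext i j
      rfl
    have e2 : gram η (fun i => cj φ (E i)) =
        Matrix.of fun i j => φ.symm (q i) * φ.symm (q j) * gram η (fun i => cj φ (D i)) i j := by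
      ext i j
      show η (cj φ (q i • D i)) (cj φ (q j • D j)) =
        φ.symm (q i) * φ.symm (q j) * η (cj φ (D i)) (cj φ (D j))
      rw [cj_smul, cj_smul, map_smul, map_smul, LinearMap.smul_apply, smul_eq_mul, smul_eq_mul]
      ring
    rw [e1, ← RingHom.map_det, e2, det_scale]
    show φ ((∏ i, φ.symm (q i)) ^ 2 * (gram η (fun i => cj φ (D i))).det) = _
    rw [map_mul, map_pow, map_prod]
    simp only [AlgEquiv.apply_symm_apply]
  obtain ⟨h3, h4⟩ := hv.val_le h hMdet0 hdet1 hdet2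
  have h5 : φ (gram η (fun i => cj φ (D i))).det ≠ 0 := by
    intro h0
    rw [hM'det, h0, mul_zero] at h3
    exact h3 rfl
  have h6 : v.val (∏ i, q i) = ∑ i, b i := by
    have := hv.val_eig h hq0 (eig_prod Finset.univ b q fun i _ => hq3 i)
    exact this
  rw [hM'det, v.map_mul _ _ (pow_ne_zero 2 hq0) h5, v.val_pow hq0, h6] at h4
  show v.val (φ (gram η (fun i => cj φ (D i))).det) ≤ 2 * n * ℓ
  push_cast at h4
  linarith

end Pool.Agent.Helper37.SD
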