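import Pool.Agent.Helper37.SD.Hom

/-!
# Degenerations of symplectic forms (MP_e1889a_ag): definitions

Varieties are given by subalgebras `R` of their function field `K`.
-/

set_option autoImplicit false

namespace Pool.Agent.Helper37.SD

open Module Filter Topology

/-- A real valuation of `K`, trivial on `ℂ` (the value at `0` plays no role). -/
structure RVal (K : Type) [Field K] [Algebra ℂ K] where
  val : K → ℝ
  map_mul : ∀ x y, x ≠ 0 → y ≠ 0 → val (x * y) = val x + val y
  map_add : ∀ x y, x ≠ 0 → y ≠ 0 → x + y ≠ 0 → min (val x) (val y) ≤ val (x + y)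
  map_const : ∀ z : ℂ, z ≠ 0 → val (algebraMap ℂ K z) = 0

variable {K : Type} [Field K] [Algebra ℂ K]

/-- `x` has value at least `c` (or is zero). -/
def RVal.Ge (v : RVal K) (c : ℝ) (x : K) : Prop := x = 0 ∨ c ≤ v.val x

theorem RVal.ge_add (v : RVal K) {c : ℝ} {x y : K} (hx : v.Ge c x) (hy : v.Ge c y) :
    v.Ge c (x + y) := by
  by_cases h : x + y = 0
  · exact Or.inl h
  · rcases hx with hx | hx
    · subst hx
      rwa [zero_add]
    · rcases hy with hy | hy
      · subst hy
        rw [add_zero]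
        exact Or.inr hx
      · by_cases hx0 : x = 0
        · subst hx0
          rw [zero_add]
          exact Or.inr hy
        · by_cases hy0 : y = 0
          · subst hy0
            rw [add_zero]
            exact Or.inr hx
          · exact Or.inr ((le_min hx hy).trans (v.map_add x y hx0 hy0 h))

theorem RVal.ge_smul (v : RVal K) {c : ℝ} {x : K} (z : ℂ) (hx : v.Ge c x) : v.Ge c (z • x) := by
  by_cases hz : z = 0
  · subst hz
    rw [zero_smul]
    exact Or.inl rfl
  · rcases hx with hx | hx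
    · subst hx
      rw [smul_zero]
      exact Or.inl rfl
    · by_cases hx0 : x = 0
      · subst hx0
        rw [smul_zero]
        exact Or.inl rfl
      · refine Or.inr ?_
        rw [Algebra.smul_def, v.map_mul _ _ ((map_ne_zero _).mpr hz) hx0, v.map_const z hz,
          zero_add]
        exact hx

/-- The elements of `R` of value at least `c`. -/
def idl (R : Subalgebra ℂ K) (v : RVal K) (c : ℝ) : Submodule ℂ R where
  carrier := {x | v.Ge c (x : K)}
  add_mem' := fun {x y} hx hy => v.ge_add hx hy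
  zero_mem' := Or.inl rfl
  smul_mem' := fun z _ hx => v.ge_smul z hx

/-- `V` is the volume of `v` on `Spec R` of dimension `2 n`: the limit of
`(2 n)! dim (R / {v ≥ m}) / m ^ (2 n)`. -/
def HasVol (n : ℕ) (R : Subalgebra ℂ K) (v : RVal K) (V : ℝ) : Prop :=
  Tendsto (fun m : ℕ => ((2 * n).factorial : ℝ) * (finrank ℂ (R ⧸ idl R v m) : ℝ) /
    (m : ℝ) ^ (2 * n)) atTop (𝓝 V)

/-- Rational 2-forms: bilinear forms on the derivations of `K`. -/
abbrev Form (K : Type) [Field K] [Algebra ℂ K] : Type :=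
  Derivation ℂ K K →ₗ[K] Derivation ℂ K K →ₗ[K] K

/-- The matrix of the values of a 2-form at `D 0, …, D (2 n - 1)`. -/
def gram {n : ℕ} (ω : Form K) (D : Fin (2 * n) → Derivation ℂ K K) :
    Matrix (Fin (2 * n)) (Fin (2 * n)) K := fun i j => ω (D i) (D j)

/-- `D` does not lower the valuation: `v (D x) ≥ v x`. -/
def LogDer (v : RVal K) (D : Derivation ℂ K K) : Prop := ∀ x, x ≠ 0 → v.Ge (v.val x) (D x)

/-- `a` is the log discrepancy of `v` with respect to the volume form `ωⁿ`: the infimum of the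
values `v (ωⁿ (D 0, …, D (2 n - 1)) / n!)`, where `v (D i x) ≥ v x` for all `x`; here
`(ωⁿ (D 0, …, D (2 n - 1)) / n!) ^ 2` is the determinant of the matrix `ω (D i) (D j)`. -/
def HasLogDisc (n : ℕ) (ω : Form K) (v : RVal K) (a : ℝ) : Prop :=
  IsGLB {r : ℝ | ∃ D : Fin (2 * n) → Derivation ℂ K K, (∀ i, LogDer v (D i)) ∧
    (gram ω D).det ≠ 0 ∧ 2 * r = v.val (gram ω D).det} a

/-- `K` is the fraction field of `R`. -/
def IsFrac (R : Subalgebra ℂ K) : Prop := ∀ x : K, ∃ a ∈ R, ∃ b ∈ R, b ≠ 0 ∧ x = a / b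

/-- `D` maps `R` to `R`. -/
def Pres (R : Subalgebra ℂ K) (D : Derivation ℂ K K) : Prop := ∀ x ∈ R, D x ∈ R

/-- `ω` is an alternating 2-form which is regular (its values at derivations of `R` lie in `R`). -/
structure IsReg (R : Subalgebra ℂ K) (ω : Form K) : Prop where
  alt : ∀ D, ω D D = 0
  reg : ∀ D E, Pres R D → Pres R E → ω D E ∈ R

/-- `ω` is moreover nowhere degenerate: `D ↦ ω D` maps `Der R` onto its dual. -/
structure IsNondeg (R : Subalgebra ℂ K) (ω : Form K) : Prop extends IsReg R ω where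
  inj : ∀ D, (∀ E, ω D E = 0) → D = 0
  perfect : ∀ D, (∀ E, Pres R E → ω D E ∈ R) → Pres R D

/-- `d ω = 0` -/
def Closed (ω : Form K) : Prop := ∀ A B C : Derivation ℂ K K,
  A (ω B C) - B (ω A C) + C (ω A B) - ω ⁅A, B⁆ C + ω ⁅A, C⁆ B - ω ⁅B, C⁆ A = 0

/-- `ω` is homogeneous of weight `ℓ`: the Lie derivative along `ξ` is `ℓ ω`. -/
def HomForm (ξ : Derivation ℂ K K) (ℓ : ℝ) (ω : Form K) : Prop := ∀ D E : Derivation ℂ K K,
  ξ (ω D E) - ω ⁅ξ, D⁆ E - ω D ⁅ξ, E⁆ = (ℓ : ℂ) • ω D E

/-- `R` as a submodule. -/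
abbrev RS (R : Subalgebra ℂ K) : Submodule ℂ K := Subalgebra.toSubmodule R

/-- The span of the homogeneous elements of `R` whose degree satisfies `P`. -/
abbrev RH (R : Subalgebra ℂ K) (ξ : Derivation ℂ K K) (P : ℝ → Prop) : Submodule ℂ K :=
  Hsp (ξ : K →ₗ[ℂ] K) (RS R) P

/-- `Spec R` with the Reeb vector field `ξ` is a cone: `R` is finitely generated with fraction
field `K`, `ξ` is diagonalisable on `R` with nonnegative real eigenvalues, and only the constants
have eigenvalue `0`. -/
structure IsCone (R : Subalgebra ℂ K) (ξ : Derivation ℂ K K) : Prop where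
  frac : IsFrac R
  fg : R.FG
  span : ∀ x ∈ R, x ∈ RH R ξ (fun c => 0 ≤ c)
  const : ∀ x ∈ R, ξ x = 0 → ∃ z : ℂ, x = algebraMap ℂ K z

/-- `v` is the valuation `wt ξ` of a cone: `v x ≥ c` if and only if all homogeneous components of
`x` in `R` have degree at least `c`. -/
def IsWt (R : Subalgebra ℂ K) (ξ : Derivation ℂ K K) (v : RVal K) : Prop :=
  ∀ x ∈ R, x ≠ 0 → ∀ c : ℝ, (c ≤ v.val x ↔ x ∈ RH R ξ (fun b => c ≤ b))

/-- `w` is centred at the vertex of the cone with valuation `v = wt ξ`. -/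
def Centred (R : Subalgebra ℂ K) (v w : RVal K) : Prop :=
  ∀ x ∈ R, x ≠ 0 → 0 < v.val x → 0 < w.val x

/-- `w = c v` -/
def Prop' (v w : RVal K) : Prop := ∃ c : ℝ, ∀ x, x ≠ 0 → w.val x = c * v.val x

/-- The valuation `v = wt ξ` is up to scaling the only minimiser of the normalised volume at the
vertex of the cone, which is klt: all log discrepancies are positive.  Log discrepancies are
computed with the volume form `ηⁿ`. -/
def UniqueMin (n : ℕ) (R : Subalgebra ℂ K) (η : Form K) (v : RVal K) (a V : ℝ) : Prop :=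
  HasLogDisc n η v a ∧ HasVol n R v V ∧ ∀ (w : RVal K) (a' V' : ℝ), Centred R v w →
    HasLogDisc n η w a' → HasVol n R w V' →
      0 < a' ∧ (¬ Prop' v w → a ^ (2 * n) * V < a' ^ (2 * n) * V')

end Pool.Agent.Helper37.SD
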