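import Pool.Agent.Helper37.SD.Exp

/-!
# Homogeneous derivations of a cone
-/

set_option autoImplicit false

namespace Pool.Agent.Helper37.SD

open Module Polynomial

variable {K : Type} [Field K] [Algebra ℂ K] {R : Subalgebra ℂ K} {ξ : Derivation ℂ K K}

/-- bracket with `ξ` -/
noncomputable def adx (ξ : Derivation ℂ K K) :
    Derivation ℂ K K →ₗ[ℂ] Derivation ℂ K K where
  toFun D := ⁅ξ, D⁆
  map_add' D E := lie_add ξ D E
  map_smul' z D := lie_smul z ξ D

theorem adx_apply (D : Derivation ℂ K K) : adx ξ D = ⁅ξ, D⁆ := rfl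

/-- The derivations of `R`. -/
def presSub (R : Subalgebra ℂ K) : Submodule ℂ (Derivation ℂ K K) where
  carrier := {D | Pres R D}
  add_mem' := fun hD hE x hx => R.add_mem (hD x hx) (hE x hx)
  zero_mem' := fun _ _ => R.zero_mem
  smul_mem' := fun z _ hD x hx => R.smul_mem (hD x hx) z

theorem hom_apply {D : Derivation ℂ K K} {c a : ℝ} (hD : ⁅ξ, D⁆ = (c : ℂ) • D) {x : K}
    (hx : ξ x = (a : ℂ) • x) : ξ (D x) = ((a + c : ℝ) : ℂ) • D x := by
  have h1 : ⁅ξ, D⁆ x = (c : ℂ) • D x := by rw [hD]; rfl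
  rw [Derivation.commutator_apply, hx, Derivation.map_smul, sub_eq_iff_eq_add] at h1
  rw [h1]
  push_cast
  rw [add_smul, add_comm]

theorem hom_smul {D : Derivation ℂ K K} {c a : ℝ} (hD : ⁅ξ, D⁆ = (c : ℂ) • D) {x : K}
    (hx : ξ x = (a : ℂ) • x) : ⁅ξ, x • D⁆ = ((a + c : ℝ) : ℂ) • (x • D) := by
  ext y
  have h1 : ⁅ξ, D⁆ y = (c : ℂ) • D y := by rw [hD]; rfl
  rw [Derivation.commutator_apply, sub_eq_iff_eq_add] at h1
  rw [Derivation.commutator_apply]
  show ξ (x * D y) - x * D (ξ y) = ((a + c : ℝ) : ℂ) • (x * D y)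
  rw [Derivation.leibniz, hx, h1, smul_eq_mul, smul_eq_mul, mul_add, mul_smul_comm, mul_smul_comm,
    mul_comm (D y) x]
  push_cast
  rw [add_smul]
  ring

/-- A derivation of `K` maps `R` to `R` if it maps generators to `R`. -/
theorem pres_of_gens {T : Finset K} (hR : Algebra.adjoin ℂ (T : Set K) = R)
    {D : Derivation ℂ K K} (h : ∀ t ∈ T, D t ∈ R) : Pres R D := by
  intro x hx
  have hx' : x ∈ Algebra.adjoin ℂ (T : Set K) := by rw [hR]; exact hx
  clear hx
  have key : x ∈ R ∧ D x ∈ R := by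
    induction hx' using Algebra.adjoin_induction with
    | mem t ht => exact ⟨by rw [← hR]; exact Algebra.subset_adjoin ht, h t ht⟩
    | algebraMap z => exact ⟨R.algebraMap_mem z, by rw [Derivation.map_algebraMap]; exact R.zero_mem⟩
    | add x y _ _ hx hy =>
      exact ⟨R.add_mem hx.1 hy.1, by rw [map_add]; exact R.add_mem hx.2 hy.2⟩
    | mul x y _ _ hx hy =>
      refine ⟨R.mul_mem hx.1 hy.1, ?_⟩
      rw [Derivation.leibniz, smul_eq_mul, smul_eq_mul]
      exact R.add_mem (R.mul_mem hx.1 hy.2) (R.mul_mem hy.1 hx.2)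
  exact key.2

theorem der_eq_zero_of_gens {T : Finset K} (hR : Algebra.adjoin ℂ (T : Set K) = R)
    (hfrac : IsFrac R) {D : Derivation ℂ K K} (h : ∀ t ∈ T, D t = 0) : D = 0 := by
  refine der_eq_zero hfrac fun x hx => ?_
  have hx' : x ∈ Algebra.adjoin ℂ (T : Set K) := by rw [hR]; exact hx
  clear hx
  induction hx' using Algebra.adjoin_induction with
  | mem t ht => exact h t ht
  | algebraMap z => exact Derivation.map_algebraMap D z
  | add x y _ _ hx hy => rw [map_add, hx, hy, add_zero]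
  | mul x y _ _ hx hy => rw [Derivation.leibniz, hx, hy, smul_zero, smul_zero, add_zero]

/-- Decomposition of a derivation of `R` into homogeneous derivations of `R`. -/
theorem der_dec (h : IsCone R ξ) (hξ : Pres R ξ) (P : ℝ → Prop) {D : Derivation ℂ K K}
    (hD : Pres R D)
    (hx : ∀ x ∈ R, ∀ a : ℝ, ξ x = (a : ℂ) • x → D x ∈ RH R ξ (fun b => P (b - a))) :
    D ∈ Hsp (adx ξ) (presSub R) P := by
  classical
  obtain ⟨T, δ, _, hT, hR⟩ := h.exists_gens
  have hT' : ∀ t : K, ∃ c : ℝ, t ∈ T → ξ t = (c : ℂ) • t := by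
    intro t
    by_cases ht : t ∈ T
    · obtain ⟨_, _, c, _, hc⟩ := hT t ht
      exact ⟨c, fun _ => hc⟩
    · exact ⟨0, fun h => absurd h ht⟩
  choose c hc using hT'
  have hdec : ∀ t : K, ∃ f : ℝ →₀ K, t ∈ T →
      IsDec (ξ : K →ₗ[ℂ] K) (RS R) (fun b => P (b - c t)) f (D t) := by
    intro t
    by_cases ht : t ∈ T
    · obtain ⟨f, hf⟩ := exists_dec (hx t (hT t ht).1 (c t) (hc t ht))
      exact ⟨f, fun _ => hf⟩
    · exact ⟨0, fun h => absurd h ht⟩
  choose f hf using hdec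
  let S : Finset ℝ := T.biUnion fun t => (f t).support.image fun b => b - c t
  have hS : ∀ s ∈ S, P s := by
    intro s hs
    obtain ⟨t, ht, hs⟩ := Finset.mem_biUnion.mp hs
    obtain ⟨b, hb, rfl⟩ := Finset.mem_image.mp hs
    exact (hf t ht).prop b (Finsupp.mem_support_iff.mp hb)
  -- the action on the values
  let B : K → (K →ₗ[ℂ] K) := fun t => (ξ : K →ₗ[ℂ] K) - ((c t : ℝ) : ℂ) • LinearMap.id
  have hpow : ∀ (t : K), t ∈ T → ∀ (k : ℕ) (E : Derivation ℂ K K),
      ((adx ξ ^ k) E) t = ((B t) ^ k) (E t) := by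
    intro t ht k
    induction k with
    | zero => intro E; rfl
    | succ k ih =>
      intro E
      rw [pow_succ, pow_succ]
      show ((adx ξ ^ k) (adx ξ E)) t = ((B t) ^ k) ((B t) (E t))
      rw [ih, adx_apply, Derivation.commutator_apply, hc t ht, Derivation.map_smul]
      rfl
  have hpoly : ∀ (p : ℂ[X]) (t : K), t ∈ T → ∀ E : Derivation ℂ K K,
      ((aeval (adx ξ) p) E) t = (aeval (B t) p) (E t) := by
    intro p t ht E
    induction p using Polynomial.induction_on' with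
    | add p q hp hq => rw [map_add, map_add, LinearMap.add_apply, LinearMap.add_apply,
        Derivation.add_apply, hp, hq]
    | monomial n z =>
      rw [aeval_monomial, aeval_monomial]
      show (algebraMap ℂ (Module.End ℂ (Derivation ℂ K K)) z ((adx ξ ^ n) E)) t =
        algebraMap ℂ (Module.End ℂ K) z ((B t ^ n) (E t))
      rw [Module.algebraMap_end_apply, Module.algebraMap_end_apply, ← hpow t ht]
      rfl
  have hzero : (aeval (adx ξ) (∏ s ∈ S, (X - C ((s : ℝ) : ℂ)))) D = 0 := by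
    refine der_eq_zero_of_gens hR h.frac fun t ht => ?_
    rw [hpoly _ t ht]
    refine aeval_of_mem_hsp (B t) ⊤ S ?_
    rw [← (hf t ht).sum]
    refine Submodule.sum_mem _ fun b hb => ?_
    refine mem_hsp (c := b - c t) Submodule.mem_top
      (Finset.mem_biUnion.mpr ⟨t, ht, Finset.mem_image.mpr ⟨b, hb, rfl⟩⟩) ?_
    show ξ (f t b) - ((c t : ℝ) : ℂ) • (f t b) = _
    have h2 : ξ (f t b) = (b : ℂ) • f t b := (hf t ht).eig b
    rw [h2, ← sub_smul]
    push_cast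
    rfl
  refine hsp_mono le_rfl hS (dec_of_aeval (adx ξ) (presSub R) ?_ S D hD hzero)
  intro E hE x hx
  rw [adx_apply, Derivation.commutator_apply]
  exact R.sub_mem (hξ _ (hE x hx)) (hE _ (hξ x hx))

theorem IsCone.pres (h : IsCone R ξ) : Pres R ξ := by
  intro x hx
  have h1 : RH R ξ (fun c => 0 ≤ c) ≤ (RS R).comap (ξ : K →ₗ[ℂ] K) := by
    refine Submodule.span_le.mpr ?_
    rintro y ⟨hyR, c, _, hc⟩
    show ξ y ∈ R
    have : ξ y = (c : ℂ) • y := hc
    rw [this]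
    exact R.smul_mem hyR _
  exact h1 (h.span x hx)

theorem rh_subset {P : ℝ → Prop} {x : K} (hx : x ∈ RH R ξ P) : x ∈ R := hsp_le hx

/-- Every derivation of `R` is a sum of homogeneous derivations of `R`. -/
theorem IsCone.der_dec' (h : IsCone R ξ) {D : Derivation ℂ K K} (hD : Pres R D) :
    D ∈ Hsp (adx ξ) (presSub R) (fun _ => True) :=
  der_dec h h.pres _ hD fun x hx _ _ => hsp_mono le_rfl (fun _ _ => trivial) (h.span _ (hD x hx))

/-- Homogeneous derivations of `R` have degrees bounded below. -/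
theorem IsCone.der_bdd (h : IsCone R ξ) : ∃ B : ℝ, ∀ (D : Derivation ℂ K K) (c : ℝ),
    Pres R D → ⁅ξ, D⁆ = (c : ℂ) • D → D ≠ 0 → -B ≤ c := by
  classical
  obtain ⟨T, δ, _, hT, hR⟩ := h.exists_gens
  have hT' : ∀ t : K, ∃ c : ℝ, t ∈ T → ξ t = (c : ℂ) • t := by
    intro t
    by_cases ht : t ∈ T
    · obtain ⟨_, _, c, _, hc⟩ := hT t ht
      exact ⟨c, fun _ => hc⟩
    · exact ⟨0, fun h => absurd h ht⟩
  choose c hc using hT'
  obtain ⟨B, hB⟩ : ∃ B : ℝ, ∀ t ∈ T, c t ≤ B := by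
    obtain ⟨B, hB⟩ := (T.image c).bddAbove
    exact ⟨B, fun t ht => hB (Finset.mem_coe.mpr (Finset.mem_image_of_mem c ht))⟩
  refine ⟨B, fun D b hD hDb hD0 => ?_⟩
  have h1 : ∃ t ∈ T, D t ≠ 0 := by
    by_contra hcon
    push Not at hcon
    exact hD0 (der_eq_zero_of_gens hR h.frac hcon)
  obtain ⟨t, ht, hDt⟩ := h1
  have h2 := h.eig_nonneg (hD t (hT t ht).1) hDt (hom_apply hDb (hc t ht))
  have h3 := hB t ht
  linarith

theorem lead_unique' {A : K →ₗ[ℂ] K} {x y y' : K} {a : ℝ}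
    (h : A y = (a : ℂ) • y) (h' : A y' = (a : ℂ) • y')
    (hx : x - y ∈ Hsp A ⊤ (fun c => a < c)) (hx' : x - y' ∈ Hsp A ⊤ (fun c => a < c)) :
    y = y' := by
  by_contra hne
  have h1 : y - y' ∈ Hsp A ⊤ (fun c => a < c) := by
    have e : y - y' = (x - y') - (x - y) := by ring
    rw [e]
    exact Submodule.sub_mem _ hx' hx
  have h2 : A (y - y') = (a : ℂ) • (y - y') := by rw [map_sub, h, h', smul_sub]
  exact lt_irrefl a (prop_of_mem_hsp (sub_ne_zero.mpr hne) h2 h1)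

/-- An eigenvector of `ξ` in `K` has a homogeneous denominator. -/
theorem IsCone.eig_den (h : IsCone R ξ) {z : K} {c : ℝ} (hc : ξ z = (c : ℂ) • z) :
    ∃ (q : K) (b : ℝ), q ∈ R ∧ q ≠ 0 ∧ ξ q = (b : ℂ) • q ∧ z * q ∈ R := by
  by_cases hz : z = 0
  · refine ⟨1, 0, R.one_mem, one_ne_zero, eig_one, ?_⟩
    rw [hz, zero_mul]
    exact R.zero_mem
  obtain ⟨p, hp, q, hq, hq0, e⟩ := h.frac z
  have hp0 : p ≠ 0 := by
    rintro rfl
    exact hz (by rw [e, zero_div])
  have e1 : p = z * q := by rw [e, div_mul_cancel₀ _ hq0]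
  obtain ⟨a, p', _, hp'R, hp'0, hp'e, hp's⟩ := h.lead hp hp0
  obtain ⟨b, q', _, hq'R, hq'0, hq'e, hq's⟩ := h.lead hq hq0
  have h3 : p - z * q' ∈ Hsp (ξ : K →ₗ[ℂ] K) ⊤ (fun b' => c + b < b') := by
    have e2 : p - z * q' = z * (q - q') := by rw [e1]; ring
    rw [e2]
    exact hsp_mul_top (P := fun b' => b' = c) (Q := fun b' => b < b')
      (fun a b ha hb => by rw [ha]; linarith) (mem_hsp Submodule.mem_top rfl hc) (rh_le_top hq's)
  have h1 : a = c + b :=
    lead_unique (A := (ξ : K →ₗ[ℂ] K)) (x := p) hp'0 (mul_ne_zero hz hq'0) hp'e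
      (eig_mul hc hq'e) (rh_le_top hp's) h3
  have h4 : p' = z * q' := by
    refine lead_unique' (A := (ξ : K →ₗ[ℂ] K)) (x := p) (a := a) hp'e ?_ (rh_le_top hp's) ?_
    · rw [h1]
      exact eig_mul hc hq'e
    · rw [h1]
      exact h3
  exact ⟨q', b, hq'R, hq'0, hq'e, by rw [← h4]; exact hp'R⟩

/-- A homogeneous derivation of `K` becomes a derivation of `R` after multiplication with a
homogeneous element. -/
theorem IsCone.der_den (h : IsCone R ξ) {D : Derivation ℂ K K} {c : ℝ}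
    (hD : ⁅ξ, D⁆ = (c : ℂ) • D) :
    ∃ (q : K) (b : ℝ), q ∈ R ∧ q ≠ 0 ∧ ξ q = (b : ℂ) • q ∧ Pres R (q • D) := by
  classical
  obtain ⟨T, δ, _, hT, hR⟩ := h.exists_gens
  have h1 : ∀ t : K, ∃ (q : K) (b : ℝ), q ∈ R ∧ q ≠ 0 ∧ ξ q = (b : ℂ) • q ∧
      (t ∈ T → D t * q ∈ R) := by
    intro t
    by_cases ht : t ∈ T
    · obtain ⟨_, _, a, _, ha⟩ := hT t ht
      obtain ⟨q, b, h1, h2, h3, h4⟩ := h.eig_den (hom_apply hD ha)
      exact ⟨q, b, h1, h2, h3, fun _ => h4⟩
    · exact ⟨1, 0, R.one_mem, one_ne_zero, eig_one, fun h => absurd h ht⟩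
  choose q b hq1 hq2 hq3 hq4 using h1
  refine ⟨∏ t ∈ T, q t, ∑ t ∈ T, b t, Subalgebra.prod_mem _ fun t _ => hq1 t,
    Finset.prod_ne_zero_iff.mpr fun t _ => hq2 t, eig_prod T b q fun t _ => hq3 t, ?_⟩
  refine pres_of_gens hR fun t ht => ?_
  show (∏ t ∈ T, q t) * D t ∈ R
  rw [← Finset.mul_prod_erase T q ht, mul_comm, ← mul_assoc]
  exact R.mul_mem (hq4 t ht) (Subalgebra.prod_mem _ fun t _ => hq1 t)

end Pool.Agent.Helper37.SD
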