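import Pool.Agent.Helper37.SD.Fin

/-!
# The exponential of a locally nilpotent derivation
-/

set_option autoImplicit false

namespace Pool.Agent.Helper37.SD

open Module

variable {K : Type} [Field K] [Algebra ℂ K] {R : Subalgebra ℂ K}

/-- `Y^k x / k!` -/
noncomputable def dp (Y : Derivation ℂ K K) (k : ℕ) (x : K) : K :=
  ((k.factorial : ℂ)⁻¹) • (Y^[k] x)

/-- `∑_{k < N} Y^k x / k!` -/
noncomputable def expN (Y : Derivation ℂ K K) (N : ℕ) (x : K) : K :=
  ∑ k ∈ Finset.range N, dp Y k x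

theorem iter_zero_of_le {Y : Derivation ℂ K K} {N M : ℕ} (h : N ≤ M) {x : K}
    (hx : Y^[N] x = 0) : Y^[M] x = 0 := by
  obtain ⟨k, rfl⟩ := Nat.exists_eq_add_of_le h
  rw [add_comm, Function.iterate_add_apply, hx]
  clear h
  induction k with
  | zero => rfl
  | succ k ih => rw [Function.iterate_succ_apply', ih, map_zero]

theorem iter_add (Y : Derivation ℂ K K) (k : ℕ) (x y : K) :
    Y^[k] (x + y) = Y^[k] x + Y^[k] y := by
  induction k with
  | zero => rfl
  | succ k ih =>
    rw [Function.iterate_succ_apply', ih, map_add, Function.iterate_succ_apply' (⇑Y) k x,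
      Function.iterate_succ_apply' (⇑Y) k y]

theorem iter_smul (Y : Derivation ℂ K K) (k : ℕ) (z : ℂ) (x : K) :
    Y^[k] (z • x) = z • Y^[k] x := by
  induction k with
  | zero => rfl
  | succ k ih =>
    rw [Function.iterate_succ_apply', ih, Derivation.map_smul,
      Function.iterate_succ_apply' (⇑Y) k x]

theorem iter_mem {Y : Derivation ℂ K K} (hY : Pres R Y) {x : K} (hx : x ∈ R) (k : ℕ) :
    Y^[k] x ∈ R := by
  induction k with
  | zero => exact hx
  | succ k ih => rw [Function.iterate_succ_apply']; exact hY _ ih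

theorem dp_add (Y : Derivation ℂ K K) (k : ℕ) (x y : K) : dp Y k (x + y) = dp Y k x + dp Y k y := by
  rw [dp, iter_add, smul_add]
  rfl

theorem dp_smul (Y : Derivation ℂ K K) (k : ℕ) (z : ℂ) (x : K) :
    dp Y k (z • x) = z • dp Y k x := by
  rw [dp, iter_smul, smul_comm]
  rfl

theorem dp_zero (Y : Derivation ℂ K K) (x : K) : dp Y 0 x = x := by
  simp [dp]

theorem dp_const (Y : Derivation ℂ K K) (k : ℕ) (z : ℂ) :
    dp Y (k + 1) (algebraMap ℂ K z) = 0 := by
  rw [dp, Function.iterate_succ_apply, Derivation.map_algebraMap]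
  have h : Y^[k] (0 : K) = 0 := by
    induction k with
    | zero => rfl
    | succ k ih => rw [Function.iterate_succ_apply', ih, map_zero]
  rw [h, smul_zero]

theorem der_dp (Y : Derivation ℂ K K) (k : ℕ) (x : K) :
    Y (dp Y k x) = ((k : ℂ) + 1) • dp Y (k + 1) x := by
  have h0 : ((k : ℂ) + 1) ≠ 0 := by exact_mod_cast Nat.succ_ne_zero k
  rw [dp, dp, Derivation.map_smul, ← Function.iterate_succ_apply' (⇑Y) k x, smul_smul]
  congr 1
  rw [Nat.factorial_succ]
  push_cast
  rw [mul_inv, ← mul_assoc, mul_inv_cancel₀ h0, one_mul]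

/-- Leibniz rule for divided powers. -/
theorem dp_mul (Y : Derivation ℂ K K) (k : ℕ) (x y : K) :
    dp Y k (x * y) = ∑ p ∈ Finset.HasAntidiagonal.antidiagonal k, dp Y p.1 x * dp Y p.2 y := by
  induction k with
  | zero => simp [dp_zero]
  | succ k ih =>
    have h0 : ((k : ℂ) + 1) ≠ 0 := by exact_mod_cast Nat.succ_ne_zero k
    have h1 : ((k : ℂ) + 1) • dp Y (k + 1) (x * y) = ((k : ℂ) + 1) •
        ∑ p ∈ Finset.HasAntidiagonal.antidiagonal (k + 1), dp Y p.1 x * dp Y p.2 y := by
      rw [← der_dp, ih, map_sum]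
      have h2 : ∀ p : ℕ × ℕ, Y (dp Y p.1 x * dp Y p.2 y) =
          ((p.1 : ℂ) + 1) • (dp Y (p.1 + 1) x * dp Y p.2 y) +
            ((p.2 : ℂ) + 1) • (dp Y p.1 x * dp Y (p.2 + 1) y) := by
        intro p
        rw [Derivation.leibniz, der_dp, der_dp, smul_eq_mul, smul_eq_mul, mul_smul_comm,
          mul_smul_comm, mul_comm (dp Y p.2 y), add_comm]
      rw [Finset.sum_congr rfl fun p _ => h2 p, Finset.sum_add_distrib]
      have h3 : ∑ p ∈ Finset.HasAntidiagonal.antidiagonal k,
          ((p.1 : ℂ) + 1) • (dp Y (p.1 + 1) x * dp Y p.2 y) =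
          ∑ p ∈ Finset.HasAntidiagonal.antidiagonal (k + 1),
            (p.1 : ℂ) • (dp Y p.1 x * dp Y p.2 y) := by
        rw [Finset.Nat.sum_antidiagonal_succ]
        push_cast
        rw [zero_smul, zero_add]
      have h4 : ∑ p ∈ Finset.HasAntidiagonal.antidiagonal k,
          ((p.2 : ℂ) + 1) • (dp Y p.1 x * dp Y (p.2 + 1) y) =
          ∑ p ∈ Finset.HasAntidiagonal.antidiagonal (k + 1),
            (p.2 : ℂ) • (dp Y p.1 x * dp Y p.2 y) := by
        rw [Finset.Nat.sum_antidiagonal_succ']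
        push_cast
        rw [zero_smul, zero_add]
      rw [h3, h4, ← Finset.sum_add_distrib, Finset.smul_sum]
      refine Finset.sum_congr rfl fun p hp => ?_
      rw [← add_smul]
      congr 1
      have := Finset.HasAntidiagonal.mem_antidiagonal.mp hp
      exact_mod_cast this
    have h5 := congrArg (fun z => ((k : ℂ) + 1)⁻¹ • z) h1
    simpa [smul_smul, inv_mul_cancel₀ h0] using h5

theorem dp_zero_of_le {Y : Derivation ℂ K K} {N k : ℕ} (h : N ≤ k) {x : K}
    (hx : Y^[N] x = 0) : dp Y k x = 0 := by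
  rw [dp, iter_zero_of_le h hx, smul_zero]

theorem expN_eq {Y : Derivation ℂ K K} {N M : ℕ} (h : N ≤ M) {x : K} (hx : Y^[N] x = 0) :
    expN Y M x = expN Y N x := by
  unfold expN
  symm
  refine Finset.sum_subset (fun k hk => Finset.mem_range.mpr
    ((Finset.mem_range.mp hk).trans_le h)) fun k _ hk => ?_
  exact dp_zero_of_le (not_lt.mp fun h' => hk (Finset.mem_range.mpr h')) hx

theorem expN_eq' {Y : Derivation ℂ K K} {N M : ℕ} {x : K} (hx : Y^[N] x = 0)
    (hx' : Y^[M] x = 0) : expN Y M x = expN Y N x := by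
  rcases le_total N M with h | h
  · exact expN_eq h hx
  · exact (expN_eq h hx').symm

/-- multiplicativity -/
theorem expN_mul {Y : Derivation ℂ K K} {N M : ℕ} {x y : K} (hx : Y^[N] x = 0)
    (hy : Y^[M] y = 0) : Y^[N + M] (x * y) = 0 ∧
      expN Y (N + M) (x * y) = expN Y N x * expN Y M y := by
  have h1 : ∀ k, N + M ≤ k → dp Y k (x * y) = 0 := by
    intro k hk
    rw [dp_mul]
    refine Finset.sum_eq_zero fun p hp => ?_
    have hp' := Finset.HasAntidiagonal.mem_antidiagonal.mp hp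
    by_cases h2 : N ≤ p.1
    · rw [dp_zero_of_le h2 hx, zero_mul]
    · rw [dp_zero_of_le (k := p.2) (by omega) hy, mul_zero]
  refine ⟨?_, ?_⟩
  · have h2 := h1 (N + M) le_rfl
    rw [dp, smul_eq_zero] at h2
    refine h2.resolve_left (inv_ne_zero ?_)
    exact_mod_cast Nat.factorial_ne_zero _
  · have e1 : (∑ i ∈ Finset.range N, Polynomial.C (dp Y i x) * Polynomial.X ^ i) *
        (∑ j ∈ Finset.range M, Polynomial.C (dp Y j y) * Polynomial.X ^ j) =
        ∑ k ∈ Finset.range (N + M), Polynomial.C (dp Y k (x * y)) * Polynomial.X ^ k := by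
      have hc : ∀ (L : ℕ) (a : ℕ → K) (k : ℕ), (∀ k, L ≤ k → a k = 0) →
          (∑ i ∈ Finset.range L, Polynomial.C (a i) * Polynomial.X ^ i).coeff k = a k := by
        intro L a k ha
        rw [Polynomial.finsetSum_coeff]
        simp only [Polynomial.coeff_C_mul_X_pow]
        by_cases hk : k < L
        · rw [Finset.sum_eq_single k]
          · simp
          · intro b _ hb
            rw [if_neg (Ne.symm hb)]
          · intro h
            exact absurd (Finset.mem_range.mpr hk) h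
        · rw [ha k (not_lt.mp hk)]
          refine Finset.sum_eq_zero fun b hb => ?_
          rw [if_neg]
          rintro rfl
          exact hk (Finset.mem_range.mp hb)
      refine Polynomial.ext fun k => ?_
      rw [Polynomial.coeff_mul, hc _ (fun k => dp Y k (x * y)) k h1, dp_mul]
      refine Finset.sum_congr rfl fun p _ => ?_
      rw [hc _ (fun k => dp Y k x) _ (fun k hk => dp_zero_of_le hk hx),
        hc _ (fun k => dp Y k y) _ (fun k hk => dp_zero_of_le hk hy)]
    have e2 := congrArg (Polynomial.eval 1) e1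
    simp only [Polynomial.eval_mul, Polynomial.eval_finsetSum, Polynomial.eval_C,
      Polynomial.eval_pow, Polynomial.eval_X, one_pow, mul_one] at e2
    exact e2.symm

theorem neg_iter (Y : Derivation ℂ K K) (k : ℕ) (x : K) :
    (-Y)^[k] x = ((-1 : ℂ) ^ k) • Y^[k] x := by
  induction k with
  | zero => simp
  | succ k ih =>
    rw [Function.iterate_succ_apply', ih, Derivation.neg_apply, Derivation.map_smul,
      Function.iterate_succ_apply' (⇑Y) k x, pow_succ, mul_smul, smul_comm, ← smul_neg]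
    simp

theorem trunc_mul (N : ℕ) : (Polynomial.X : Polynomial ℂ) ^ N ∣
    (∑ k ∈ Finset.range N, Polynomial.C ((k.factorial : ℂ)⁻¹ * (-1) ^ k) * Polynomial.X ^ k) *
      (∑ k ∈ Finset.range N, Polynomial.C ((k.factorial : ℂ)⁻¹) * Polynomial.X ^ k) - 1 := by
  rw [Polynomial.X_pow_dvd_iff]
  intro d hd
  have hc : ∀ (a : ℕ → ℂ) (k : ℕ), k < N →
      (∑ i ∈ Finset.range N, Polynomial.C (a i) * Polynomial.X ^ i).coeff k = a k := by
    intro a k hk
    rw [Polynomial.finsetSum_coeff]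
    simp only [Polynomial.coeff_C_mul_X_pow]
    rw [Finset.sum_eq_single k]
    · simp
    · intro b _ hb
      rw [if_neg (Ne.symm hb)]
    · intro h
      exact absurd (Finset.mem_range.mpr hk) h
  have h1 := congrArg (PowerSeries.coeff d) (PowerSeries.exp_mul_exp_neg_eq_one (A := ℂ))
  rw [mul_comm, PowerSeries.coeff_mul, PowerSeries.coeff_one] at h1
  rw [Polynomial.coeff_sub, Polynomial.coeff_mul, Polynomial.coeff_one, sub_eq_zero]
  rw [← h1]
  refine Finset.sum_congr rfl fun p hp => ?_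
  have hp' := Finset.HasAntidiagonal.mem_antidiagonal.mp hp
  rw [hc (fun k => (k.factorial : ℂ)⁻¹ * (-1) ^ k) p.1 (by omega),
    hc (fun k => (k.factorial : ℂ)⁻¹) p.2 (by omega), PowerSeries.coeff_exp]
  rw [PowerSeries.evalNegHom, PowerSeries.coeff_rescale, PowerSeries.coeff_exp]
  simp [mul_comm]

/-- `exp (-Y)` is inverse to `exp Y`. -/
theorem expN_neg {Y : Derivation ℂ K K} {N : ℕ} {x : K} (hx : Y^[N] x = 0) :
    expN (-Y) N (expN Y N x) = x := by
  let A : Module.End ℂ K := (Y : K →ₗ[ℂ] K)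
  have hA : ∀ (k : ℕ) (z : K), (A ^ k) z = Y^[k] z := by
    intro k z
    rw [Module.End.pow_apply]
    rfl
  have hP : ∀ (a : ℕ → ℂ) (z : K),
      (Polynomial.aeval A (∑ k ∈ Finset.range N, Polynomial.C (a k) * Polynomial.X ^ k)) z =
        ∑ k ∈ Finset.range N, a k • Y^[k] z := by
    intro a z
    rw [map_sum, LinearMap.sum_apply]
    refine Finset.sum_congr rfl fun k _ => ?_
    rw [map_mul, Polynomial.aeval_C, map_pow, Polynomial.aeval_X]
    show algebraMap ℂ (Module.End ℂ K) (a k) ((A ^ k) z) = _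
    rw [Module.algebraMap_end_apply, hA]
  have h1 : expN Y N x = (Polynomial.aeval A
      (∑ k ∈ Finset.range N, Polynomial.C ((k.factorial : ℂ)⁻¹) * Polynomial.X ^ k)) x := by
    rw [hP]
    rfl
  have h2 : ∀ z, expN (-Y) N z = (Polynomial.aeval A (∑ k ∈ Finset.range N,
      Polynomial.C ((k.factorial : ℂ)⁻¹ * (-1) ^ k) * Polynomial.X ^ k)) z := by
    intro z
    rw [hP]
    refine Finset.sum_congr rfl fun k _ => ?_
    rw [dp, neg_iter, smul_smul]
  obtain ⟨S, hS⟩ := trunc_mul N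
  rw [h2, h1, ← Module.End.mul_apply, ← map_mul, sub_eq_iff_eq_add.mp hS, map_add, map_one,
    LinearMap.add_apply, mul_comm, map_mul, Module.End.mul_apply, map_pow, Polynomial.aeval_X, hA,
    hx, map_zero, zero_add]
  rfl

/-- `Y` is locally nilpotent on `R`. -/
def LocNil (R : Subalgebra ℂ K) (Y : Derivation ℂ K K) : Prop := ∀ x ∈ R, ∃ N, Y^[N] x = 0

theorem isFractionRing_of (hR : IsFrac R) : IsFractionRing R K := by
  have : FaithfulSMul R K := (faithfulSMul_iff_algebraMap_injective R K).mpr Subtype.val_injective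
  refine IsFractionRing.of_field R K fun z => ?_
  obtain ⟨a, ha, b, hb, _, e⟩ := hR z
  exact ⟨⟨a, ha⟩, ⟨b, hb⟩, e⟩

theorem expN_mem {Y : Derivation ℂ K K} (hY : Pres R Y) {x : K} (hx : x ∈ R) (N : ℕ) :
    expN Y N x ∈ R :=
  Subalgebra.sum_mem _ fun k _ => R.smul_mem (iter_mem hY hx k) _

/-- The exponential of a locally nilpotent derivation of `R` as an algebra homomorphism. -/
theorem exists_expHom {Y : Derivation ℂ K K} (hY : Pres R Y) (hN : LocNil R Y) :
    ∃ φ : R →ₐ[ℂ] R, ∀ x : R, ∀ N : ℕ, Y^[N] (x : K) = 0 → ((φ x : R) : K) = expN Y N x := by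
  choose! N hNx using hN
  have key : ∀ (x : K) (M : ℕ), x ∈ R → Y^[M] x = 0 → expN Y (N x) x = expN Y M x := by
    intro x M hx hM
    exact expN_eq' hM (hNx x hx)
  let f : R → R := fun x => ⟨expN Y (N x) x, expN_mem hY x.2 _⟩
  refine ⟨{ toFun := f, map_one' := ?_, map_mul' := ?_, map_zero' := ?_, map_add' := ?_,
            commutes' := ?_ }, ?_⟩
  · refine Subtype.ext ?_
    show expN Y (N ((1 : R) : K)) ((1 : R) : K) = 1
    have h1 : Y^[1] (1 : K) = 0 := Derivation.map_one_eq_zero Y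
    rw [key _ 1 (1 : R).2 h1]
    simp [expN, dp_zero]
  · intro x y
    refine Subtype.ext ?_
    show expN Y (N ((x * y : R) : K)) ((x * y : R) : K) = expN Y (N x) x * expN Y (N y) y
    have h1 := expN_mul (hNx x x.2) (hNx y y.2)
    rw [key _ (N x + N y) (x * y).2 h1.1]
    exact h1.2
  · refine Subtype.ext ?_
    show expN Y (N ((0 : R) : K)) ((0 : R) : K) = 0
    have h1 : Y^[0] (0 : K) = 0 := rfl
    rw [key _ 0 (0 : R).2 h1]
    simp [expN]
  · intro x y
    refine Subtype.ext ?_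
    show expN Y (N ((x + y : R) : K)) ((x + y : R) : K) = expN Y (N x) x + expN Y (N y) y
    have hx := iter_zero_of_le (le_max_left (N x) (N y)) (hNx x x.2)
    have hy := iter_zero_of_le (le_max_right (N x) (N y)) (hNx y y.2)
    have hxy : Y^[max (N x) (N y)] ((x + y : R) : K) = 0 := by
      show Y^[max (N x) (N y)] ((x : K) + (y : K)) = 0
      rw [iter_add, hx, hy, add_zero]
    rw [key _ _ (x + y).2 hxy, key _ _ x.2 hx, key _ _ y.2 hy]
    show expN Y _ ((x : K) + (y : K)) = _
    simp only [expN, dp_add, Finset.sum_add_distrib]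
  · intro z
    refine Subtype.ext ?_
    show expN Y (N (algebraMap ℂ K z)) (algebraMap ℂ K z) = algebraMap ℂ K z
    have h1 : Y^[1] (algebraMap ℂ K z) = 0 := Derivation.map_algebraMap Y z
    rw [key _ 1 (R.algebraMap_mem z) h1]
    simp [expN, dp_zero]
  · intro x M hM
    exact key x M x.2 hM

theorem neg_pres {Y : Derivation ℂ K K} (hY : Pres R Y) : Pres R (-Y) := fun x hx => by
  rw [Derivation.neg_apply]
  exact R.neg_mem (hY x hx)

theorem neg_locNil {Y : Derivation ℂ K K} (hN : LocNil R Y) : LocNil R (-Y) := fun x hx => by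
  obtain ⟨N, h⟩ := hN x hx
  exact ⟨N, by rw [neg_iter, h, smul_zero]⟩

theorem neg_iter_zero {Y : Derivation ℂ K K} {N : ℕ} {x : K} (h : Y^[N] x = 0) :
    (-Y)^[N] x = 0 := by rw [neg_iter, h, smul_zero]

theorem iter_expN {Y : Derivation ℂ K K} {N : ℕ} {x : K} (hx : Y^[N] x = 0) (M : ℕ) :
    Y^[N] (expN Y M x) = 0 := by
  induction M with
  | zero =>
    show Y^[N] (∑ k ∈ Finset.range 0, dp Y k x) = 0
    rw [Finset.range_zero, Finset.sum_empty]
    exact iter_zero_of_le (Nat.zero_le N) (x := (0 : K)) rfl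
  | succ M ih =>
    have h1 : expN Y (M + 1) x = expN Y M x + dp Y M x := Finset.sum_range_succ _ _
    rw [h1, iter_add, ih, zero_add, dp, iter_smul, ← Function.iterate_add_apply, add_comm,
      Function.iterate_add_apply, hx]
    rw [iter_zero_of_le (Nat.zero_le M) (x := (0 : K)) rfl, smul_zero]

/-- The exponential of a locally nilpotent derivation of `R` as an automorphism of `K`. -/
theorem exists_expEquiv (hR : IsFrac R) {Y : Derivation ℂ K K} (hY : Pres R Y)
    (hN : LocNil R Y) : ∃ φ : K ≃ₐ[ℂ] K,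
      (∀ x ∈ R, ∀ N : ℕ, Y^[N] x = 0 → φ x = expN Y N x) ∧
      (∀ x ∈ R, ∀ N : ℕ, Y^[N] x = 0 → φ.symm x = expN (-Y) N x) := by
  obtain ⟨f, hf⟩ := exists_expHom hY hN
  obtain ⟨g, hg⟩ := exists_expHom (neg_pres hY) (neg_locNil hN)
  have h1 : ∀ x, g (f x) = x := by
    intro x
    obtain ⟨N, hx⟩ := hN x x.2
    refine Subtype.ext ?_
    have h2 : Y^[N] ((f x : R) : K) = 0 := by
      rw [hf x N hx]
      exact iter_expN hx N
    rw [hg (f x) N (neg_iter_zero h2), hf x N hx, expN_neg hx]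
  have h2 : ∀ x, f (g x) = x := by
    intro x
    obtain ⟨N, hx⟩ := hN x x.2
    refine Subtype.ext ?_
    have hx' := neg_iter_zero hx
    have h3 : (-Y)^[N] ((g x : R) : K) = 0 := by
      rw [hg x N hx']
      exact iter_expN hx' N
    have h4 : Y^[N] ((g x : R) : K) = 0 := by
      have := neg_iter_zero h3
      rwa [neg_neg] at this
    rw [hf (g x) N h4, hg x N hx']
    have := expN_neg (Y := -Y) hx'
    rwa [neg_neg] at this
  have := isFractionRing_of hR
  let e : R ≃ₐ[ℂ] R := AlgEquiv.ofAlgHom f g (AlgHom.ext h2) (AlgHom.ext h1)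
  let φ : K ≃ₐ[ℂ] K := IsFractionRing.algEquivOfAlgEquiv e
  have hφ : ∀ x : R, φ (x : K) = ((f x : R) : K) := fun x =>
    IsFractionRing.algEquivOfAlgEquiv_algebraMap e x
  refine ⟨φ, fun x hx N hxN => ?_, fun x hx N hxN => ?_⟩
  · rw [← hf ⟨x, hx⟩ N hxN]
    exact hφ ⟨x, hx⟩
  · rw [AlgEquiv.symm_apply_eq]
    have h3 := hg ⟨x, hx⟩ N (neg_iter_zero hxN)
    have h4 := hφ (g ⟨x, hx⟩)
    rw [h2 ⟨x, hx⟩, h3] at h4
    exact h4.symm

end Pool.Agent.Helper37.SD
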