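import Pool.Agent.Helper37.SD.Slice

/-!
# Homogeneous forms of low weight, and homogeneous nondegenerate forms
-/

set_option autoImplicit false

namespace Pool.Agent.Helper37.SD

open Module

variable {K : Type} [Field K] [Algebra ℂ K] {R : Subalgebra ℂ K} {ξ : Derivation ℂ K K}

/-- The homogeneous derivations of `R` of degree `c`. -/
def derC (R : Subalgebra ℂ K) (ξ : Derivation ℂ K K) (c : ℝ) :
    Submodule ℂ (Derivation ℂ K K) where
  carrier := {D | Pres R D ∧ ⁅ξ, D⁆ = (c : ℂ) • D}
  add_mem' := fun {D E} hD hE => ⟨fun x hx => R.add_mem (hD.1 x hx) (hE.1 x hx), by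
    rw [lie_add, hD.2, hE.2, smul_add]⟩
  zero_mem' := ⟨fun _ _ => R.zero_mem, by rw [lie_zero, smul_zero]⟩
  smul_mem' := fun z D hD => ⟨fun x hx => R.smul_mem (hD.1 x hx) z, by
    rw [lie_smul, hD.2, smul_comm]⟩

theorem IsCone.finite_derC (h : IsCone R ξ) (c : ℝ) : Module.Finite ℂ (derC R ξ c) := by
  classical
  obtain ⟨T, δ, _, hT, hR⟩ := h.exists_gens
  have hT' : ∀ t : K, ∃ c : ℝ, t ∈ T → ξ t = (c : ℂ) • t := by
    intro t
    by_cases ht : t ∈ T
    · obtain ⟨_, _, c, _, hc⟩ := hT t ht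
      exact ⟨c, fun _ => hc⟩
    · exact ⟨0, fun h => absurd h ht⟩
  choose b hb using hT'
  have hfin : ∀ t : T, Module.Finite ℂ (eigR R ξ (b (t : K) + c)) := fun t => h.finite_eigR _
  let Ψ : derC R ξ c →ₗ[ℂ] (∀ t : T, eigR R ξ (b (t : K) + c)) :=
    { toFun := fun D t => ⟨(D : Derivation ℂ K K) (t : K), D.2.1 _ (hT t t.2).1,
        hom_apply D.2.2 (hb t t.2)⟩
      map_add' := fun D E => by
        funext t
        exact Subtype.ext rfl
      map_smul' := fun z D => by
        funext t
        exact Subtype.ext rfl }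
  refine Module.Finite.of_injective Ψ ?_
  rw [injective_iff_map_eq_zero]
  intro D hD
  apply Subtype.ext
  refine der_eq_zero_of_gens hR h.frac fun t ht => ?_
  have h1 := congrFun hD ⟨t, ht⟩
  exact congrArg Subtype.val h1

/-- degree of the derivation dual to a homogeneous 1-form -/
theorem vec_deg {η : Form K} (hinj : ∀ D, (∀ E, η D E = 0) → D = 0) {ℓ j : ℝ}
    (hℓ : HomForm ξ ℓ η) {θ : Derivation ℂ K K →ₗ[K] K}
    (hθ : ∀ E, ξ (θ E) - θ ⁅ξ, E⁆ = (j : ℂ) • θ E) {Y : Derivation ℂ K K}
    (hY : ∀ E, η Y E = θ E) : ⁅ξ, Y⁆ = ((j - ℓ : ℝ) : ℂ) • Y := by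
  refine form_inj hinj fun E => ?_
  have e1 := hℓ Y E
  have e2 := hθ E
  rw [← hY, ← hY] at e2
  rw [form_smul_left]
  have e3 : η ⁅ξ, Y⁆ E = (ξ (η Y E) - η Y ⁅ξ, E⁆) - (ℓ : ℂ) • η Y E := by
    rw [← e1]; ring
  rw [e3, e2]
  push_cast
  rw [sub_smul]

/-- Homogeneous regular 1-forms of weight less than the weight of `η` are exact. -/
theorem one_form_exact (h : IsCone R ξ) {v : RVal K} (hv : IsWt R ξ v) {n : ℕ}
    (hfin : Module.Finite K (Derivation ℂ K K)) (hd : finrank K (Derivation ℂ K K) = 2 * n)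
    {η : Form K} (hη : IsNondeg R η) {ℓ : ℝ} (hℓ : HomForm ξ ℓ η) {a V : ℝ}
    (hmin : UniqueMin n R η v a V) {θ : Derivation ℂ K K →ₗ[K] K} {j : ℝ} (hj : j < ℓ)
    (hreg : ∀ E, Pres R E → θ E ∈ R)
    (hθ : ∀ E, ξ (θ E) - θ ⁅ξ, E⁆ = (j : ℂ) • θ E) : ∃ f : K, ∀ E, θ E = E f := by
  classical
  obtain ⟨Y, hY⟩ := exists_vec hfin hη.inj θ
  have hYR : Pres R Y := hη.perfect Y fun E hE => by rw [hY]; exact hreg E hE
  obtain ⟨s, hs⟩ : ∃ s : ℝ, s = ℓ - j := ⟨_, rfl⟩
  have hs0 : 0 < s := by linarith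
  have hYs : ⁅ξ, Y⁆ = ((-s : ℝ) : ℂ) • Y := by
    rw [vec_deg hη.inj hℓ hθ hY]
    have e : j - ℓ = -s := by linarith
    rw [e]
  -- values of derivations of degree `-s` on elements of degree `s`
  have hval : ∀ (Z : Derivation ℂ K K), Pres R Z → ⁅ξ, Z⁆ = ((-s : ℝ) : ℂ) • Z →
      ∀ f ∈ R, ξ f = (s : ℂ) • f → ∃ z : ℂ, Z f = algebraMap ℂ K z := by
    intro Z hZ hZs f hf hfs
    refine h.const _ (hZ f hf) ?_
    rw [hom_apply hZs hfs]
    have e : s + -s = 0 := by ring
    rw [e]
    simp
  by_cases hcase : ∀ f ∈ R, ξ f = (s : ℂ) • f → Y f = 0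
  · have hY0 := neg_der_zero h hv hfin hd hη hℓ hmin hYR hs0 hYs hcase
    refine ⟨0, fun E => ?_⟩
    rw [← hY, hY0, map_zero, LinearMap.zero_apply, map_zero]
  · push Not at hcase
    obtain ⟨f, hfR, hfs, hYf⟩ := hcase
    obtain ⟨z, hz⟩ := hval Y hYR hYs f hfR hfs
    have hz0 : z ≠ 0 := by
      rintro rfl
      exact hYf (by rw [hz, map_zero])
    have hℓs : ℓ = 2 * s := by
      refine slice_deg h hv hfin hd hη hℓ hmin hYR hs0 hYs (f := z⁻¹ • f) (R.smul_mem hfR _) ?_ ?_
      · rw [Derivation.map_smul, hfs, smul_comm]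
      · rw [Derivation.map_smul, hz, Algebra.smul_def, ← map_mul, inv_mul_cancel₀ hz0, map_one]
    -- `f ↦ H f`
    choose H hH using fun f : K => exists_vec hfin hη.inj (evd f)
    have hH' : ∀ f E, η (H f) E = E f := hH
    have hfinA := h.finite_eigR s
    have hfinT := h.finite_derC (-s)
    let Φ : eigR R ξ s →ₗ[ℂ] derC R ξ (-s) :=
      { toFun := fun x => ⟨H (x : K), hη.perfect _ fun E hE => by
            rw [hH']; exact hE _ x.2.1, by
          have e : s - ℓ = -s := by linarith
          rw [← e]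
          refine vec_deg hη.inj hℓ (θ := evd (x : K)) (fun E => ?_) (hH (x : K))
          show ξ (E (x : K)) - ⁅ξ, E⁆ (x : K) = (s : ℂ) • E (x : K)
          rw [Derivation.commutator_apply, x.2.2, Derivation.map_smul]
          ring⟩
        map_add' := fun x y => by
          apply Subtype.ext
          refine form_inj hη.inj fun E => ?_
          show η (H ((x : K) + (y : K))) E = η (H (x : K) + H (y : K)) E
          rw [map_add, LinearMap.add_apply, hH', hH', hH', map_add]
        map_smul' := fun w x => by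
          apply Subtype.ext
          refine form_inj hη.inj fun E => ?_
          show η (H (w • (x : K))) E = η (w • H (x : K)) E
          rw [form_smul_left, hH', hH', Derivation.map_smul] }
    obtain ⟨pr, hpr⟩ := LinearMap.exists_leftInverse_of_injective (Algebra.linearMap ℂ K)
      (LinearMap.ker_eq_bot.mpr (algebraMap ℂ K).injective)
    have hpr' : ∀ z : ℂ, pr (algebraMap ℂ K z) = z := fun z => by
      have := LinearMap.congr_fun hpr z
      exact this
    let Λ : derC R ξ (-s) →ₗ[ℂ] Module.Dual ℂ (eigR R ξ s) :=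
      { toFun := fun Z =>
          { toFun := fun x => pr ((Z : Derivation ℂ K K) (x : K))
            map_add' := fun x y => by
              show pr ((Z : Derivation ℂ K K) ((x : K) + (y : K))) = _
              rw [map_add, map_add]
            map_smul' := fun w x => by
              show pr ((Z : Derivation ℂ K K) (w • (x : K))) = _
              rw [Derivation.map_smul, map_smul]
              rfl }
        map_add' := fun Z Z' => by
          ext x
          show pr (((Z : Derivation ℂ K K) + (Z' : Derivation ℂ K K)) (x : K)) = _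
          rw [Derivation.add_apply, map_add]
          rfl
        map_smul' := fun w Z => by
          ext x
          show pr ((w • (Z : Derivation ℂ K K)) (x : K)) = _
          rw [Derivation.smul_apply, map_smul]
          rfl }
    have hΛ : Function.Injective Λ := by
      rw [injective_iff_map_eq_zero]
      intro Z hZ
      apply Subtype.ext
      refine neg_der_zero h hv hfin hd hη hℓ hmin Z.2.1 hs0 Z.2.2 fun f hf hfs => ?_
      obtain ⟨z, hz⟩ := hval _ Z.2.1 Z.2.2 f hf hfs
      have h1 : pr ((Z : Derivation ℂ K K) f) = 0 :=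
        LinearMap.congr_fun hZ (⟨f, hf, hfs⟩ : eigR R ξ s)
      rw [hz, hpr'] at h1
      rw [hz, h1, map_zero]
    have hΦ : Function.Injective Φ := by
      rw [injective_iff_map_eq_zero]
      intro x hx
      have h1 : H (x : K) = 0 := congrArg Subtype.val hx
      have h2 := hH' (x : K) ξ
      rw [h1, map_zero, LinearMap.zero_apply, x.2.2] at h2
      apply Subtype.ext
      rcases smul_eq_zero.mp h2.symm with h3 | h3
      · exfalso
        have : s = 0 := by exact_mod_cast h3
        exact hs0.ne' this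
      · exact h3
    have h1 : finrank ℂ (derC R ξ (-s)) ≤ finrank ℂ (eigR R ξ s) := by
      have := LinearMap.finrank_le_finrank_of_injective hΛ
      rwa [Subspace.dual_finrank_eq] at this
    have h2 : finrank ℂ (eigR R ξ s) ≤ finrank ℂ (derC R ξ (-s)) :=
      LinearMap.finrank_le_finrank_of_injective hΦ
    have h3 : Function.Surjective Φ :=
      (LinearMap.injective_iff_surjective_of_finrank_eq_finrank (le_antisymm h2 h1)).mp hΦ
    obtain ⟨x, hx⟩ := h3 ⟨Y, hYR, hYs⟩
    have h4 : H (x : K) = Y := congrArg Subtype.val hx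
    exact ⟨(x : K), fun E => by rw [← hY, ← h4, hH']⟩

/-- A closed homogeneous regular 2-form of weight different from `0` and less than the weight of
`η` vanishes. -/
theorem two_form_zero (h : IsCone R ξ) {v : RVal K} (hv : IsWt R ξ v) {n : ℕ}
    (hfin : Module.Finite K (Derivation ℂ K K)) (hd : finrank K (Derivation ℂ K K) = 2 * n)
    {η : Form K} (hη : IsNondeg R η) {ℓ : ℝ} (hℓ : HomForm ξ ℓ η) {a V : ℝ}
    (hmin : UniqueMin n R η v a V) {ω : Form K} (hω : IsReg R ω) (hcl : Closed ω) {k : ℝ}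
    (hk : HomForm ξ k ω) (hk0 : k ≠ 0) (hkℓ : k < ℓ) : ω = 0 := by
  obtain ⟨f, hf⟩ := one_form_exact h hv hfin hd hη hℓ hmin (θ := ω ξ) hkℓ
    (fun E hE => hω.reg ξ E h.pres hE) (fun E => by
      have := hk ξ E
      rw [lie_self, map_zero, LinearMap.zero_apply, sub_zero] at this
      exact this)
  ext E F : 2
  show ω E F = 0
  have e1 := hcl ξ E F
  have e2 := hk E F
  rw [hf F, hf E, alt_neg hω.alt ⁅E, F⁆ ξ, hf ⁅E, F⁆, alt_neg hω.alt ⁅ξ, F⁆ E,
    Derivation.commutator_apply] at e1
  have e3 : (k : ℂ) • ω E F = 0 := by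
    rw [← e2, ← e1]
    ring
  rcases smul_eq_zero.mp e3 with h1 | h1
  · exact absurd (by exact_mod_cast h1) hk0
  · exact h1

/-- A regular homogeneous form of the same weight as `η` which is generically nondegenerate is
nondegenerate everywhere. -/
theorem nondeg_of_inj (h : IsCone R ξ) (hfin : Module.Finite K (Derivation ℂ K K))
    {η : Form K} (hη : IsNondeg R η) {ℓ : ℝ} (hℓ : HomForm ξ ℓ η) {ω : Form K}
    (hω : IsReg R ω) (hk : HomForm ξ ℓ ω) (hinj : ∀ D, (∀ E, ω D E = 0) → D = 0) :
    IsNondeg R ω := by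
  obtain ⟨J, hJ⟩ := exists_endo hfin hη.inj ω
  have hk' : HomForm ξ (ℓ + 0) ω := by rwa [add_zero]
  have hJT : ∀ c : ℝ, ∀ D ∈ derC R ξ c, J D ∈ derC R ξ c := by
    intro c D hD
    refine ⟨hη.perfect _ fun E hE => ?_, ?_⟩
    · rw [hJ]
      exact hω.reg D E hD.1 hE
    · have := endo_deg hη.inj hℓ hk' hJ hD.2
      rwa [add_zero] at this
  have hJinj : ∀ D, J D = 0 → D = 0 := by
    intro D hD
    refine hinj D fun E => ?_
    rw [← hJ, hD, map_zero, LinearMap.zero_apply]
  have hsurj : ∀ c : ℝ, ∀ D ∈ derC R ξ c, ∃ D', Pres R D' ∧ J D' = D := by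
    intro c D hD
    have hfinT := h.finite_derC c
    let j : derC R ξ c →ₗ[ℂ] derC R ξ c :=
      { toFun := fun x => ⟨J x, hJT c x x.2⟩
        map_add' := fun x y => Subtype.ext (map_add J (x : Derivation ℂ K K) y)
        map_smul' := fun z x => by
          apply Subtype.ext
          show J (z • (x : Derivation ℂ K K)) = z • J (x : Derivation ℂ K K)
          have e : z • (x : Derivation ℂ K K) = algebraMap ℂ K z • (x : Derivation ℂ K K) := by
            rw [algebraMap_smul]
          rw [e, map_smul, algebraMap_smul] }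
    have hj : Function.Injective j := by
      rw [injective_iff_map_eq_zero]
      intro x hx
      apply Subtype.ext
      exact hJinj _ (congrArg Subtype.val hx)
    obtain ⟨x, hx⟩ := (LinearMap.injective_iff_surjective.mp hj) ⟨D, hD⟩
    exact ⟨x, x.2.1, congrArg Subtype.val hx⟩
  refine ⟨hω, hinj, fun D hD => ?_⟩
  have h1 : Pres R (J D) := hη.perfect _ fun E hE => by rw [hJ]; exact hD E hE
  have h2 : ∃ D', Pres R D' ∧ J D' = J D := by
    have h3 := h.der_dec' h1
    have h4 : ∀ Z ∈ Hsp (adx ξ) (presSub R) (fun _ => True), ∃ D', Pres R D' ∧ J D' = Z := by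
      intro Z hZ
      induction hZ using Submodule.span_induction with
      | mem y hy =>
        obtain ⟨hyR, c, _, hyc⟩ := hy
        exact hsurj c y ⟨hyR, hyc⟩
      | zero => exact ⟨0, fun _ _ => R.zero_mem, map_zero J⟩
      | add x y _ _ hx hy =>
        obtain ⟨D1, h1, h2⟩ := hx
        obtain ⟨D2, h3, h4⟩ := hy
        exact ⟨D1 + D2, fun z hz => R.add_mem (h1 z hz) (h3 z hz), by rw [map_add, h2, h4]⟩
      | smul z x _ hx =>
        obtain ⟨D1, h1, h2⟩ := hx
        refine ⟨z • D1, fun w hw => R.smul_mem (h1 w hw) z, ?_⟩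
        have e : z • D1 = algebraMap ℂ K z • D1 := by rw [algebraMap_smul]
        rw [e, map_smul, algebraMap_smul, h2]
    exact h4 _ h3
  obtain ⟨D', hD', hJD⟩ := h2
  have h5 : D' = D := by
    rw [← sub_eq_zero]
    exact hJinj _ (by rw [map_sub, hJD, sub_self])
  rwa [← h5]

end Pool.Agent.Helper37.SD
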