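import Pool.Agent.Helper37.SD.Defs
import Pool.Agent.Helper37.SD.Frame

/-!
# The associated graded ring of a valuation and the degeneration of a 2-form
-/

set_option autoImplicit false

namespace Pool.Agent.Helper37.SD

open Module

variable {K : Type} [Field K] [Algebra ℂ K] {K₀ : Type} [Field K₀] [Algebra ℂ K₀]

/-- `R₀` is the graded ring `gr_v R`; its elements of degree `c` are the elements `y` with
`ξ y = c y`.  For `v x ≥ c` the element `sym c x` is the class of `x` in degree `c`, also for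
elements `x` of the field `K`. -/
structure IsGr (R : Subalgebra ℂ K) (v : RVal K) (R₀ : Subalgebra ℂ K₀)
    (ξ : Derivation ℂ K₀ K₀) (sym : ℝ → K → K₀) : Prop where
  add : ∀ c x y, v.Ge c x → v.Ge c y → sym c (x + y) = sym c x + sym c y
  mul : ∀ b c x y, v.Ge b x → v.Ge c y → sym (b + c) (x * y) = sym b x * sym c y
  const : ∀ z : ℂ, sym 0 (algebraMap ℂ K z) = algebraMap ℂ K₀ z
  zero_iff : ∀ c x, v.Ge c x → (sym c x = 0 ↔ x = 0 ∨ c < v.val x)
  mem : ∀ c x, x ∈ R → v.Ge c x → sym c x ∈ R₀ ∧ ξ (sym c x) = (c : ℂ) • sym c x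
  surj : ∀ (c : ℝ), ∀ y ∈ R₀, ξ y = (c : ℂ) • y → ∃ x ∈ R, v.Ge c x ∧ sym c x = y

/-- The derivation `D` of `K` does not lower `v` and induces the derivation `D₀` on the graded
ring. -/
def Induces (v : RVal K) (sym : ℝ → K → K₀) (D : Derivation ℂ K K)
    (D₀ : Derivation ℂ K₀ K₀) : Prop :=
  LogDer v D ∧ ∀ c x, v.Ge c x → D₀ (sym c x) = sym c (D x)

/-- There are coordinates `g i` of `K`, with derivations `D i = g i ∂ / ∂ g i`, which induce such
coordinates of the fraction field of the graded ring: `v` is (up to birational modification)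
a monomial valuation. -/
def QuasiMonomial (d : ℕ) (v : RVal K) (sym : ℝ → K → K₀) : Prop :=
  ∃ (g : Fin d → K) (D : Fin d → Derivation ℂ K K) (D₀ : Fin d → Derivation ℂ K₀ K₀),
    IsFrame D g ∧ IsFrame D₀ (fun i => sym (v.val (g i)) (g i)) ∧ ∀ i, Induces v sym (D i) (D₀ i)

/-- `ω₀` is the leading term, of weight `k`, of the 2-form `ω`. -/
structure IsDegen (v : RVal K) (sym : ℝ → K → K₀) (ω : Form K) (k : ℝ) (ω₀ : Form K₀) :
    Prop where
  ge : ∀ D E D₀ E₀, Induces v sym D D₀ → Induces v sym E E₀ → v.Ge k (ω D E)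
  lead : ∀ D E D₀ E₀, Induces v sym D D₀ → Induces v sym E E₀ → ω₀ D₀ E₀ = sym k (ω D E)
  ne : ω₀ ≠ 0

end Pool.Agent.Helper37.SD
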