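import Mathlib

/-!
# Spans of eigenvectors with real eigenvalues
-/

set_option autoImplicit false

namespace Pool.Agent.Helper37.SD

open Module Polynomial

variable {V : Type} [AddCommGroup V] [Module ℂ V]

/-- The span of the eigenvectors of `A` in `W` with real eigenvalues satisfying `P`. -/
def Hsp (A : V →ₗ[ℂ] V) (W : Submodule ℂ V) (P : ℝ → Prop) : Submodule ℂ V :=
  Submodule.span ℂ {y | y ∈ W ∧ ∃ c : ℝ, P c ∧ A y = (c : ℂ) • y}

theorem mem_hsp {A : V →ₗ[ℂ] V} {W : Submodule ℂ V} {P : ℝ → Prop} {y : V} {c : ℝ} (hy : y ∈ W)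
    (hc : P c) (h : A y = (c : ℂ) • y) : y ∈ Hsp A W P :=
  Submodule.subset_span ⟨hy, c, hc, h⟩

theorem hsp_mono {A : V →ₗ[ℂ] V} {W W' : Submodule ℂ V} {P Q : ℝ → Prop} (hW : W ≤ W')
    (hPQ : ∀ c, P c → Q c) : Hsp A W P ≤ Hsp A W' Q := by
  refine Submodule.span_mono ?_
  rintro y ⟨hy, c, hc, h⟩
  exact ⟨hW hy, c, hPQ c hc, h⟩

theorem hsp_le {A : V →ₗ[ℂ] V} {W : Submodule ℂ V} {P : ℝ → Prop} : Hsp A W P ≤ W :=
  Submodule.span_le.mpr fun _ hy => hy.1

/-- Eigenvectors with different eigenvalues are independent. -/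
theorem eig_indep (A : V →ₗ[ℂ] V) (s : Finset ℝ) : ∀ y : ℝ → V,
    (∀ c ∈ s, A (y c) = (c : ℂ) • y c) → ∑ c ∈ s, y c = 0 → ∀ c ∈ s, y c = 0 := by
  classical
  induction s using Finset.induction_on with
  | empty => intro y _ _ c hc; exact absurd hc (Finset.notMem_empty c)
  | insert a s ha ih =>
    intro y hy hsum
    rw [Finset.sum_insert ha] at hsum
    have h1 : ∑ c ∈ s, (((c : ℂ) - (a : ℂ)) • y c) = 0 := by
      have h2 : A (y a + ∑ c ∈ s, y c) - (a : ℂ) • (y a + ∑ c ∈ s, y c) = 0 := by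
        rw [hsum, map_zero, smul_zero, sub_zero]
      rw [map_add, map_sum, smul_add, Finset.smul_sum, hy a (Finset.mem_insert_self a s),
        add_sub_add_left_eq_sub, ← Finset.sum_sub_distrib] at h2
      rw [← h2]
      refine Finset.sum_congr rfl fun c hc => ?_
      rw [hy c (Finset.mem_insert_of_mem hc), sub_smul]
    have h3 := ih (fun c => ((c : ℂ) - (a : ℂ)) • y c) (fun c hc => by
      show A (((c : ℂ) - (a : ℂ)) • y c) = (c : ℂ) • (((c : ℂ) - (a : ℂ)) • y c)
      rw [map_smul, hy c (Finset.mem_insert_of_mem hc), smul_comm]) h1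
    have h4 : ∀ c ∈ s, y c = 0 := by
      intro c hc
      have h5 := h3 c hc
      rcases smul_eq_zero.mp h5 with h6 | h6
      · exfalso
        have h7 : (c : ℂ) = (a : ℂ) := sub_eq_zero.mp h6
        have h8 : c = a := by exact_mod_cast h7
        rw [h8] at hc
        exact ha hc
      · exact h6
    intro c hc
    rcases Finset.mem_insert.mp hc with rfl | hc
    · rw [Finset.sum_eq_zero h4, add_zero] at hsum
      exact hsum
    · exact h4 c hc

/-- A decomposition into eigenvectors. -/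
structure IsDec (A : V →ₗ[ℂ] V) (W : Submodule ℂ V) (P : ℝ → Prop) (f : ℝ →₀ V) (x : V) :
    Prop where
  eig : ∀ c, A (f c) = (c : ℂ) • f c
  mem : ∀ c, f c ∈ W
  prop : ∀ c, f c ≠ 0 → P c
  sum : (f.sum fun _ y => y) = x

theorem exists_dec {A : V →ₗ[ℂ] V} {W : Submodule ℂ V} {P : ℝ → Prop} {x : V}
    (hx : x ∈ Hsp A W P) : ∃ f, IsDec A W P f x := by
  classical
  induction hx using Submodule.span_induction with
  | mem y hy =>
    obtain ⟨hyW, c, hc, h⟩ := hy
    refine ⟨Finsupp.single c y, ⟨fun b => ?_, fun b => ?_, fun b => ?_, ?_⟩⟩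
    · by_cases hb : c = b
      · subst hb
        rw [Finsupp.single_eq_same, h]
      · rw [Finsupp.single_eq_of_ne (Ne.symm hb), map_zero, smul_zero]
    · by_cases hb : c = b
      · subst hb
        rw [Finsupp.single_eq_same]
        exact hyW
      · rw [Finsupp.single_eq_of_ne (Ne.symm hb)]
        exact W.zero_mem
    · by_cases hb : c = b
      · subst hb
        exact fun _ => hc
      · rw [Finsupp.single_eq_of_ne (Ne.symm hb)]
        exact fun h => absurd rfl h
    · exact Finsupp.sum_single_index rfl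
  | zero => exact ⟨0, ⟨fun b => by simp, fun b => W.zero_mem, fun b h => absurd rfl h, by simp⟩⟩
  | add x y _ _ hx hy =>
    obtain ⟨f, hf⟩ := hx
    obtain ⟨g, hg⟩ := hy
    refine ⟨f + g, ⟨fun b => ?_, fun b => ?_, fun b hb => ?_, ?_⟩⟩
    · rw [Finsupp.add_apply, map_add, hf.eig, hg.eig, smul_add]
    · exact W.add_mem (hf.mem b) (hg.mem b)
    · by_cases h1 : f b = 0
      · refine hg.prop b fun h2 => hb ?_
        rw [Finsupp.add_apply, h1, h2, add_zero]
      · exact hf.prop b h1
    · rw [Finsupp.sum_add_index' (fun _ => rfl) (fun _ _ _ => rfl), hf.sum, hg.sum]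
  | smul z x _ hx =>
    obtain ⟨f, hf⟩ := hx
    refine ⟨z • f, ⟨fun b => ?_, fun b => ?_, fun b hb => ?_, ?_⟩⟩
    · rw [Finsupp.smul_apply, map_smul, hf.eig, smul_comm]
    · exact W.smul_mem z (hf.mem b)
    · refine hf.prop b fun h2 => hb ?_
      rw [Finsupp.smul_apply, h2, smul_zero]
    · rw [Finsupp.sum_smul_index' (fun _ => rfl), ← Finsupp.smul_sum, hf.sum]

theorem IsDec.mem_hsp {A : V →ₗ[ℂ] V} {W : Submodule ℂ V} {P : ℝ → Prop} {f : ℝ →₀ V} {x : V}
    (hf : IsDec A W P f x) : x ∈ Hsp A W P := by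
  rw [← hf.sum]
  refine Submodule.sum_mem _ fun c hc => ?_
  exact Pool.Agent.Helper37.SD.mem_hsp (hf.mem c) (hf.prop c (Finsupp.mem_support_iff.mp hc))
    (hf.eig c)

theorem IsDec.unique {A : V →ₗ[ℂ] V} {W W' : Submodule ℂ V} {P P' : ℝ → Prop} {f g : ℝ →₀ V}
    {x : V} (hf : IsDec A W P f x) (hg : IsDec A W' P' g x) : f = g := by
  classical
  have h1 : ∑ c ∈ (f - g).support, (f - g) c = 0 := by
    have h2 : ((f - g).sum fun _ y => y) = 0 := by
      rw [Finsupp.sum_sub_index (fun _ _ _ => rfl), hf.sum, hg.sum, sub_self]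
    exact h2
  have h3 := eig_indep A (f - g).support (fun c => (f - g) c) (fun c _ => by
    show A ((f - g) c) = (c : ℂ) • (f - g) c
    rw [Finsupp.sub_apply, map_sub, hf.eig, hg.eig, smul_sub]) h1
  have h4 : f - g = 0 := by
    ext c
    by_cases hc : c ∈ (f - g).support
    · exact h3 c hc
    · simpa using hc
  exact sub_eq_zero.mp h4

theorem isDec_single {A : V →ₗ[ℂ] V} {y : V} {a : ℝ} (h : A y = (a : ℂ) • y) :
    IsDec A ⊤ (fun c => c = a) (Finsupp.single a y) y := by
  classical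
  refine ⟨fun b => ?_, fun b => Submodule.mem_top, fun b => ?_, Finsupp.sum_single_index rfl⟩
  · by_cases hb : a = b
    · subst hb
      rw [Finsupp.single_eq_same, h]
    · rw [Finsupp.single_eq_of_ne (Ne.symm hb), map_zero, smul_zero]
  · by_cases hb : a = b
    · exact fun _ => hb.symm
    · rw [Finsupp.single_eq_of_ne (Ne.symm hb)]
      exact fun h => absurd rfl h

/-- An eigenvector in the span of eigenvectors satisfies the condition. -/
theorem prop_of_mem_hsp {A : V →ₗ[ℂ] V} {W : Submodule ℂ V} {P : ℝ → Prop} {y : V} {a : ℝ}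
    (hy : y ≠ 0) (h : A y = (a : ℂ) • y) (hP : y ∈ Hsp A W P) : P a := by
  obtain ⟨f, hf⟩ := exists_dec hP
  have h1 := hf.unique (isDec_single h)
  refine hf.prop a ?_
  rw [h1, Finsupp.single_eq_same]
  exact hy

/-- Leading component. -/
theorem exists_lead {A : V →ₗ[ℂ] V} {W : Submodule ℂ V} {P : ℝ → Prop} {x : V} (hx : x ≠ 0)
    (h : x ∈ Hsp A W P) : ∃ (a : ℝ) (y : V), P a ∧ y ∈ W ∧ y ≠ 0 ∧ A y = (a : ℂ) • y ∧
      x - y ∈ Hsp A W (fun c => P c ∧ a < c) := by
  classical
  obtain ⟨f, hf⟩ := exists_dec h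
  have hs : f.support.Nonempty := by
    rw [Finsupp.support_nonempty_iff]
    rintro rfl
    exact hx (by rw [← hf.sum, Finsupp.sum_zero_index])
  have ha := Finsupp.mem_support_iff.mp (f.support.min'_mem hs)
  refine ⟨f.support.min' hs, f (f.support.min' hs), hf.prop _ ha, hf.mem _, ha, hf.eig _, ?_⟩
  have h1 : x - f (f.support.min' hs) = ∑ c ∈ f.support.erase (f.support.min' hs), f c := by
    rw [← hf.sum, Finsupp.sum, ← Finset.add_sum_erase _ _ (f.support.min'_mem hs)]
    abel
  rw [h1]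
  refine Submodule.sum_mem _ fun c hc => ?_
  have hc1 := Finset.mem_erase.mp hc
  have hc2 := Finsupp.mem_support_iff.mp hc1.2
  exact mem_hsp (hf.mem c) ⟨hf.prop c hc2, lt_of_le_of_ne (f.support.min'_le c hc1.2)
    (Ne.symm hc1.1)⟩ (hf.eig c)

/-- Uniqueness of the leading degree. -/
theorem lead_unique {A : V →ₗ[ℂ] V} {x y y' : V} {a a' : ℝ} (hy : y ≠ 0) (hy' : y' ≠ 0)
    (h : A y = (a : ℂ) • y) (h' : A y' = (a' : ℂ) • y')
    (hx : x - y ∈ Hsp A ⊤ (fun c => a < c)) (hx' : x - y' ∈ Hsp A ⊤ (fun c => a' < c)) :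
    a = a' := by
  have key : ∀ {y y' : V} {a a' : ℝ}, y ≠ 0 → A y = (a : ℂ) • y → A y' = (a' : ℂ) • y' →
      x - y ∈ Hsp A ⊤ (fun c => a < c) → x - y' ∈ Hsp A ⊤ (fun c => a' < c) → ¬ a < a' := by
    intro y y' a a' hy h h' hx hx' hlt
    have h1 : y = y' + (x - y') - (x - y) := by abel
    have h2 : y ∈ Hsp A ⊤ (fun c => a < c) := by
      rw [h1]
      exact Submodule.sub_mem _ (Submodule.add_mem _ (mem_hsp Submodule.mem_top hlt h')
        (hsp_mono le_rfl (fun c hc => hlt.trans hc) hx')) hx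
    exact lt_irrefl a (prop_of_mem_hsp hy h h2)
  rcases lt_trichotomy a a' with hlt | he | hgt
  · exact absurd hlt (key hy h h' hx hx')
  · exact he
  · exact absurd hgt (key hy' h' h hx' hx)

/-- An element killed by a product of `A - c`, `c ∈ s`, is a sum of eigenvectors. -/
theorem dec_of_aeval (A : V →ₗ[ℂ] V) (W : Submodule ℂ V) (hW : ∀ y ∈ W, A y ∈ W) (s : Finset ℝ) :
    ∀ x ∈ W, (aeval A (∏ c ∈ s, (X - C ((c : ℝ) : ℂ)))) x = 0 →
      x ∈ Hsp A W (fun c => c ∈ s) := by
  classical
  induction s using Finset.induction_on with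
  | empty =>
    intro x _ h
    rw [Finset.prod_empty, map_one] at h
    have h1 : x = 0 := h
    rw [h1]
    exact Submodule.zero_mem _
  | insert a s ha ih =>
    intro x hx h
    set x' := (aeval A (∏ c ∈ s, (X - C ((c : ℝ) : ℂ)))) x with hx'
    have hpW : ∀ (p : ℂ[X]), ∀ y ∈ W, (aeval A p) y ∈ W := by
      intro p y hy
      induction p using Polynomial.induction_on' with
      | add p q hp hq =>
        rw [map_add, LinearMap.add_apply]
        exact W.add_mem hp hq
      | monomial n z =>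
        rw [aeval_monomial]
        show algebraMap ℂ (Module.End ℂ V) z ((A ^ n) y) ∈ W
        rw [Module.algebraMap_end_apply]
        refine W.smul_mem z ?_
        induction n with
        | zero => exact hy
        | succ n ihn =>
          rw [pow_succ']
          exact hW _ ihn
    have h1 : A x' = (a : ℂ) • x' := by
      rw [Finset.prod_insert ha, map_mul] at h
      have h2 : (aeval A (X - C ((a : ℝ) : ℂ))) x' = 0 := h
      rw [map_sub, aeval_X, aeval_C, LinearMap.sub_apply, Module.algebraMap_end_apply] at h2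
      exact sub_eq_zero.mp h2
    have h3 : ∀ p : ℂ[X], (aeval A p) x' = (p.eval (a : ℂ)) • x' := by
      intro p
      induction p using Polynomial.induction_on' with
      | add p q hp hq => rw [map_add, LinearMap.add_apply, hp, hq, eval_add, add_smul]
      | monomial n z =>
        rw [aeval_monomial, eval_monomial]
        show algebraMap ℂ (Module.End ℂ V) z ((A ^ n) x') = _
        rw [Module.algebraMap_end_apply, mul_smul]
        congr 1
        induction n with
        | zero => rw [pow_zero, pow_zero, one_smul]; rfl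
        | succ n ihn =>
          rw [pow_succ']
          show A ((A ^ n) x') = _
          rw [ihn, map_smul, h1, smul_smul, pow_succ]
    set p := (∏ c ∈ s, (X - C ((c : ℝ) : ℂ))).eval (a : ℂ) with hp
    have hp0 : p ≠ 0 := by
      rw [hp, eval_prod]
      refine Finset.prod_ne_zero_iff.mpr fun c hc => ?_
      rw [eval_sub, eval_X, eval_C, sub_ne_zero]
      intro he
      have : a = c := by exact_mod_cast he
      rw [this] at ha
      exact ha hc
    have h4 : (aeval A (∏ c ∈ s, (X - C ((c : ℝ) : ℂ)))) (x - p⁻¹ • x') = 0 := by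
      rw [map_sub, map_smul, h3, ← hx', ← hp, smul_smul, inv_mul_cancel₀ hp0, one_smul, sub_self]
    have h5 : x' ∈ W := hpW _ x hx
    have h6 := ih (x - p⁻¹ • x') (W.sub_mem hx (W.smul_mem _ h5)) h4
    have h7 : x = (x - p⁻¹ • x') + p⁻¹ • x' := by abel
    rw [h7]
    refine Submodule.add_mem _ (hsp_mono le_rfl (fun c hc => Finset.mem_insert_of_mem hc) h6)
      (Submodule.smul_mem _ _ (mem_hsp h5 (Finset.mem_insert_self a s) h1))

/-- Conversely sums of eigenvectors with eigenvalues in `s` are killed by the product. -/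
theorem aeval_of_mem_hsp (A : V →ₗ[ℂ] V) (W : Submodule ℂ V) (s : Finset ℝ) {x : V}
    (hx : x ∈ Hsp A W (fun c => c ∈ s)) :
    (aeval A (∏ c ∈ s, (X - C ((c : ℝ) : ℂ)))) x = 0 := by
  classical
  induction hx using Submodule.span_induction with
  | mem y hy =>
    obtain ⟨_, c, hc, h⟩ := hy
    rw [← Finset.mul_prod_erase s _ hc, mul_comm, map_mul]
    show (aeval A (∏ x ∈ s.erase c, (X - C ((x : ℝ) : ℂ)))) ((aeval A (X - C ((c : ℝ) : ℂ))) y) = 0
    rw [map_sub, aeval_X, aeval_C, LinearMap.sub_apply, Module.algebraMap_end_apply, h, sub_self,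
      map_zero]
  | zero => exact map_zero _
  | add x y _ _ hx hy => rw [map_add, hx, hy, add_zero]
  | smul z x _ hx => rw [map_smul, hx, smul_zero]

end Pool.Agent.Helper37.SD
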