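import Pool.Agent.Helper37.SD.Neg

/-!
# Lie derivatives of 2-forms, traces and the derivative of the determinant
-/

set_option autoImplicit false

namespace Pool.Agent.Helper37.SD

open Module

variable {K : Type} [Field K] [Algebra ℂ K] {R : Subalgebra ℂ K} {ξ : Derivation ℂ K K}

theorem lie_fsmul (X D : Derivation ℂ K K) (f : K) : ⁅X, f • D⁆ = f • ⁅X, D⁆ + X f • D := by
  ext y
  rw [Derivation.commutator_apply]
  show X (f * D y) - f * D (X y) = f * (⁅X, D⁆ y) + X f * D y
  rw [Derivation.leibniz, Derivation.commutator_apply, smul_eq_mul, smul_eq_mul]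
  ring

theorem fsmul_lie (X D : Derivation ℂ K K) (f : K) : ⁅f • X, D⁆ = f • ⁅X, D⁆ - D f • X := by
  ext y
  rw [Derivation.commutator_apply]
  show f * X (D y) - D (f * X y) = f * (⁅X, D⁆ y) - D f * X y
  rw [Derivation.leibniz, Derivation.commutator_apply, smul_eq_mul, smul_eq_mul]
  ring

/-- the Lie derivative of a 2-form -/
noncomputable def Lf (X : Derivation ℂ K K) (η : Form K) : Form K :=
  LinearMap.mk₂ K (fun D E => X (η D E) - η ⁅X, D⁆ E - η D ⁅X, E⁆)
    (by
      intro D D' E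
      rw [map_add, LinearMap.add_apply, map_add, lie_add, map_add, LinearMap.add_apply]
      simp only [LinearMap.add_apply]
      ring)
    (by
      intro f D E
      rw [lie_fsmul]
      simp only [map_smul, map_add, LinearMap.smul_apply, LinearMap.add_apply,
        Derivation.leibniz, smul_eq_mul]
      ring)
    (by
      intro D E E'
      rw [lie_add]
      simp only [map_add]
      ring)
    (by
      intro f D E
      rw [lie_fsmul]
      simp only [map_smul, map_add, Derivation.leibniz, smul_eq_mul]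
      ring)

theorem Lf_apply (X : Derivation ℂ K K) (η : Form K) (D E : Derivation ℂ K K) :
    Lf X η D E = X (η D E) - η ⁅X, D⁆ E - η D ⁅X, E⁆ := rfl

theorem homForm_iff {ℓ : ℝ} {η : Form K} :
    HomForm ξ ℓ η ↔ ∀ D E, Lf ξ η D E = (ℓ : ℂ) • η D E := Iff.rfl

/-- `L_{fY} η` -/
theorem Lf_fsmul (Y : Derivation ℂ K K) (f : K) {η : Form K} (D E : Derivation ℂ K K) :
    Lf (f • Y) η D E = f * Lf Y η D E + D f * η Y E + E f * η D Y := by
  rw [Lf_apply, Lf_apply, fsmul_lie, fsmul_lie]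
  simp only [map_smul, map_sub, LinearMap.smul_apply, LinearMap.sub_apply, smul_eq_mul,
    Derivation.smul_apply]
  ring

theorem Lf_reg {η : Form K} (hη : ∀ D E, Pres R D → Pres R E → η D E ∈ R)
    {Y : Derivation ℂ K K} (hY : Pres R Y) {D E : Derivation ℂ K K} (hD : Pres R D)
    (hE : Pres R E) : Lf Y η D E ∈ R := by
  have hb : ∀ {D : Derivation ℂ K K}, Pres R D → Pres R ⁅Y, D⁆ := by
    intro D hD x hx
    rw [Derivation.commutator_apply]
    exact R.sub_mem (hY _ (hD x hx)) (hD _ (hY x hx))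
  rw [Lf_apply]
  exact R.sub_mem (R.sub_mem (hY _ (hη D E hD hE)) (hη _ _ (hb hD) hE)) (hη _ _ hD (hb hE))

/-- The Lie derivative along a homogeneous derivation is homogeneous. -/
theorem Lf_hom {η : Form K} {ℓ s : ℝ} (hℓ : HomForm ξ ℓ η) {Y : Derivation ℂ K K}
    (hY : ⁅ξ, Y⁆ = (s : ℂ) • Y) : HomForm ξ (ℓ + s) (Lf Y η) := by
  intro D E
  have h0 : ∀ z : K, ξ (Y z) = Y (ξ z) + (s : ℂ) • Y z := by
    intro z
    have h1 : ⁅ξ, Y⁆ z = (s : ℂ) • Y z := by rw [hY]; rfl
    rw [Derivation.commutator_apply] at h1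
    rw [← h1]
    ring
  have hb : ∀ F : Derivation ℂ K K, ⁅ξ, ⁅Y, F⁆⁆ = ⁅Y, ⁅ξ, F⁆⁆ + (s : ℂ) • ⁅Y, F⁆ := by
    intro F
    rw [leibniz_lie ξ Y F, hY, smul_lie, add_comm]
  have e1 := hℓ D E
  have e2 := hℓ ⁅Y, D⁆ E
  have e3 := hℓ D ⁅Y, E⁆
  rw [hb D, map_add, LinearMap.add_apply, form_smul_left] at e2
  rw [hb E, map_add, form_smul_right] at e3
  have e1' : ξ (η D E) = η ⁅ξ, D⁆ E + η D ⁅ξ, E⁆ + (ℓ : ℂ) • η D E := by
    rw [← e1]; ring
  have e4 := congrArg Y e1'
  rw [map_add, map_add, Derivation.map_smul] at e4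
  rw [Lf_apply, Lf_apply, Lf_apply, map_sub, map_sub, h0, e4, smul_sub, smul_sub]
  have e2' : ξ (η ⁅Y, D⁆ E) = η ⁅Y, ⁅ξ, D⁆⁆ E + (s : ℂ) • η ⁅Y, D⁆ E + η ⁅Y, D⁆ ⁅ξ, E⁆ +
      (ℓ : ℂ) • η ⁅Y, D⁆ E := by
    rw [← e2]; ring
  have e3' : ξ (η D ⁅Y, E⁆) = η ⁅ξ, D⁆ ⁅Y, E⁆ + η D ⁅Y, ⁅ξ, E⁆⁆ + (s : ℂ) • η D ⁅Y, E⁆ +
      (ℓ : ℂ) • η D ⁅Y, E⁆ := by
    rw [← e3]; ring
  rw [e2', e3']
  push_cast
  simp only [add_smul]
  ring

section Endo

variable (hfin : Module.Finite K (Derivation ℂ K K))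
include hfin

/-- A nondegenerate form identifies bilinear forms with endomorphisms. -/
theorem exists_endo {η : Form K} (hinj : ∀ D, (∀ E, η D E = 0) → D = 0) (β : Form K) :
    ∃ J : Derivation ℂ K K →ₗ[K] Derivation ℂ K K, ∀ D E, η (J D) E = β D E := by
  have h1 : Function.Injective η := by
    rw [injective_iff_map_eq_zero]
    intro D hD
    exact hinj D fun E => by rw [hD]; rfl
  have h2 : finrank K (Derivation ℂ K K) = finrank K (Derivation ℂ K K →ₗ[K] K) :=
    (Subspace.dual_finrank_eq (K := K) (V := Derivation ℂ K K)).symm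
  let e : Derivation ℂ K K ≃ₗ[K] (Derivation ℂ K K →ₗ[K] K) :=
    LinearEquiv.ofInjectiveOfFinrankEq η h1 h2
  refine ⟨e.symm.toLinearMap.comp β, fun D E => ?_⟩
  have h3 : η (e.symm (β D)) = β D := e.apply_symm_apply (β D)
  show η (e.symm (β D)) E = β D E
  rw [h3]

end Endo

/-- the trace of an endomorphism computed with a frame -/
noncomputable def trF {d : ℕ} (D : Fin d → Derivation ℂ K K) (g : Fin d → K)
    (J : Derivation ℂ K K → Derivation ℂ K K) : K := ∑ i, J (D i) (g i) / g i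

/-- the matrix of an endomorphism -/
noncomputable def matF {d : ℕ} (D : Fin d → Derivation ℂ K K) (g : Fin d → K)
    (J : Derivation ℂ K K → Derivation ℂ K K) : Matrix (Fin d) (Fin d) K :=
  fun i k => J (D i) (g k) / g k

theorem trF_eq {d : ℕ} (D : Fin d → Derivation ℂ K K) (g : Fin d → K)
    (J : Derivation ℂ K K → Derivation ℂ K K) : trF D g J = (matF D g J).trace := rfl

section Frame

variable {d : ℕ} {D : Fin d → Derivation ℂ K K} {g : Fin d → K} (hD : IsFrame D g)
include hD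

theorem lin_frame (α : Derivation ℂ K K →ₗ[K] K) (E : Derivation ℂ K K) :
    α E = ∑ i, (E (g i) / g i) * α (D i) := by
  conv_lhs => rw [hD.complete E]
  rw [map_sum]
  exact Finset.sum_congr rfl fun i _ => by rw [map_smul, smul_eq_mul]

/-- the trace of a rank one endomorphism -/
theorem trF_rank_one (α : Derivation ℂ K K →ₗ[K] K) (Z : Derivation ℂ K K) :
    trF D g (fun E => α E • Z) = α Z := by
  rw [lin_frame hD α Z, trF]
  refine Finset.sum_congr rfl fun i _ => ?_
  show α (D i) * Z (g i) / g i = Z (g i) / g i * α (D i)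
  ring

theorem matF_mul (J J' : Derivation ℂ K K →ₗ[K] Derivation ℂ K K) :
    matF D g (fun E => J (J' E)) = matF D g J' * matF D g J := by
  ext i k
  rw [Matrix.mul_apply]
  show J (J' (D i)) (g k) / g k = ∑ j, J' (D i) (g j) / g j * (J (D j) (g k) / g k)
  conv_lhs => rw [hD.complete (J' (D i))]
  rw [map_sum, der_sum_apply, Finset.sum_div]
  refine Finset.sum_congr rfl fun j _ => ?_
  rw [map_smul, Derivation.smul_apply, smul_eq_mul, mul_div_assoc]

theorem matF_one : matF D g (fun E => E) = 1 := by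
  ext i k
  show D i (g k) / g k = _
  rw [hD.apply, Matrix.one_apply]
  by_cases h : i = k
  · rw [if_pos h, if_pos h, div_self (hD.ne k)]
  · rw [if_neg h, if_neg h, zero_div]

theorem matF_pow (J : Derivation ℂ K K →ₗ[K] Derivation ℂ K K) (k : ℕ) :
    matF D g (fun E => (J ^ k) E) = matF D g J ^ k := by
  induction k with
  | zero => exact matF_one hD
  | succ k ih =>
    have h1 : (fun E => (J ^ (k + 1)) E) = fun E => J ((J ^ k) E) := by
      funext E
      rw [pow_succ']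
      rfl
    rw [h1, matF_mul hD J (J ^ k), ih, pow_succ]

/-- the trace of a nilpotent endomorphism vanishes -/
theorem trF_nilpotent (J : Derivation ℂ K K →ₗ[K] Derivation ℂ K K) {k : ℕ}
    (hJ : ∀ i, (J ^ k) (D i) = 0) : trF D g J = 0 := by
  have h1 : matF D g J ^ k = 0 := by
    rw [← matF_pow hD]
    ext i j
    show (J ^ k) (D i) (g j) / g j = 0
    rw [hJ i]
    show (0 : K) / g j = 0
    rw [zero_div]
  have h2 : IsNilpotent (matF D g J) := ⟨k, h1⟩
  have h3 := Matrix.isNilpotent_trace_of_isNilpotent h2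
  rw [trF_eq]
  exact h3.eq_zero

end Frame

/-- the ring homomorphism `x ↦ x + ε X x` -/
noncomputable def dualHom (X : Derivation ℂ K K) : K →+* DualNumber K where
  toFun x := TrivSqZeroExt.inl x + TrivSqZeroExt.inr (X x)
  map_one' := by simp
  map_mul' x y := by
    ext
    · simp
    · simp [Derivation.leibniz, smul_eq_mul]
      ring
  map_zero' := by simp
  map_add' x y := by
    ext
    · simp
    · simp

theorem dualHom_fst (X : Derivation ℂ K K) (x : K) : TrivSqZeroExt.fst (dualHom X x) = x := by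
  show TrivSqZeroExt.fst (TrivSqZeroExt.inl x + TrivSqZeroExt.inr (X x)) = x
  rw [TrivSqZeroExt.fst_add, TrivSqZeroExt.fst_inl, TrivSqZeroExt.fst_inr, add_zero]

theorem dualHom_snd (X : Derivation ℂ K K) (x : K) : TrivSqZeroExt.snd (dualHom X x) = X x := by
  show TrivSqZeroExt.snd (TrivSqZeroExt.inl x + TrivSqZeroExt.inr (X x)) = X x
  rw [TrivSqZeroExt.snd_add, TrivSqZeroExt.snd_inl, TrivSqZeroExt.snd_inr, zero_add]

theorem alg_fst (x : K) : TrivSqZeroExt.fst (algebraMap K (DualNumber K) x) = x := rfl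

theorem alg_snd (x : K) : TrivSqZeroExt.snd (algebraMap K (DualNumber K) x) = 0 := rfl

theorem eps_mul_fst (x : DualNumber K) :
    TrivSqZeroExt.fst ((DualNumber.eps : DualNumber K) * x) = 0 := by
  rw [TrivSqZeroExt.fst_mul, DualNumber.fst_eps, zero_mul]

theorem eps_mul_snd (x : DualNumber K) :
    TrivSqZeroExt.snd ((DualNumber.eps : DualNumber K) * x) = TrivSqZeroExt.fst x := by
  rw [TrivSqZeroExt.snd_mul, DualNumber.fst_eps, DualNumber.snd_eps, zero_smul, zero_add]
  show MulOpposite.op (TrivSqZeroExt.fst x) • (1 : K) = _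
  rw [op_smul_eq_smul, smul_eq_mul, mul_one]

/-- Derivative of a determinant. -/
theorem der_det {m : ℕ} (X : Derivation ℂ K K) (M C : Matrix (Fin m) (Fin m) K)
    (h : ∀ i j, X (M i j) = (C * M) i j) : X M.det = C.trace * M.det := by
  have h1 : (dualHom X).mapMatrix M =
      (1 + (DualNumber.eps : DualNumber K) • (algebraMap K (DualNumber K)).mapMatrix C) *
        (algebraMap K (DualNumber K)).mapMatrix M := by
    rw [add_mul, one_mul, Matrix.smul_mul, ← RingHom.map_mul]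
    ext i j
    · show TrivSqZeroExt.fst (dualHom X (M i j)) = TrivSqZeroExt.fst
        (algebraMap K (DualNumber K) (M i j) +
          (DualNumber.eps : DualNumber K) * algebraMap K (DualNumber K) ((C * M) i j))
      rw [TrivSqZeroExt.fst_add, dualHom_fst, alg_fst, eps_mul_fst, add_zero]
    · show TrivSqZeroExt.snd (dualHom X (M i j)) = TrivSqZeroExt.snd
        (algebraMap K (DualNumber K) (M i j) +
          (DualNumber.eps : DualNumber K) * algebraMap K (DualNumber K) ((C * M) i j))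
      rw [TrivSqZeroExt.snd_add, dualHom_snd, alg_snd, eps_mul_snd, alg_fst, zero_add, h]
  have h2 := congrArg Matrix.det h1
  rw [← RingHom.map_det, Matrix.det_mul, Matrix.det_one_add_smul, ← RingHom.map_det] at h2
  have h3 : (DualNumber.eps : DualNumber K) ^ 2 = 0 := by
    rw [pow_two]
    exact DualNumber.eps_mul_eps
  rw [h3, mul_zero, add_zero] at h2
  have h5 : ((algebraMap K (DualNumber K)).mapMatrix C).trace =
      algebraMap K (DualNumber K) C.trace := by
    show ∑ i, algebraMap K (DualNumber K) (C i i) = algebraMap K (DualNumber K) (∑ i, C i i)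
    rw [map_sum]
  rw [h5, add_mul, one_mul] at h2
  have h6 := congrArg TrivSqZeroExt.snd h2
  rw [dualHom_snd, TrivSqZeroExt.snd_add, alg_snd, zero_add, mul_comm _ DualNumber.eps,
    mul_assoc, eps_mul_snd, ← RingHom.map_mul, alg_fst] at h6
  exact h6

/-- A nondegenerate form identifies linear forms with derivations. -/
theorem exists_vec (hfin : Module.Finite K (Derivation ℂ K K)) {η : Form K}
    (hinj : ∀ D, (∀ E, η D E = 0) → D = 0) (α : Derivation ℂ K K →ₗ[K] K) :
    ∃ H : Derivation ℂ K K, ∀ E, η H E = α E := by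
  have h1 : Function.Injective η := by
    rw [injective_iff_map_eq_zero]
    intro D hD
    exact hinj D fun E => by rw [hD]; rfl
  have h2 : finrank K (Derivation ℂ K K) = finrank K (Derivation ℂ K K →ₗ[K] K) :=
    (Subspace.dual_finrank_eq (K := K) (V := Derivation ℂ K K)).symm
  let e : Derivation ℂ K K ≃ₗ[K] (Derivation ℂ K K →ₗ[K] K) :=
    LinearEquiv.ofInjectiveOfFinrankEq η h1 h2
  refine ⟨e.symm α, fun E => ?_⟩
  have h3 : η (e.symm α) = α := e.apply_symm_apply α
  rw [h3]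

theorem form_inj {η : Form K} (hinj : ∀ D, (∀ E, η D E = 0) → D = 0) {A B : Derivation ℂ K K}
    (h : ∀ E, η A E = η B E) : A = B := by
  rw [← sub_eq_zero]
  refine hinj _ fun E => ?_
  rw [map_sub, LinearMap.sub_apply, h, sub_self]

/-- degree of an endomorphism given by a homogeneous form -/
theorem endo_deg {η β : Form K} (hinj : ∀ D, (∀ E, η D E = 0) → D = 0) {ℓ b : ℝ}
    (hℓ : HomForm ξ ℓ η) (hb : HomForm ξ (ℓ + b) β)
    {J : Derivation ℂ K K →ₗ[K] Derivation ℂ K K} (hJ : ∀ D E, η (J D) E = β D E)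
    {D : Derivation ℂ K K} {c : ℝ} (hD : ⁅ξ, D⁆ = (c : ℂ) • D) :
    ⁅ξ, J D⁆ = ((c + b : ℝ) : ℂ) • J D := by
  refine form_inj hinj fun E => ?_
  have e1 := hℓ (J D) E
  have e2 := hb D E
  rw [hD, form_smul_left] at e2
  rw [← hJ, ← hJ] at e2
  rw [form_smul_left]
  have e3 : η ⁅ξ, J D⁆ E = ξ (η (J D) E) - η (J D) ⁅ξ, E⁆ - (ℓ : ℂ) • η (J D) E := by
    rw [← e1]; ring
  have e4 : ξ (η (J D) E) = (c : ℂ) • η (J D) E + η (J D) ⁅ξ, E⁆ +
      ((ℓ + b : ℝ) : ℂ) • η (J D) E := by
    rw [← e2]; ring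
  rw [e3, e4]
  push_cast
  simp only [add_smul]
  ring

theorem endo_pow_hom {J : Derivation ℂ K K →ₗ[K] Derivation ℂ K K} {b : ℝ}
    (hJ : ∀ (D : Derivation ℂ K K) (c : ℝ), Pres R D → ⁅ξ, D⁆ = (c : ℂ) • D →
      Pres R (J D) ∧ ⁅ξ, J D⁆ = ((c + b : ℝ) : ℂ) • J D) {D : Derivation ℂ K K} {c : ℝ}
    (hD : Pres R D) (hc : ⁅ξ, D⁆ = (c : ℂ) • D) (k : ℕ) :
    Pres R ((J ^ k) D) ∧ ⁅ξ, (J ^ k) D⁆ = ((c + k * b : ℝ) : ℂ) • (J ^ k) D := by
  induction k with
  | zero =>
    have e : c + ((0 : ℕ) : ℝ) * b = c := by simp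
    rw [e]
    exact ⟨hD, hc⟩
  | succ k ih =>
    have e : (J ^ (k + 1)) D = J ((J ^ k) D) := by rw [pow_succ']; rfl
    have e2 : c + ((k + 1 : ℕ) : ℝ) * b = c + k * b + b := by push_cast; ring
    rw [e, e2]
    exact hJ _ _ ih.1 ih.2

/-- An endomorphism of negative degree of `Der R` is nilpotent. -/
theorem endo_nilp (h : IsCone R ξ) {J : Derivation ℂ K K →ₗ[K] Derivation ℂ K K} {b : ℝ}
    (hb : b < 0)
    (hJ : ∀ (D : Derivation ℂ K K) (c : ℝ), Pres R D → ⁅ξ, D⁆ = (c : ℂ) • D →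
      Pres R (J D) ∧ ⁅ξ, J D⁆ = ((c + b : ℝ) : ℂ) • J D) {D : Derivation ℂ K K} {c : ℝ}
    (hc : ⁅ξ, D⁆ = (c : ℂ) • D) : ∃ N : ℕ, ∀ k, N ≤ k → (J ^ k) D = 0 := by
  obtain ⟨q, a, hqR, hq0, hqa, hqD⟩ := h.der_den hc
  obtain ⟨B, hB⟩ := h.der_bdd
  obtain ⟨N, hN⟩ := exists_nat_gt ((c + a + B) / (-b))
  have hb' : 0 < -b := by linarith
  rw [div_lt_iff₀ hb'] at hN
  refine ⟨N, fun k hk => ?_⟩
  by_contra h0
  have h1 := endo_pow_hom hJ hqD (hom_smul hc hqa) k
  have h2 : (J ^ k) (q • D) = q • (J ^ k) D := map_smul _ _ _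
  have h3 : (J ^ k) (q • D) ≠ 0 := by
    rw [h2]
    exact smul_ne_zero hq0 h0
  have h4 := hB _ _ h1.1 h1.2 h3
  have h5 : (N : ℝ) ≤ k := by exact_mod_cast hk
  have h6 := mul_le_mul_of_nonneg_right h5 hb'.le
  linarith

theorem trF_add {d : ℕ} (D : Fin d → Derivation ℂ K K) (g : Fin d → K)
    (J J' : Derivation ℂ K K → Derivation ℂ K K) :
    trF D g (fun E => J E + J' E) = trF D g J + trF D g J' := by
  rw [trF, trF, trF, ← Finset.sum_add_distrib]
  exact Finset.sum_congr rfl fun i _ => by rw [Derivation.add_apply, add_div]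

theorem trF_smul {d : ℕ} (D : Fin d → Derivation ℂ K K) (g : Fin d → K) (f : K)
    (J : Derivation ℂ K K → Derivation ℂ K K) :
    trF D g (fun E => f • J E) = f * trF D g J := by
  rw [trF, trF, Finset.mul_sum]
  exact Finset.sum_congr rfl fun i _ => by
    rw [Derivation.smul_apply, smul_eq_mul, mul_div_assoc]

/-- the volume form of a nondegenerate form has weight `1` under `f Y` if `Y f = 1` -/
theorem slice_det (h : IsCone R ξ) (hfin : Module.Finite K (Derivation ℂ K K)) {η : Form K}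
    (hη : IsNondeg R η) {ℓ : ℝ} (hℓ : HomForm ξ ℓ η) {Y : Derivation ℂ K K} (hYR : Pres R Y)
    {s : ℝ} (hs : 0 < s) (hY : ⁅ξ, Y⁆ = ((-s : ℝ) : ℂ) • Y) {f : K} (hf : Y f = 1) {n : ℕ}
    {D : Fin (2 * n) → Derivation ℂ K K} {g : Fin (2 * n) → K} (hD : IsFrame D g)
    (hξ : ∀ i, ⁅ξ, D i⁆ = 0) (hG : ∀ i, ⁅f • Y, D i⁆ = 0) :
    (f • Y) (gram η D).det = 2 * (gram η D).det := by
  obtain ⟨JG, hJG⟩ := exists_endo hfin hη.inj (Lf (f • Y) η)
  obtain ⟨JY, hJY⟩ := exists_endo hfin hη.inj (Lf Y η)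
  obtain ⟨H, hH⟩ := exists_vec hfin hη.inj (evd f)
  have hH' : ∀ E, η H E = E f := hH
  have hsplit : ∀ E, JG E = (f • JY E + E f • Y) + η E Y • H := by
    intro E
    refine form_inj hη.inj fun F => ?_
    rw [hJG, Lf_fsmul]
    simp only [map_add, map_smul, LinearMap.add_apply, LinearMap.smul_apply, smul_eq_mul]
    rw [hJY, hH']
    ring
  have hnil : ∀ i, ∃ N : ℕ, ∀ k, N ≤ k → (JY ^ k) (D i) = 0 := by
    intro i
    refine endo_nilp h (b := -s) (by linarith) (fun E c hE hc => ⟨?_, ?_⟩) (c := 0)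
      (by rw [hξ i]; simp)
    · refine hη.perfect _ fun F hF => ?_
      rw [hJY]
      exact Lf_reg hη.reg hYR hE hF
    · exact endo_deg hη.inj hℓ (Lf_hom hℓ hY) hJY hc
  choose N hN using hnil
  have htr0 : trF D g JY = 0 :=
    trF_nilpotent hD JY (k := ∑ i, N i) fun i => hN i _
      (Finset.single_le_sum (fun j _ => Nat.zero_le (N j)) (Finset.mem_univ i))
  have htr : (matF D g JG).trace = 2 := by
    rw [← trF_eq]
    have e1 : (fun E => JG E) = fun E => (f • JY E + E f • Y) + η E Y • H := funext hsplit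
    show trF D g (fun E => JG E) = 2
    rw [e1, trF_add D g (fun E => f • JY E + E f • Y) (fun E => η E Y • H),
      trF_add D g (fun E => f • JY E) (fun E => E f • Y), trF_smul D g f JY, htr0]
    have e2 : trF D g (fun E => E f • Y) = 1 := by
      have := trF_rank_one hD (evd f) Y
      rw [← hf]
      exact this
    have e3 : trF D g (fun E => η E Y • H) = 1 := by
      have := trF_rank_one hD (η.flip Y) H
      have e4 : η.flip Y H = 1 := by
        rw [LinearMap.flip_apply, hH', hf]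
      rw [e4] at this
      exact this
    rw [e2, e3]
    norm_num
  rw [← htr]
  refine der_det _ _ _ fun i j => ?_
  have e5 : (f • Y) (gram η D i j) = η (JG (D i)) (D j) := by
    rw [hJG, Lf_apply, hG i, hG j]
    simp [gram]
  rw [e5, Matrix.mul_apply]
  conv_lhs => rw [hD.complete (JG (D i))]
  rw [map_sum, LinearMap.sum_apply]
  refine Finset.sum_congr rfl fun k _ => ?_
  rw [map_smul, LinearMap.smul_apply, smul_eq_mul]
  rfl

end Pool.Agent.Helper37.SD
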