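import Pool.Agent.Helper37.SD.Forms
import Pool.Agent.Helper37.SD.GrDefs

/-!
# The degeneration of a symplectic form
-/

set_option autoImplicit false

namespace Pool.Agent.Helper37.SD

open Module

variable {K : Type} [Field K] [Algebra ℂ K] {K₀ : Type} [Field K₀] [Algebra ℂ K₀]
  {R : Subalgebra ℂ K} {v : RVal K} {R₀ : Subalgebra ℂ K₀} {ξ : Derivation ℂ K₀ K₀}
  {sym : ℝ → K → K₀}

namespace IsGr

variable (h : IsGr R v R₀ ξ sym)
include h

theorem zero (c : ℝ) : sym c 0 = 0 := (h.zero_iff c 0 (Or.inl rfl)).mpr (Or.inl rfl)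

theorem neg (c : ℝ) {x : K} (hx : v.Ge c x) : sym c (-x) = -sym c x := by
  have h1 := h.add c x (-x) hx (v.ge_neg hx)
  rw [add_neg_cancel, h.zero] at h1
  exact (neg_eq_of_add_eq_zero_right h1.symm).symm

theorem sub (c : ℝ) {x y : K} (hx : v.Ge c x) (hy : v.Ge c y) :
    sym c (x - y) = sym c x - sym c y := by
  rw [sub_eq_add_neg, h.add c x (-y) hx (v.ge_neg hy), h.neg c hy, sub_eq_add_neg]

theorem sum (c : ℝ) {ι : Type} (s : Finset ι) (x : ι → K) (hx : ∀ i ∈ s, v.Ge c (x i)) :
    sym c (∑ i ∈ s, x i) = ∑ i ∈ s, sym c (x i) := by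
  classical
  induction s using Finset.induction_on with
  | empty => rw [Finset.sum_empty, Finset.sum_empty]; exact h.zero c
  | insert a s ha ih =>
    have h1 : ∀ i ∈ s, v.Ge c (x i) := fun i hi => hx i (Finset.mem_insert_of_mem hi)
    rw [Finset.sum_insert ha, Finset.sum_insert ha,
      h.add c _ _ (hx a (Finset.mem_insert_self a s)) (v.ge_sum s x h1), ih h1]

theorem one : sym 0 1 = 1 := by
  have := h.const 1
  rwa [map_one, map_one] at this

theorem prod {ι : Type} (s : Finset ι) (c : ι → ℝ) (x : ι → K)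
    (hx : ∀ i ∈ s, v.Ge (c i) (x i)) :
    sym (∑ i ∈ s, c i) (∏ i ∈ s, x i) = ∏ i ∈ s, sym (c i) (x i) := by
  classical
  induction s using Finset.induction_on with
  | empty =>
    rw [Finset.sum_empty, Finset.prod_empty, Finset.prod_empty]
    exact h.one
  | insert a s ha ih =>
    have h1 : ∀ i ∈ s, v.Ge (c i) (x i) := fun i hi => hx i (Finset.mem_insert_of_mem hi)
    rw [Finset.sum_insert ha, Finset.prod_insert ha, Finset.prod_insert ha,
      h.mul _ _ _ _ (hx a (Finset.mem_insert_self a s)) (v.ge_prod s c x h1), ih h1]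

theorem det {m : ℕ} {c : ℝ} {M : Matrix (Fin m) (Fin m) K} (hM : ∀ i j, v.Ge c (M i j)) :
    sym (m * c) M.det = (Matrix.of fun i j => sym c (M i j)).det := by
  rw [Matrix.det_apply, Matrix.det_apply]
  have h0 : ∀ σ : Equiv.Perm (Fin m), v.Ge (m * c) (∏ i, M (σ i) i) := by
    intro σ
    have := v.ge_prod Finset.univ (fun _ => c) (fun i => M (σ i) i) (fun i _ => hM _ _)
    simpa using this
  have hp : ∀ σ : Equiv.Perm (Fin m), sym (m * c) (∏ i, M (σ i) i) =
      ∏ i, sym c (M (σ i) i) := by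
    intro σ
    have := h.prod Finset.univ (fun _ => c) (fun i => M (σ i) i) (fun i _ => hM _ _)
    simpa using this
  have hs : ∀ σ : Equiv.Perm (Fin m), v.Ge (m * c) (Equiv.Perm.sign σ • ∏ i, M (σ i) i) ∧
      sym (m * c) (Equiv.Perm.sign σ • ∏ i, M (σ i) i) =
        Equiv.Perm.sign σ • ∏ i, sym c (M (σ i) i) := by
    intro σ
    rcases Int.units_eq_one_or (Equiv.Perm.sign σ) with hs | hs
    · rw [hs, one_smul, one_smul]
      exact ⟨h0 σ, hp σ⟩
    · rw [hs]
      have e : ∀ {A : Type} [Field A] (z : A), ((-1 : ℤˣ) • z) = -z := by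
        intro A _ z
        rw [Units.smul_def]
        simp
      rw [e, e]
      exact ⟨v.ge_neg (h0 σ), by rw [h.neg _ (h0 σ), hp σ]⟩
  rw [h.sum _ _ _ fun σ _ => (hs σ).1]
  exact Finset.sum_congr rfl fun σ _ => (hs σ).2

/-- `sym c x` is homogeneous of degree `c`, also for `x` in the field. -/
theorem eig (hR : IsFrac R) (c : ℝ) {x : K} (hx : v.Ge c x) :
    ξ (sym c x) = (c : ℂ) • sym c x := by
  obtain ⟨a, ha, b, hb, hb0, e⟩ := hR x
  have hbv : v.Ge (v.val b) b := Or.inr le_rfl
  have e1 : x * b = a := by rw [e, div_mul_cancel₀ _ hb0]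
  have h1 := h.mul c (v.val b) x b hx hbv
  have hav : v.Ge (c + v.val b) a := by
    rw [← e1]
    exact v.ge_mul hx hbv
  rw [e1] at h1
  have h2 := (h.mem _ a ha hav).2
  have h3 := (h.mem _ b hb hbv).2
  have h4 : sym (v.val b) b ≠ 0 := by
    intro h0
    rcases (h.zero_iff _ b hbv).mp h0 with h5 | h5
    · exact hb0 h5
    · exact lt_irrefl _ h5
  rw [h1, Derivation.leibniz, h3, smul_eq_mul, smul_eq_mul] at h2
  have h5 : sym (v.val b) b * ξ (sym c x) = sym (v.val b) b * ((c : ℂ) • sym c x) := by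
    push_cast at h2
    rw [add_smul, mul_smul_comm] at h2
    rw [mul_smul_comm]
    have h6 : sym (v.val b) b * ξ (sym c x) = (c : ℂ) • (sym c x * sym (v.val b) b) := by
      linear_combination h2
    rw [h6, mul_comm (sym c x)]
  exact mul_left_cancel₀ h4 h5

end IsGr

/-! ## Tensoriality -/

section Tensor

/-- `dω` -/
def dform (ω : Form K) (A B C : Derivation ℂ K K) : K :=
  A (ω B C) - B (ω A C) + C (ω A B) - ω ⁅A, B⁆ C + ω ⁅A, C⁆ B - ω ⁅B, C⁆ A

theorem closed_iff {ω : Form K} : Closed ω ↔ ∀ A B C, dform ω A B C = 0 := Iff.rfl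

variable {ω : Form K}

theorem dform_fst (B C : Derivation ℂ K K) : ∃ α : Derivation ℂ K K →ₗ[K] K,
    ∀ A, α A = dform ω A B C := by
  refine ⟨{ toFun := fun A => dform ω A B C
            map_add' := fun A A' => ?_
            map_smul' := fun f A => ?_ }, fun A => rfl⟩
  · simp only [dform, add_lie, map_add, LinearMap.add_apply, Derivation.add_apply]
    ring
  · simp only [dform, fsmul_lie, map_sub, map_smul, LinearMap.sub_apply, LinearMap.smul_apply,
      Derivation.smul_apply, smul_eq_mul, Derivation.leibniz, RingHom.id_apply]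
    ring

variable (ha : ∀ D, ω D D = 0)
include ha

theorem dform_swap (A B C : Derivation ℂ K K) : dform ω A B C = -dform ω B A C := by
  have e1 : ω ⁅B, A⁆ C = -ω ⁅A, B⁆ C := by
    rw [← lie_skew B A, map_neg, LinearMap.neg_apply]
  have e2 : C (ω B A) = -C (ω A B) := by rw [alt_neg ha B A, map_neg]
  simp only [dform]
  rw [e1, e2]
  ring

theorem dform_swap' (A B C : Derivation ℂ K K) : dform ω A B C = -dform ω A C B := by
  have e1 : ω ⁅C, B⁆ A = -ω ⁅B, C⁆ A := by
    rw [← lie_skew C B, map_neg, LinearMap.neg_apply]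
  have e2 : A (ω C B) = -A (ω B C) := by rw [alt_neg ha C B, map_neg]
  simp only [dform]
  rw [e1, e2]
  ring

/-- A form is closed if this holds for a commuting frame. -/
theorem closed_of_frame {d : ℕ} {D : Fin d → Derivation ℂ K K} {g : Fin d → K}
    (hD : IsFrame D g) (h : ∀ i j k, dform ω (D i) (D j) (D k) = 0) : Closed ω := by
  have key : ∀ B C : Derivation ℂ K K, (∀ i, dform ω (D i) B C = 0) →
      ∀ A, dform ω A B C = 0 := by
    intro B C hi A
    obtain ⟨α, hα⟩ := dform_fst B C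
    rw [← hα, lin_frame hD α A]
    refine Finset.sum_eq_zero fun i _ => ?_
    rw [hα, hi, mul_zero]
  rw [closed_iff]
  have h1 : ∀ A j k, dform ω A (D j) (D k) = 0 := fun A j k => key _ _ (fun i => h i j k) A
  have h2 : ∀ A B k, dform ω A B (D k) = 0 := by
    intro A B k
    rw [dform_swap ha, neg_eq_zero]
    refine key _ _ (fun i => ?_) B
    rw [dform_swap ha, h1, neg_zero]
  intro A B C
  rw [dform_swap' ha, neg_eq_zero, dform_swap ha, neg_eq_zero]
  refine key _ _ (fun i => ?_) C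
  rw [dform_swap ha, dform_swap' ha, h2, neg_zero, neg_zero]

omit ha in
/-- bilinear forms which agree on a frame are equal -/
theorem form_ext_frame {d : ℕ} {D : Fin d → Derivation ℂ K K} {g : Fin d → K}
    (hD : IsFrame D g) {α β : Form K} (h : ∀ i j, α (D i) (D j) = β (D i) (D j))
    (A B : Derivation ℂ K K) : α A B = β A B := by
  have h1 : ∀ i B, α (D i) B = β (D i) B := by
    intro i B
    rw [lin_frame hD (α (D i)) B, lin_frame hD (β (D i)) B]
    exact Finset.sum_congr rfl fun j _ => by rw [h i j]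
  have h2 := lin_frame hD (α.flip B) A
  have h3 := lin_frame hD (β.flip B) A
  rw [LinearMap.flip_apply] at h2 h3
  rw [h2, h3]
  exact Finset.sum_congr rfl fun i _ => by
    rw [LinearMap.flip_apply, LinearMap.flip_apply, h1]

end Tensor

theorem inj_of_det {n : ℕ} {ω : Form K} {D : Fin (2 * n) → Derivation ℂ K K}
    {g : Fin (2 * n) → K} (hD : IsFrame D g) (hdet : (gram ω D).det ≠ 0)
    (X : Derivation ℂ K K) (hX : ∀ E, ω X E = 0) : X = 0 := by
  have h1 : Matrix.vecMul (fun i => X (g i) / g i) (gram ω D) = 0 := by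
    funext j
    have h2 := lin_frame hD (ω.flip (D j)) X
    rw [LinearMap.flip_apply, hX] at h2
    rw [Matrix.vecMul, dotProduct]
    show _ = (0 : K)
    exact h2.symm
  have h2 := Matrix.eq_zero_of_vecMul_eq_zero hdet h1
  rw [hD.complete X]
  refine Finset.sum_eq_zero fun i _ => ?_
  have h3 := congrFun h2 i
  simp only [Pi.zero_apply] at h3
  rw [h3, zero_smul]

/-- The degeneration of a symplectic form to a cone which has a homogeneous nondegenerate 2-form
is a symplectic form. -/
theorem degen_symplectic (h : IsCone R₀ ξ) (hR : IsFrac R) (hgr : IsGr R v R₀ ξ sym)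
    {v₀ : RVal K₀} (hv : IsWt R₀ ξ v₀) {n : ℕ} (hq : QuasiMonomial (2 * n) v sym)
    {η : Form K₀} (hη : IsNondeg R₀ η) {ℓ : ℝ} (hℓ : HomForm ξ ℓ η) {a V : ℝ}
    (hmin : UniqueMin n R₀ η v₀ a V) {ω : Form K} (hω : IsNondeg R ω) (hcl : Closed ω)
    (hdisc : HasLogDisc n ω v a) {ω₀ : Form K₀} {k : ℝ} (hdeg : IsDegen v sym ω k ω₀)
    (hreg : IsReg R₀ ω₀) (hk : k ≠ 0) :
    k = ℓ ∧ IsNondeg R₀ ω₀ ∧ Closed ω₀ ∧ HomForm ξ k ω₀ := by
  obtain ⟨g, D, D₀, hD, hD₀, hind⟩ := hq
  have hfin₀ : Module.Finite K₀ (Derivation ℂ K₀ K₀) := by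
    refine Module.Finite.of_injective
      (LinearMap.pi fun i => (evd (sym (v.val (g i)) (g i)) : Derivation ℂ K₀ K₀ →ₗ[K₀] K₀)) ?_
    rw [injective_iff_map_eq_zero]
    intro E hE
    exact hD₀.ext fun i => congrFun hE i
  have hd₀ : finrank K₀ (Derivation ℂ K₀ K₀) = 2 * n := by
    have hli : LinearIndependent K₀ D₀ := by
      rw [Fintype.linearIndependent_iff]
      exact fun c hc i => hD₀.linInd hc i
    have hsp : ⊤ ≤ Submodule.span K₀ (Set.range D₀) := by
      intro E _
      rw [hD₀.complete E]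
      exact Submodule.sum_mem _ fun i _ => Submodule.smul_mem _ _
        (Submodule.subset_span ⟨i, rfl⟩)
    have := finrank_eq_card_basis (Basis.mk hli hsp)
    rwa [Fintype.card_fin] at this
  -- the frame commutes with `ξ`, and is commuting
  have hξ : ∀ i, ⁅ξ, D₀ i⁆ = 0 := fun i =>
    hD₀.comm (c := fun i => ((v.val (g i) : ℝ) : ℂ)) (fun i => hgr.eig hR _ (Or.inr le_rfl)) i
  have hcomm : ∀ {F : Type} [Field F] [Algebra ℂ F] {D : Fin (2 * n) → Derivation ℂ F F}
      {g : Fin (2 * n) → F}, IsFrame D g → ∀ i j, ⁅D i, D j⁆ = 0 := by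
    intro F _ _ D g hD i j
    refine hD.comm (c := fun l => if i = l then 1 else 0) (fun l => ?_) j
    rw [hD.apply]
    by_cases hil : i = l
    · simp [hil]
    · simp [hil]
  have hge : ∀ i j, v.Ge k (ω (D i) (D j)) := fun i j => hdeg.ge _ _ _ _ (hind i) (hind j)
  have hlead : ∀ i j, ω₀ (D₀ i) (D₀ j) = sym k (ω (D i) (D j)) :=
    fun i j => hdeg.lead _ _ _ _ (hind i) (hind j)
  -- log derivations preserve the filtration
  have hgeD : ∀ i c x, v.Ge c x → v.Ge c (D i x) := by
    intro i c x hx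
    by_cases hx0 : x = 0
    · rw [hx0, map_zero]
      exact Or.inl rfl
    · exact v.ge_mono (hx.resolve_left hx0) ((hind i).1 x hx0)
  have hcl₀ : Closed ω₀ := by
    refine closed_of_frame hreg.alt hD₀ fun i j l => ?_
    have e := hcl (D i) (D j) (D l)
    rw [hcomm hD i j, hcomm hD i l, hcomm hD j l] at e
    simp only [map_zero, LinearMap.zero_apply, sub_zero, add_zero] at e
    have e' := congrArg (sym k) e
    rw [hgr.zero, hgr.add _ _ _ (v.ge_sub (hgeD i _ _ (hge j l)) (hgeD j _ _ (hge i l)))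
      (hgeD l _ _ (hge i j)), hgr.sub _ (hgeD i _ _ (hge j l)) (hgeD j _ _ (hge i l)),
      ← (hind i).2 _ _ (hge j l), ← (hind j).2 _ _ (hge i l), ← (hind l).2 _ _ (hge i j),
      ← hlead, ← hlead, ← hlead] at e'
    simp only [dform]
    rw [hcomm hD₀ i j, hcomm hD₀ i l, hcomm hD₀ j l]
    simp only [map_zero, LinearMap.zero_apply, sub_zero, add_zero]
    exact e'
  have hhom : HomForm ξ k ω₀ := by
    have key := form_ext_frame hD₀ (α := Lf ξ ω₀) (β := algebraMap ℂ K₀ (k : ℂ) • ω₀)
      (fun i j => by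
        rw [Lf_apply, hξ i, hξ j, map_zero, LinearMap.zero_apply, map_zero, sub_zero, sub_zero,
          hlead, hgr.eig hR k (hge i j), ← hlead]
        rw [LinearMap.smul_apply, LinearMap.smul_apply, algebraMap_smul])
    intro A B
    have := key A B
    rw [LinearMap.smul_apply, LinearMap.smul_apply, algebraMap_smul] at this
    exact this
  -- values of determinants
  have hdet := gram_det_ne_zero hD hω.alt hω.inj
  have hval : v.val (gram ω D).det / 2 = a :=
    (hasLogDisc_of_frame hD (fun i => (hind i).1) hdet).unique hdisc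
  have ha : a = n * ℓ := hmin.1.unique (logDisc_wt h hv hfin₀ hd₀ hη.alt hη.inj hℓ)
  have hval' : v.val (gram ω D).det = ((2 * n : ℕ) : ℝ) * ℓ := by
    push_cast
    linarith
  have hn : 0 < ((2 * n : ℕ) : ℝ) := by
    have : 0 < 2 * n := by
      rcases Nat.eq_zero_or_pos (2 * n) with h0 | h0
      · exfalso
        apply hdeg.ne
        have h1 : Subsingleton (Derivation ℂ K₀ K₀) := by
          rw [h0] at hd₀
          exact Module.finrank_zero_iff.mp hd₀
        ext A B : 2
        have : A = 0 := Subsingleton.elim _ _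
        rw [this, map_zero]
        rfl
      · exact h0
    exact_mod_cast this
  have hkℓ : k ≤ ℓ := by
    have h1 := (v.ge_det (c := k) (M := gram ω D) hge).resolve_left hdet
    rw [hval'] at h1
    exact le_of_mul_le_mul_left h1 hn
  have hk_eq : k = ℓ := by
    rcases lt_or_eq_of_le hkℓ with h1 | h1
    · exact absurd (two_form_zero h hv hfin₀ hd₀ hη hℓ hmin hreg hcl₀ hhom hk h1) hdeg.ne
    · exact h1
  have hdet₀ : (gram ω₀ D₀).det ≠ 0 := by
    have h1 : (Matrix.of fun i j => sym k (gram ω D i j)) = gram ω₀ D₀ := by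
      ext i j
      exact (hlead i j).symm
    have h3 := hgr.det (M := gram ω D) hge
    rw [← h1, ← h3]
    intro h0
    rcases (hgr.zero_iff _ _ (v.ge_det hge)).mp h0 with h2 | h2
    · exact hdet h2
    · have h4 : ((2 * n : ℕ) : ℝ) * k < v.val (gram ω D).det := h2
      rw [hval', hk_eq] at h4
      exact lt_irrefl _ h4
  refine ⟨hk_eq, ?_, hcl₀, hhom⟩
  rw [hk_eq] at hhom
  exact nondeg_of_inj h hfin₀ hη hℓ hreg hhom (inj_of_det hD₀ hdet₀)

end Pool.Agent.Helper37.SD
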