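import Pool.Agent.Helper37.SD.Conj

/-!
# A cone whose valuation is the unique minimiser has no derivations of negative degree fixing the
vertex
-/

set_option autoImplicit false

namespace Pool.Agent.Helper37.SD

open Module Filter Topology

variable {K : Type} [Field K] [Algebra ℂ K] {R : Subalgebra ℂ K} {ξ : Derivation ℂ K K}

section Iter

variable {Y : Derivation ℂ K K} {s : ℝ}

theorem iter_eig (hY : ⁅ξ, Y⁆ = ((-s : ℝ) : ℂ) • Y) {x : K} {a : ℝ} (hx : ξ x = (a : ℂ) • x)
    (k : ℕ) : ξ (Y^[k] x) = ((a - k * s : ℝ) : ℂ) • Y^[k] x := by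
  induction k with
  | zero =>
    have e : a - ((0 : ℕ) : ℝ) * s = a := by simp
    rw [e]
    exact hx
  | succ k ih =>
    rw [Function.iterate_succ_apply', hom_apply hY ih]
    congr 2
    push_cast
    ring

theorem locNil_of_neg (h : IsCone R ξ) (hYR : Pres R Y) (hs : 0 < s)
    (hY : ⁅ξ, Y⁆ = ((-s : ℝ) : ℂ) • Y) : LocNil R Y := by
  have h1 : ∀ x ∈ RH R ξ (fun c => 0 ≤ c), ∃ N, Y^[N] x = 0 := by
    intro x hx
    induction hx using Submodule.span_induction with
    | mem y hy =>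
      obtain ⟨hyR, c, _, hyc⟩ := hy
      have hyc : ξ y = (c : ℂ) • y := hyc
      obtain ⟨N, hN⟩ := exists_nat_gt (c / s)
      refine ⟨N, ?_⟩
      by_contra h0
      have h2 := h.eig_nonneg (iter_mem hYR hyR N) h0 (iter_eig hY hyc N)
      rw [div_lt_iff₀ hs] at hN
      linarith
    | zero => exact ⟨0, rfl⟩
    | add x y _ _ hx hy =>
      obtain ⟨N, hN⟩ := hx
      obtain ⟨M, hM⟩ := hy
      refine ⟨max N M, ?_⟩
      rw [iter_add, iter_zero_of_le (le_max_left N M) hN, iter_zero_of_le (le_max_right N M) hM,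
        add_zero]
    | smul z x _ hx =>
      obtain ⟨N, hN⟩ := hx
      exact ⟨N, by rw [iter_smul, hN, smul_zero]⟩
  exact fun x hx => h1 x (h.span x hx)

theorem low_of_neg (hYR : Pres R Y) (hs : 0 < s)
    (hY : ⁅ξ, Y⁆ = ((-s : ℝ) : ℂ) • Y) (hN : LocNil R Y) {φ : K ≃ₐ[ℂ] K}
    (hφ : ∀ x ∈ R, ∀ N : ℕ, Y^[N] x = 0 → φ x = expN Y N x) : Low R ξ φ := by
  intro x hx a ha
  obtain ⟨N, hNx⟩ := hN x hx
  have h1 := iter_zero_of_le (Nat.le_succ N) hNx
  rw [hφ x hx (N + 1) h1, expN, Finset.sum_range_succ', dp_zero, add_sub_cancel_right]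
  refine Submodule.sum_mem _ fun k _ => ?_
  refine Submodule.smul_mem _ _ (mem_hsp (iter_mem hYR hx (k + 1)) ?_ (iter_eig hY ha (k + 1)))
  push_cast
  have : 0 < ((k : ℝ) + 1) * s := by positivity
  linarith

theorem neg_eig (hY : ⁅ξ, Y⁆ = ((-s : ℝ) : ℂ) • Y) : ⁅ξ, -Y⁆ = ((-s : ℝ) : ℂ) • (-Y) := by
  rw [lie_neg, hY, smul_neg]

end Iter

/-- Colengths are invariant under automorphisms of `R`. -/
theorem finrank_comap {v : RVal K} {φ : K ≃ₐ[ℂ] K} (h1 : ∀ x ∈ R, φ x ∈ R)
    (h2 : ∀ x ∈ R, φ.symm x ∈ R) (c : ℝ) :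
    finrank ℂ (R ⧸ idl R (v.comap φ) c) = finrank ℂ (R ⧸ idl R v c) := by
  let e : R ≃ₗ[ℂ] R :=
    { toFun := fun x => ⟨φ x, h1 x x.2⟩
      invFun := fun x => ⟨φ.symm x, h2 x x.2⟩
      left_inv := fun x => Subtype.ext (φ.symm_apply_apply x)
      right_inv := fun x => Subtype.ext (φ.apply_symm_apply x)
      map_add' := fun x y => Subtype.ext (map_add φ (x : K) (y : K))
      map_smul' := fun z x => Subtype.ext (map_smul φ z (x : K)) }
  refine LinearEquiv.finrank_eq (Submodule.Quotient.equiv _ _ e ?_)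
  ext x
  constructor
  · rintro ⟨y, hy, rfl⟩
    exact (v.comap_ge φ c (y : K)).mp hy
  · intro hx
    refine ⟨e.symm x, ?_, e.apply_symm_apply x⟩
    refine (v.comap_ge φ c ((e.symm x : R) : K)).mpr ?_
    have h3 : φ ((e.symm x : R) : K) = (x : K) := φ.apply_symm_apply x
    rw [h3]
    exact hx

theorem hasVol_comap {n : ℕ} {v : RVal K} {φ : K ≃ₐ[ℂ] K} (h1 : ∀ x ∈ R, φ x ∈ R)
    (h2 : ∀ x ∈ R, φ.symm x ∈ R) {V : ℝ} (h : HasVol n R v V) : HasVol n R (v.comap φ) V := by
  unfold HasVol at h ⊢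
  simp only [finrank_comap h1 h2]
  exact h

theorem exists_hom_frame (h : IsCone R ξ) {d : ℕ} (hfin : Module.Finite K (Derivation ℂ K K))
    (hd : finrank K (Derivation ℂ K K) = d) :
    ∃ (D : Fin d → Derivation ℂ K K) (g : Fin d → K), IsFrame D g ∧
      (∀ i, g i ∈ R ∧ ∃ c : ℝ, ξ (g i) = (c : ℂ) • g i) := by
  obtain ⟨D, g, h1, h2⟩ := exists_frame hd hfin
    {x | x ∈ R ∧ x ≠ 0 ∧ ∃ c : ℝ, ξ x = (c : ℂ) • x} (fun x hx => hx.2.1) (by
      intro D hD
      refine der_eq_zero h.frac fun x hx => ?_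
      have h1 : RH R ξ (fun c => 0 ≤ c) ≤ LinearMap.ker (D : K →ₗ[ℂ] K) := by
        refine Submodule.span_le.mpr ?_
        rintro y ⟨hyR, c, _, hyc⟩
        by_cases hy0 : y = 0
        · rw [hy0]
          exact Submodule.zero_mem _
        · exact hD y ⟨hyR, hy0, c, hyc⟩
      exact h1 (h.span x hx))
  exact ⟨D, g, h2, fun i => ⟨(h1 i).1, (h1 i).2.2⟩⟩

theorem frame_comm {d : ℕ} {D : Fin d → Derivation ℂ K K} {g : Fin d → K} (h : IsFrame D g)
    (hg : ∀ i, ∃ c : ℝ, ξ (g i) = (c : ℂ) • g i) (i : Fin d) : ⁅ξ, D i⁆ = 0 := by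
  choose c hc using hg
  exact h.comm (c := fun i => ((c i : ℝ) : ℂ)) hc i

/-- The log discrepancy of the valuation of a cone. -/
theorem logDisc_wt (h : IsCone R ξ) {v : RVal K} (hv : IsWt R ξ v) {n : ℕ}
    (hfin : Module.Finite K (Derivation ℂ K K)) (hd : finrank K (Derivation ℂ K K) = 2 * n)
    {η : Form K} (halt : ∀ D, η D D = 0) (hinj : ∀ D, (∀ E, η D E = 0) → D = 0) {ℓ : ℝ}
    (hℓ : HomForm ξ ℓ η) : HasLogDisc n η v (n * ℓ) := by
  obtain ⟨D, g, hD, hg⟩ := exists_hom_frame h hfin hd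
  have hDξ := frame_comm hD (fun i => (hg i).2)
  have h1 := gram_det_ne_zero hD halt hinj
  have h2 := hasLogDisc_of_frame hD (fun i => hv.logDer_of_comm h (hDξ i)) h1
  have h3 : v.val (gram η D).det = ((2 * n : ℕ) : ℝ) * ℓ :=
    hv.val_eig h h1 (eig_det ℓ fun i j => homForm_eig hℓ (hDξ i) (hDξ j))
  rw [h3] at h2
  have e : ((2 * n : ℕ) : ℝ) * ℓ / 2 = n * ℓ := by
    push_cast
    ring
  rwa [e] at h2

/-- Claim 1. -/
theorem neg_der_zero (h : IsCone R ξ) {v : RVal K} (hv : IsWt R ξ v) {n : ℕ}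
    (hfin : Module.Finite K (Derivation ℂ K K)) (hd : finrank K (Derivation ℂ K K) = 2 * n)
    {η : Form K} (hη : IsNondeg R η) {ℓ : ℝ} (hℓ : HomForm ξ ℓ η) {a V : ℝ}
    (hmin : UniqueMin n R η v a V) {Y : Derivation ℂ K K} (hYR : Pres R Y) {s : ℝ} (hs : 0 < s)
    (hY : ⁅ξ, Y⁆ = ((-s : ℝ) : ℂ) • Y) (hYs : ∀ f ∈ R, ξ f = (s : ℂ) • f → Y f = 0) : Y = 0 := by
  by_contra hY0
  have hN := locNil_of_neg h hYR hs hY
  obtain ⟨φ, hφ, hφ'⟩ := exists_expEquiv h.frac hYR hN
  have hlow : Low R ξ φ := low_of_neg hYR hs hY hN hφ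
  have hlow' : Low R ξ φ.symm := low_of_neg (neg_pres hYR) hs (neg_eig hY) (neg_locNil hN)
    (fun x hx N hxN => by
      have := neg_iter_zero hxN
      rw [neg_neg] at this
      exact hφ' x hx N this)
  obtain ⟨ha, hV, hm⟩ := hmin
  -- degrees of iterates stay positive
  have hpos : ∀ x ∈ R, x ≠ 0 → ∀ b : ℝ, 0 < b → ξ x = (b : ℂ) • x → ∀ k, Y^[k] x ≠ 0 →
      0 < b - k * s := by
    intro x hx hx0 b hb hxb k hk
    have h1 := h.eig_nonneg (iter_mem hYR hx k) hk (iter_eig hY hxb k)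
    rcases lt_or_eq_of_le h1 with h2 | h2
    · exact h2
    · exfalso
      cases k with
      | zero =>
        simp only [Nat.cast_zero, zero_mul, sub_zero] at h2
        exact hb.ne h2
      | succ k =>
        apply hk
        rw [Function.iterate_succ_apply']
        refine hYs _ (iter_mem hYR hx k) ?_
        rw [iter_eig hY hxb k]
        congr 2
        push_cast at h2 ⊢
        linarith
  have hcent : Centred R v (v.comap φ) := by
    intro x hx hx0 hvx
    have h1 : RH R ξ (fun b => v.val x ≤ b) ≤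
        (RH R ξ (fun b => 0 < b)).comap (φ.toLinearMap : K →ₗ[ℂ] K) := by
      refine Submodule.span_le.mpr ?_
      rintro y ⟨hyR, c, hc, hyc⟩
      have hyc : ξ y = (c : ℂ) • y := hyc
      show φ y ∈ RH R ξ (fun b => 0 < b)
      obtain ⟨N, hNy⟩ := hN y hyR
      rw [hφ y hyR N hNy, expN]
      refine Submodule.sum_mem _ fun k _ => ?_
      refine Submodule.smul_mem _ _ ?_
      by_cases h2 : Y^[k] y = 0
      · rw [h2]
        exact Submodule.zero_mem _
      · have hy0 : y ≠ 0 := by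
          rintro rfl
          exact h2 (iter_zero_of_le (Nat.zero_le k) rfl)
        exact mem_hsp (iter_mem hYR hyR k)
          (hpos y hyR hy0 c (lt_of_lt_of_le hvx hc) hyc k h2) (iter_eig hY hyc k)
    have h2 : φ x ∈ RH R ξ (fun b => 0 < b) := h1 ((hv x hx hx0 _).mp le_rfl)
    have h3 := hv.gt_of_hsp h (rh_le_top h2)
    exact h3.resolve_left ((map_ne_zero φ).mpr hx0)
  -- the two values
  obtain ⟨D, g, hD, hg⟩ := exists_hom_frame h hfin hd
  have hDξ := frame_comm hD (fun i => (hg i).2)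
  have hD' := cj_frame hD φ
  have hdet := gram_det_ne_zero hD' hη.alt hη.inj
  have hdisc := hasLogDisc_of_frame hD'
    (fun i => cj_logDer (hv.logDer_of_comm h (hDξ i)) φ) hdet
  have hle := conj_det_le h hv hη hℓ hlow hlow' hD hDξ
  have hvol := hasVol_comap (n := n) (fun x hx => hlow.mem h hx) (fun x hx => hlow'.mem h hx) hV
  obtain ⟨h1, h2⟩ := hm _ _ _ hcent hdisc hvol
  have ha' : a = n * ℓ := ha.unique (logDisc_wt h hv hfin hd hη.alt hη.inj hℓ)
  have hV0 : 0 ≤ V := ge_of_tendsto' hV fun m => by positivity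
  -- not proportional
  have hnp : ¬ Prop' v (v.comap φ) := by
    rintro ⟨c, hc⟩
    -- a homogeneous element not killed by `Y`
    have h3 : ∃ x ∈ R, ∃ b : ℝ, ξ x = (b : ℂ) • x ∧ Y x ≠ 0 := by
      by_contra hcon
      push Not at hcon
      apply hY0
      refine der_eq_zero h.frac fun x hx => ?_
      have h4 : RH R ξ (fun c => 0 ≤ c) ≤ LinearMap.ker (Y : K →ₗ[ℂ] K) := by
        refine Submodule.span_le.mpr ?_
        rintro y ⟨hyR, c, _, hyc⟩
        exact hcon y hyR c hyc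
      exact h4 (h.span x hx)
    obtain ⟨x, hxR, b, hxb, hYx⟩ := h3
    have hx0 : x ≠ 0 := by
      rintro rfl
      exact hYx (map_zero Y)
    have hb : 0 < b := by
      rcases lt_or_eq_of_le (h.eig_nonneg hxR hx0 hxb) with h4 | h4
      · exact h4
      · exfalso
        rw [← h4] at hxb
        obtain ⟨z, hz⟩ := h.const x hxR (by rw [hxb]; simp)
        apply hYx
        rw [hz]
        exact Derivation.map_algebraMap Y z
    classical
    obtain ⟨N, hNx⟩ := hN x hxR
    have hex : ∃ k, Y^[k + 1] x = 0 := ⟨N, iter_zero_of_le (Nat.le_succ N) hNx⟩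
    obtain ⟨k, hk, hkmin⟩ : ∃ k, Y^[k + 1] x = 0 ∧ Y^[k] x ≠ 0 := by
      refine ⟨Nat.find hex, Nat.find_spec hex, ?_⟩
      cases hfk : Nat.find hex with
      | zero => exact hx0
      | succ m =>
        intro h0
        have := Nat.find_min hex (m := m) (by omega)
        exact this h0
    have hk1 : 1 ≤ k := by
      rcases Nat.eq_zero_or_pos k with h0 | h0
      · exfalso
        rw [h0] at hk
        exact hYx hk
      · exact h0
    -- the last nonzero iterate
    have hgR := iter_mem hYR hxR k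
    have hgpos := hpos x hxR hx0 b hb hxb k hkmin
    have hgv : v.val (Y^[k] x) = b - k * s := hv.val_eig h hkmin (iter_eig hY hxb k)
    have hg1 : Y^[1] (Y^[k] x) = 0 := by
      rw [← Function.iterate_add_apply, add_comm]
      exact hk
    have hφg : φ (Y^[k] x) = Y^[k] x := by
      rw [hφ _ hgR 1 hg1]
      simp [expN, dp_zero]
    have hc1 : c = 1 := by
      have h4 := hc _ hkmin
      have h5 : (v.comap φ).val (Y^[k] x) = v.val (Y^[k] x) := by
        show v.val (φ (Y^[k] x)) = _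
        rw [hφg]
      rw [h5, hgv] at h4
      have h6 : (c - 1) * (b - k * s) = 0 := by linarith
      rcases mul_eq_zero.mp h6 with h7 | h7
      · linarith
      · exact absurd h7 hgpos.ne'
    have h7 : v.val (φ x) = b - k * s := by
      have h8 : φ x = expN Y (k + 1) x := hφ x hxR (k + 1) hk
      have h9 : expN Y (k + 1) x = dp Y k x + expN Y k x := by
        rw [expN, Finset.sum_range_succ, add_comm]
        rfl
      have hf0 : ((k.factorial : ℂ)⁻¹) ≠ 0 := by
        refine inv_ne_zero ?_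
        exact_mod_cast Nat.factorial_ne_zero k
      have hdp0 : dp Y k x ≠ 0 := smul_ne_zero hf0 hkmin
      have hdpe : ξ (dp Y k x) = ((b - k * s : ℝ) : ℂ) • dp Y k x := by
        rw [dp, Derivation.map_smul, iter_eig hY hxb k, smul_comm]
      refine (hv.val_of_lead h hdp0 hdpe ?_).2
      rw [h8, h9, add_sub_cancel_left]
      refine Submodule.sum_mem _ fun j hj => ?_
      refine Submodule.smul_mem _ _ (mem_hsp Submodule.mem_top ?_ (iter_eig hY hxb j))
      have hj : (j : ℝ) < k := by exact_mod_cast Finset.mem_range.mp hj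
      have := mul_lt_mul_of_pos_right hj hs
      linarith
    have h10 := hc x hx0
    rw [hc1, one_mul, hv.val_eig h hx0 hxb] at h10
    have h11 : (v.comap φ).val x = v.val (φ x) := rfl
    rw [h11, h7] at h10
    have h12 : (0 : ℝ) < k * s := by
      have : (1 : ℝ) ≤ k := by exact_mod_cast hk1
      positivity
    linarith
  have h3 := h2 hnp
  have h4 : (v.comap φ).val (gram η (fun i => cj φ (D i))).det / 2 ≤ a := by
    rw [ha']
    linarith
  have h5 : ((v.comap φ).val (gram η (fun i => cj φ (D i))).det / 2) ^ (2 * n) ≤ a ^ (2 * n) :=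
    pow_le_pow_left₀ h1.le h4 _
  have h6 := mul_le_mul_of_nonneg_right h5 hV0
  linarith

end Pool.Agent.Helper37.SD
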